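import Mathlib

/-!
# From weighted sums to counts in windows
-/

set_option autoImplicit false

open Filter
open scoped Classical

namespace Pool.Agent.H26.Mass

theorem dyadic_sum {α : Type*} (T : Finset α) (D : α → ℝ) {s Y₀ X : ℝ} (hs : 1 / 2 < s)
    (hY₀ : 1 ≤ Y₀) (hX : 0 ≤ X) (hT : ∀ L ∈ T, Y₀ ≤ D L ∧ D L ≤ X)
    (hN : ∀ Y, Y₀ ≤ Y → Y ≤ X → ((T.filter fun L => D L ≤ Y).card : ℝ) ≤ Y ^ s) :
    ∑ L ∈ T, (Real.sqrt (D L))⁻¹ ≤
      Real.sqrt 2 * (1 - (2 : ℝ) ^ (-(s - 1 / 2)))⁻¹ * X ^ (s - 1 / 2) := by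
  have hex : ∀ L ∈ T, ∃ j : ℕ, (2 : ℝ) ^ j ≤ X / D L ∧ X / D L < 2 ^ (j + 1) := by
    intro L hL
    obtain ⟨h1, h2⟩ := hT L hL
    have hD : 0 < D L := by linarith
    exact exists_nat_pow_near ((one_le_div hD).2 h2) one_lt_two
  choose! f hf using hex
  set r : ℝ := (2 : ℝ) ^ (-(s - 1 / 2)) with hr
  have hr0 : 0 < r := by positivity
  have hr1 : r < 1 := Real.rpow_lt_one_of_one_lt_of_neg (by norm_num) (by linarith)
  rcases T.eq_empty_or_nonempty with rfl | ⟨L₀, hL₀⟩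
  · rw [Finset.sum_empty]
    have h1 : 0 ≤ (1 - r)⁻¹ := inv_nonneg.2 (by linarith)
    have h2 : 0 ≤ X ^ (s - 1 / 2) := Real.rpow_nonneg hX _
    positivity
  have hX1 : 1 ≤ X := hY₀.trans ((hT L₀ hL₀).1.trans (hT L₀ hL₀).2)
  have hX0 : 0 < X := by linarith
  have h1 : ∑ L ∈ T, (Real.sqrt (D L))⁻¹ =
      ∑ j ∈ T.image f, ∑ L ∈ T with f L = j, (Real.sqrt (D L))⁻¹ :=
    (Finset.sum_fiberwise_of_maps_to (fun L hL => Finset.mem_image_of_mem _ hL) _).symm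
  have h2 : ∀ j ∈ T.image f, ∑ L ∈ T with f L = j, (Real.sqrt (D L))⁻¹ ≤
      Real.sqrt 2 * X ^ (s - 1 / 2) * r ^ j := by
    intro j hj
    obtain ⟨L₁, hL₁, rfl⟩ := Finset.mem_image.1 hj
    set j := f L₁ with hjdef
    set Y : ℝ := X / 2 ^ j with hY
    have hY0 : 0 < Y := by positivity
    have hle : ∀ L ∈ T, f L = j → D L ≤ Y ∧ Y / 2 < D L := by
      intro L hL hfL
      obtain ⟨h3, h4⟩ := hf L hL
      rw [hfL] at h3 h4
      have hD : 0 < D L := by linarith [(hT L hL).1]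
      constructor
      · rw [hY, le_div_iff₀ (by positivity)]
        rw [le_div_iff₀ hD] at h3
        linarith
      · rw [hY, div_div, ← pow_succ, div_lt_iff₀ (by positivity)]
        rw [div_lt_iff₀ hD] at h4
        linarith
    have hYY : Y₀ ≤ Y := (hT L₁ hL₁).1.trans (hle L₁ hL₁ rfl).1
    have hYX : Y ≤ X := div_le_self hX0.le (one_le_pow₀ (by norm_num))
    have h3 : ∀ L ∈ T.filter (fun L => f L = j), (Real.sqrt (D L))⁻¹ ≤ Real.sqrt 2 * (Real.sqrt Y)⁻¹ := by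
      intro L hL
      obtain ⟨hL1, hL2⟩ := Finset.mem_filter.1 hL
      have h4 := (hle L hL1 hL2).2
      have h5 : Real.sqrt (Y / 2) ≤ Real.sqrt (D L) := Real.sqrt_le_sqrt h4.le
      rw [Real.sqrt_div hY0.le] at h5
      have h6 : 0 < Real.sqrt Y := Real.sqrt_pos.2 hY0
      have h7 : 0 < Real.sqrt 2 := by positivity
      calc (Real.sqrt (D L))⁻¹ ≤ (Real.sqrt Y / Real.sqrt 2)⁻¹ := inv_anti₀ (by positivity) h5
        _ = Real.sqrt 2 * (Real.sqrt Y)⁻¹ := by rw [inv_div]; ring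
    have h4 : ((T.filter (fun L => f L = j)).card : ℝ) ≤ Y ^ s := by
      refine le_trans ?_ (hN Y hYY hYX)
      have : T.filter (fun L => f L = j) ⊆ T.filter (fun L => D L ≤ Y) := by
        intro L hL
        obtain ⟨hL1, hL2⟩ := Finset.mem_filter.1 hL
        exact Finset.mem_filter.2 ⟨hL1, (hle L hL1 hL2).1⟩
      exact_mod_cast Finset.card_le_card this
    refine (Finset.sum_le_sum h3).trans ?_
    rw [Finset.sum_const, nsmul_eq_mul]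
    have h5 : Y ^ s * (Real.sqrt Y)⁻¹ = X ^ (s - 1 / 2) * r ^ j := by
      rw [Real.sqrt_eq_rpow, ← Real.rpow_neg hY0.le, ← Real.rpow_add hY0, hY,
        ← sub_eq_add_neg, Real.div_rpow hX0.le (by positivity), hr, ← Real.rpow_natCast,
        ← Real.rpow_natCast, ← Real.rpow_mul (by norm_num), ← Real.rpow_mul (by norm_num), div_eq_mul_inv,
        ← Real.rpow_neg (by norm_num)]
      congr 2
      ring
    calc ((T.filter (fun L => f L = j)).card : ℝ) * (Real.sqrt 2 * (Real.sqrt Y)⁻¹)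
        ≤ Y ^ s * (Real.sqrt 2 * (Real.sqrt Y)⁻¹) := mul_le_mul_of_nonneg_right h4 (by positivity)
      _ = Real.sqrt 2 * (Y ^ s * (Real.sqrt Y)⁻¹) := by ring
      _ = _ := by rw [h5]; ring
  rw [h1]
  refine (Finset.sum_le_sum h2).trans ?_
  rw [← Finset.mul_sum]
  have h3 : ∑ j ∈ T.image f, r ^ j ≤ (1 - r)⁻¹ := by
    rw [← tsum_geometric_of_lt_one hr0.le hr1]
    exact (summable_geometric_of_lt_one hr0.le hr1).sum_le_tsum _ fun j _ => by positivity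
  calc Real.sqrt 2 * X ^ (s - 1 / 2) * ∑ j ∈ T.image f, r ^ j
      ≤ Real.sqrt 2 * X ^ (s - 1 / 2) * (1 - r)⁻¹ := mul_le_mul_of_nonneg_left h3 (by positivity)
    _ = _ := by ring

/-- A weighted lower bound gives a lower bound for the counting function in windows. -/
theorem window {α : Type*} (𝒮 : Set α) (D : α → ℝ) (hD : ∀ L ∈ 𝒮, 1 ≤ D L)
    (hfin : ∀ X : ℝ, {L | L ∈ 𝒮 ∧ D L ≤ X}.Finite) {κ : ℝ}
    (hsum : ∀ ε : ℝ, 0 < ε → ∃ c : ℝ, 0 < c ∧ ∀ᶠ X : ℝ in atTop,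
      c * X ^ (κ - ε) ≤ ∑ L ∈ (hfin X).toFinset, (Real.sqrt (D L))⁻¹)
    {C A : ℝ} (hup : ∀ X : ℝ, 1 ≤ X → ({L | L ∈ 𝒮 ∧ D L ≤ X}.ncard : ℝ) ≤ C * X ^ A)
    (hκ : 0 < κ) {s : ℝ} (hs : s < 1 / 2 + κ) :
    ∃ δ : ℝ, 0 < δ ∧ ∀ᶠ X : ℝ in atTop, ∃ Y : ℝ, X ^ δ ≤ Y ∧ Y ≤ X ∧
      Y ^ s ≤ ({L | L ∈ 𝒮 ∧ D L ≤ Y}.ncard : ℝ) := by
  set s' : ℝ := max s (1 / 2 + κ / 2) with hs'
  have hs1 : 1 / 2 < s' := lt_of_lt_of_le (by linarith) (le_max_right _ _)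
  have hs2 : s' < 1 / 2 + κ := max_lt hs (by linarith)
  set η : ℝ := s' - 1 / 2 with hη
  have hη0 : 0 < η := by linarith
  have hηκ : η < κ := by linarith
  set A' : ℝ := max A 1 with hA'
  have hA1 : 1 ≤ A' := le_max_right _ _
  set δ : ℝ := min 1 (η / A') with hδ
  have hδ0 : 0 < δ := lt_min one_pos (by positivity)
  have hδ1 : δ ≤ 1 := min_le_left _ _
  have hδA : δ * A' ≤ η := by
    have h1 : δ ≤ η / A' := min_le_right _ _
    calc δ * A' ≤ η / A' * A' := mul_le_mul_of_nonneg_right h1 (by linarith)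
      _ = η := by field_simp
  refine ⟨δ, hδ0, ?_⟩
  obtain ⟨c, hc0, hc⟩ := hsum ((κ - η) / 2) (by linarith)
  set K : ℝ := |C| + Real.sqrt 2 * (1 - (2 : ℝ) ^ (-(s' - 1 / 2)))⁻¹ with hK
  have hbig : ∀ᶠ X : ℝ in atTop, K / c < X ^ ((κ - η) / 2) :=
    (tendsto_rpow_atTop (by linarith)).eventually_gt_atTop _
  filter_upwards [hc, hbig, eventually_ge_atTop (1 : ℝ)] with X hX1 hX2 hX3
  have hX0 : 0 < X := by linarith
  by_contra hcon
  push Not at hcon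
  have hY1 : 1 ≤ X ^ δ := Real.one_le_rpow hX3 hδ0.le
  have hYX : X ^ δ ≤ X := by
    calc X ^ δ ≤ X ^ (1 : ℝ) := Real.rpow_le_rpow_of_exponent_le hX3 hδ1
      _ = X := Real.rpow_one X
  have hN : ∀ Y : ℝ, X ^ δ ≤ Y → Y ≤ X → ({L | L ∈ 𝒮 ∧ D L ≤ Y}.ncard : ℝ) ≤ Y ^ s' := by
    intro Y h1 h2
    exact (hcon Y h1 h2).le.trans
      (Real.rpow_le_rpow_of_exponent_le (hY1.trans h1) (le_max_left _ _))
  set T : Finset α := (hfin X).toFinset with hT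
  have hsplit := Finset.sum_filter_add_sum_filter_not T (fun L => D L ≤ X ^ δ)
    (fun L => (Real.sqrt (D L))⁻¹)
  have hlow : ∑ L ∈ T with D L ≤ X ^ δ, (Real.sqrt (D L))⁻¹ ≤ |C| * X ^ η := by
    have h1 : ∀ L ∈ T.filter (fun L => D L ≤ X ^ δ), (Real.sqrt (D L))⁻¹ ≤ 1 := by
      intro L hL
      obtain ⟨hL1, -⟩ := Finset.mem_filter.1 hL
      have h2 : 1 ≤ D L := hD L ((Set.Finite.mem_toFinset _).1 hL1).1
      exact inv_le_one_of_one_le₀ (Real.one_le_sqrt.2 h2)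
    refine (Finset.sum_le_sum h1).trans ?_
    rw [Finset.sum_const, nsmul_eq_mul, mul_one]
    have h2 : ((T.filter (fun L => D L ≤ X ^ δ)).card : ℝ) ≤
        ({L | L ∈ 𝒮 ∧ D L ≤ X ^ δ}.ncard : ℝ) := by
      rw [← Set.ncard_coe_finset]
      refine Nat.cast_le.2 (Set.ncard_le_ncard ?_ (hfin _))
      intro L hL
      obtain ⟨hL1, hL2⟩ := Finset.mem_filter.1 (Finset.mem_coe.1 hL)
      exact ⟨((Set.Finite.mem_toFinset _).1 hL1).1, hL2⟩
    refine h2.trans ((hup _ hY1).trans ?_)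
    have h3 : (X ^ δ) ^ A ≤ X ^ η := by
      calc (X ^ δ) ^ A ≤ (X ^ δ) ^ A' := Real.rpow_le_rpow_of_exponent_le hY1 (le_max_left _ _)
        _ = X ^ (δ * A') := (Real.rpow_mul hX0.le _ _).symm
        _ ≤ X ^ η := Real.rpow_le_rpow_of_exponent_le hX3 hδA
    calc C * (X ^ δ) ^ A ≤ |C| * (X ^ δ) ^ A :=
          mul_le_mul_of_nonneg_right (le_abs_self C) (by positivity)
      _ ≤ |C| * X ^ η := mul_le_mul_of_nonneg_left h3 (abs_nonneg C)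
  have hhigh : ∑ L ∈ T with ¬ D L ≤ X ^ δ, (Real.sqrt (D L))⁻¹ ≤
      Real.sqrt 2 * (1 - (2 : ℝ) ^ (-(s' - 1 / 2)))⁻¹ * X ^ η := by
    refine dyadic_sum _ D hs1 hY1 hX0.le ?_ ?_
    · intro L hL
      obtain ⟨hL1, hL2⟩ := Finset.mem_filter.1 hL
      exact ⟨(not_le.1 hL2).le, ((Set.Finite.mem_toFinset _).1 hL1).2⟩
    · intro Y h1 h2
      refine le_trans ?_ (hN Y h1 h2)
      rw [← Set.ncard_coe_finset]
      refine Nat.cast_le.2 (Set.ncard_le_ncard ?_ (hfin _))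
      intro L hL
      obtain ⟨hL1, hL2⟩ := Finset.mem_filter.1 (Finset.mem_coe.1 hL)
      obtain ⟨hL3, -⟩ := Finset.mem_filter.1 hL1
      exact ⟨((Set.Finite.mem_toFinset _).1 hL3).1, hL2⟩
  have htot : c * X ^ (κ - (κ - η) / 2) ≤ K * X ^ η := by
    calc c * X ^ (κ - (κ - η) / 2) ≤ ∑ L ∈ T, (Real.sqrt (D L))⁻¹ := hX1
      _ = _ := hsplit.symm
      _ ≤ |C| * X ^ η + Real.sqrt 2 * (1 - (2 : ℝ) ^ (-(s' - 1 / 2)))⁻¹ * X ^ η :=
        add_le_add hlow hhigh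
      _ = K * X ^ η := by rw [hK]; ring
  have h5 : X ^ (κ - (κ - η) / 2) = X ^ ((κ - η) / 2) * X ^ η := by
    rw [← Real.rpow_add hX0]
    congr 1
    ring
  rw [h5, ← mul_assoc] at htot
  have h6 : c * X ^ ((κ - η) / 2) ≤ K := le_of_mul_le_mul_right htot (by positivity)
  rw [div_lt_iff₀ hc0] at hX2
  linarith

end Pool.Agent.H26.Mass
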