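import Pool.Agent.H26.Mass.Sum
import Pool.Agent.H26.Mass.Window

/-!
# Lower bounds for the number of fields in windows
-/

set_option autoImplicit false

open Module NumberField Polynomial IntermediateField Filter
open scoped Classical

namespace Pool.Agent.H26.Mass

open Pool.Agent.Helper313LB Pool.Agent.Helper313SN Pool.Agent.Helper313WR

/-- the fields with property `Q`, without a bound for the discriminant -/
def AllQ {F Ω : Type} [Field F] [Field Ω] [Algebra F Ω] (Q : IntermediateField F Ω → Prop) (n : ℕ) :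
    Set (IntermediateField F Ω) :=
  {L | finrank F L = n ∧ Q L ∧ NumberField L}

theorem QFld_eq {F : Type} [Field F] [NumberField F] {Ω : Type} [Field Ω] [CharZero Ω]
    [Algebra F Ω] (Q : IntermediateField F Ω → Prop) (n : ℕ) (X : ℝ) :
    QFld Q n X = {L | L ∈ AllQ Q n ∧ dsc L ≤ X} := by
  ext L
  rw [mem_QFld]
  constructor
  · rintro ⟨h1, h2, h3, h4⟩
    exact ⟨⟨h1, h2, h3⟩, h4⟩
  · rintro ⟨⟨h1, h2, h3⟩, h4⟩
    exact ⟨h1, h2, h3, h4⟩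

theorem QFld_subset {F : Type} [Field F] [NumberField F] {Ω : Type} [Field Ω] [CharZero Ω]
    [Algebra F Ω] (Q : IntermediateField F Ω → Prop) (n : ℕ) (X : ℝ) :
    QFld Q n X ⊆ Fld F Ω n X := by
  rintro L ⟨h1, -, h3, h4⟩
  exact ⟨h1, h3, h4⟩

/-- In every window there is a value `Y` with at least `Y ^ s` fields. -/
theorem Q_window {F : Type} [Field F] [NumberField F] {Ω : Type} [Field Ω] [CharZero Ω]
    [Algebra F Ω] [IsAlgClosed Ω] {Q : IntermediateField F Ω → Prop} (hQ : ∀ L, Q L → Full L)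
    {n : ℕ} (hn : 3 ≤ n) (hB : Base Q n) {C A : ℝ}
    (hup : ∀ X : ℝ, 1 ≤ X → ((Fld F Ω n X).ncard : ℝ) ≤ C * X ^ A) {s : ℝ}
    (hs : s < 1 / 2 + 1 / ((n : ℝ) - 1)) :
    ∃ δ : ℝ, 0 < δ ∧ ∀ᶠ X : ℝ in atTop, ∃ Y : ℝ, X ^ δ ≤ Y ∧ Y ≤ X ∧
      Y ^ s ≤ ((QFld Q n Y).ncard : ℝ) := by
  have hfin : ∀ X : ℝ, {L | L ∈ AllQ Q n ∧ dsc L ≤ X}.Finite := by
    intro X
    rw [← QFld_eq]
    exact finite_QFld' Q n X
  have hnR : (3 : ℝ) ≤ n := by exact_mod_cast hn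
  have hmain := window (AllQ Q n) dsc (fun L hL => by
      obtain ⟨-, -, h⟩ := hL
      exact one_le_dsc L) hfin (κ := 1 / ((n : ℝ) - 1)) (fun ε hε => by
      obtain ⟨c, hc, h⟩ := sum_lower hQ hn hB hε
      refine ⟨c, hc, h.mono fun X hX => ?_⟩
      refine hX.trans (le_of_eq ?_)
      congr 1
      ext L
      rw [Set.Finite.mem_toFinset, Set.Finite.mem_toFinset, QFld_eq]) (C := C) (A := A)
      (fun X hX => by
        rw [← QFld_eq]
        refine le_trans (Nat.cast_le.2 ?_) (hup X hX)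
        exact Set.ncard_le_ncard (QFld_subset Q n X) (finite_Fld F Ω X))
      (by
        have : 0 < (n : ℝ) - 1 := by linarith
        positivity) hs
  simp only [QFld_eq]
  exact hmain

theorem mem_QFld_mono {F : Type} [Field F] [NumberField F] {Ω : Type} [Field Ω] [CharZero Ω]
    [Algebra F Ω] {Q : IntermediateField F Ω → Prop} {n : ℕ} {X Y : ℝ} (h : X ≤ Y) :
    QFld Q n X ⊆ QFld Q n Y := by
  rintro L ⟨h4, h5, h6, h7⟩
  exact ⟨h4, h5, h6, h7.trans h⟩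

/-- a polynomial upper bound over a subfield gives one over the field -/
theorem up_tower {K : Type} [Field K] [NumberField K] {Ω : Type} [Field Ω] [CharZero Ω]
    [Algebra K Ω] (F : IntermediateField K Ω) [FiniteDimensional K F] [NumberField F] {p : ℕ}
    {C A : ℝ} (h : ∀ X : ℝ, 1 ≤ X → ((Fld K Ω (finrank K F * p) X).ncard : ℝ) ≤ C * X ^ A) :
    ∀ X : ℝ, 1 ≤ X → ((Fld F Ω p X).ncard : ℝ) ≤ C * X ^ A := fun X hX =>
  le_trans (Nat.cast_le.2 (ncard_Fld_le F p X)) (h X hX)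

/-- Wreath products `S_k ≀ H`, absolute discriminants. -/
theorem G_window {K : Type} [Field K] [NumberField K] {Ω : Type} [Field Ω] [CharZero Ω]
    [Algebra K Ω] [IsAlgClosed Ω] [Normal K Ω] {k h n : ℕ} (hk : 3 ≤ k)
    (H : Subgroup (Equiv.Perm (Fin h)))
    (hocc : ∃ Y, (GFld K Ω h H Y).Nonempty) (G : Subgroup (Equiv.Perm (Fin n)))
    (f : Fin n ≃ Fin h × Fin k)
    (hf : ∀ π : Equiv.Perm (Fin n), π ∈ G ↔ ∃ η ∈ H, ∀ i, (f (π i)).1 = η (f i).1) {C A : ℝ}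
    (hup : ∀ X : ℝ, 1 ≤ X → ((Fld K Ω n X).ncard : ℝ) ≤ C * X ^ A) {s : ℝ}
    (hs : s < 1 / 2 + 1 / ((k : ℝ) - 1)) :
    ∃ δ : ℝ, 0 < δ ∧ ∀ᶠ X : ℝ in atTop, ∃ Y : ℝ, X ^ δ ≤ Y ∧ Y ≤ X ∧
      Y ^ s ≤ ((GFld K Ω n G Y).ncard : ℝ) := by
  obtain ⟨Y0, F, hF, ⟨e0, he0⟩, hnf, -⟩ := hocc
  haveI : NumberField F := hnf
  haveI : IsScalarTower ℚ K F := IsScalarTower.of_algebraMap_eq' (Subsingleton.elim _ _)
  haveI : FiniteDimensional K F := FiniteDimensional.right ℚ K F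
  haveI : Normal F Ω := Normal.tower_top_of_normal K F Ω
  have hn : n = h * k := by
    have := Fintype.card_congr f
    rwa [Fintype.card_prod, Fintype.card_fin, Fintype.card_fin, Fintype.card_fin] at this
  have hup' := up_tower F (p := k) (C := C) (A := A) (by
    rw [hF, ← hn]
    exact hup)
  obtain ⟨δ, hδ, hwin⟩ := Q_window (F := F) (Ω := Ω) (Q := fun L => Full L ∧ Tr K L)
    (fun L h => h.1) hk (exists_baseW K F Ω hk) hup' hs
  refine ⟨δ, hδ, ?_⟩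
  filter_upwards [hwin] with X ⟨Y, hXY, hYX, hY⟩
  refine ⟨Y, hXY, hYX, hY.trans ?_⟩
  let g : IntermediateField F Ω → IntermediateField K Ω := fun L => L.restrictScalars K
  have hg : Function.Injective g := restrictScalars_injective K
  have h1 : (QFld (fun L : IntermediateField F Ω => Full L ∧ Tr K L) k Y).ncard ≤
      (GFld K Ω n G Y).ncard := by
    rw [← Set.ncard_image_of_injective _ hg]
    refine Set.ncard_le_ncard ?_ (finite_GFld K Ω G Y)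
    rintro _ ⟨L, ⟨h1, ⟨h2, h3⟩, hnfL, h4⟩, rfl⟩
    haveI : FiniteDimensional F L := FiniteDimensional.of_finrank_pos (by omega)
    haveI : FiniteDimensional K L := FiniteDimensional.trans K F L
    haveI : Finite (L →ₐ[K] Ω) := inferInstance
    refine ⟨?_, perm_iff K (by omega) L h1 h2 h3 H e0 he0 G f hf, hnfL, h4⟩
    rw [hn, ← hF, ← h1]
    exact (finrank_mul_finrank K F L).symm
  exact_mod_cast h1

/-- Wreath products `S_k ≀ H`, relative discriminants. -/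
theorem G_window_rel {K : Type} [Field K] [NumberField K] {Ω : Type} [Field Ω] [CharZero Ω]
    [Algebra K Ω] [IsAlgClosed Ω] [Normal K Ω] {k h n : ℕ} (hk : 3 ≤ k)
    (H : Subgroup (Equiv.Perm (Fin h)))
    (hocc : ∃ Y, (GFld K Ω h H Y).Nonempty) (G : Subgroup (Equiv.Perm (Fin n)))
    (f : Fin n ≃ Fin h × Fin k)
    (hf : ∀ π : Equiv.Perm (Fin n), π ∈ G ↔ ∃ η ∈ H, ∀ i, (f (π i)).1 = η (f i).1) {C A : ℝ}
    (hup : ∀ X : ℝ, 1 ≤ X → ((Fld K Ω n X).ncard : ℝ) ≤ C * X ^ A) {s : ℝ}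
    (hs : s < 1 / 2 + 1 / ((k : ℝ) - 1)) {D : ℝ} (hD : 1 ≤ D) :
    ∃ δ : ℝ, 0 < δ ∧ ∀ᶠ X : ℝ in atTop, ∃ Y : ℝ, X ^ δ ≤ Y ∧ Y ≤ X ∧
      Y ^ s ≤ ((GFld K Ω n G (Y * D)).ncard : ℝ) := by
  obtain ⟨δ, hδ, h⟩ := G_window hk H hocc G f hf hup hs
  refine ⟨δ, hδ, ?_⟩
  filter_upwards [h, eventually_ge_atTop (1 : ℝ)] with X ⟨Y, h1, h2, h3⟩ hX
  refine ⟨Y, h1, h2, h3.trans (Nat.cast_le.2 (Set.ncard_le_ncard ?_ (finite_GFld K Ω G _)))⟩
  rintro L ⟨h4, h5, h6, h7⟩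
  have hY : 0 ≤ Y := le_trans (by positivity) h1
  exact ⟨h4, h5, h6, h7.trans (le_mul_of_one_le_right hY hD)⟩

/-- Consequence of a window statement. -/
theorem not_bound_of_window {N : ℝ → ℝ} {κ : ℝ}
    (h : ∀ s : ℝ, s < κ → ∃ δ : ℝ, 0 < δ ∧ ∀ᶠ X : ℝ in atTop, ∃ Y : ℝ, X ^ δ ≤ Y ∧ Y ≤ X ∧
      Y ^ s ≤ N Y) (s : ℝ) (hs : s < κ) : ¬ ∃ C : ℝ, ∀ᶠ X : ℝ in atTop, N X ≤ C * X ^ s := by
  rintro ⟨C, hC⟩
  obtain ⟨t, hst, htκ⟩ := exists_between hs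
  obtain ⟨δ, hδ, hδ'⟩ := h t htκ
  have h1 : ∀ᶠ X : ℝ in atTop, C < X ^ (t - s) :=
    (tendsto_rpow_atTop (by linarith)).eventually_gt_atTop C
  obtain ⟨Z, hZ⟩ := ((hC.and h1).and (eventually_gt_atTop (0 : ℝ))).exists_forall_of_atTop
  have h2 : ∀ᶠ X : ℝ in atTop, Z ≤ X ^ δ := (tendsto_rpow_atTop hδ).eventually_ge_atTop Z
  obtain ⟨X, ⟨Y, h3, h4, h5⟩, h6⟩ := (hδ'.and h2).exists
  obtain ⟨⟨h7, h8⟩, h9⟩ := hZ Y (h6.trans h3)
  have h10 : Y ^ t = Y ^ (t - s) * Y ^ s := by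
    rw [← Real.rpow_add h9]
    congr 1
    ring
  have h11 : 0 < Y ^ s := Real.rpow_pos_of_pos h9 s
  have h12 : Y ^ (t - s) * Y ^ s ≤ C * Y ^ s := by
    rw [← h10]
    exact h5.trans h7
  exact absurd (le_of_mul_le_mul_right h12 h11) (not_le.2 h8)

end Pool.Agent.H26.Mass
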