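import Pool.Agent.H26.Mass.Basis

/-!
# The number of the small integers of trace zero
-/

set_option autoImplicit false

open Module NumberField

namespace Pool.Agent.H26.Mass

open Pool.Agent.Helper313LB

theorem exists_W_le (F : Type*) [Field F] [NumberField F] {n : ℕ} (hn : 1 ≤ n) :
    ∃ C : ℝ, 0 < C ∧ ∀ (L : Type*) [Field L] [NumberField L] [Algebra F L], finrank F L = n →
      ∀ R : ℝ, 1 ≤ R →
      (∃ b : Basis (Free.ChooseBasisIndex ℤ (𝓞 F) × Fin n) ℚ L, ∀ i, b i ∈ Sm L R) →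
      ({x : L | x ∈ W F L ∧ house x ≤ R}.ncard : ℝ) * Real.sqrt ((|discr L| : ℤ) : ℝ) ≤
        C * R ^ (finrank ℚ F * (n - 1)) := by
  classical
  obtain ⟨c, hc0, hc⟩ := exists_le_ncard_Box F
  have hcardF : Fintype.card (Free.ChooseBasisIndex ℤ (𝓞 F)) = finrank ℚ F :=
    (finrank_eq_card_basis (integralBasis F)).symm
  set N := finrank ℚ F * n with hN
  refine ⟨5 ^ N * (N.factorial * 2 ^ N) / c, by positivity, ?_⟩
  intro L _ _ _ hL R hR ⟨b, hb⟩
  have hR0 : 0 < R := by linarith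
  have hcard : Fintype.card (Free.ChooseBasisIndex ℤ (𝓞 F) × Fin n) = N := by
    rw [Fintype.card_prod, hcardF, Fintype.card_fin]
  have hb2 : ∀ i, b i ∈ Sm L (2 * R) := fun i => ⟨(hb i).1, (hb i).2.trans (by linarith)⟩
  have h1 := card_Sm_le b (by linarith : 0 < 2 * R) hb2
  rw [hcard] at h1
  -- the injection
  set T := {x : L | x ∈ W F L ∧ house x ≤ R} with hT
  have hTf : T.Finite := finite_W F L R
  have h2 : T.ncard * (Box F R).ncard ≤ (Sm L (2 * R)).ncard := by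
    rw [← Set.ncard_prod]
    refine Set.ncard_le_ncard_of_injOn (fun z : L × 𝓞 F => z.1 + algebraMap F L (z.2 : F)) ?_ ?_
      (finite_Sm _)
    · rintro ⟨x, a⟩ ⟨⟨⟨hx1, hx2⟩, hx3⟩, ha⟩
      refine ⟨?_, ?_⟩
      · refine IsIntegral.add hx1 ?_
        exact (a.isIntegral_coe).map (IsScalarTower.toAlgHom ℤ F L)
      · rw [house_le (by linarith)]
        intro φ
        rw [map_add]
        refine (norm_add_le _ _).trans ?_
        have h3 : ‖φ x‖ ≤ R := (norm_le_house x φ).trans hx3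
        have h4 : ‖φ (algebraMap F L (a : F))‖ ≤ R := ha (φ.comp (algebraMap F L))
        linarith
    · rintro ⟨x, a⟩ ⟨⟨⟨hx1, hx2⟩, hx3⟩, ha⟩ ⟨y, a'⟩ ⟨⟨⟨hy1, hy2⟩, hy3⟩, ha'⟩ h
      simp only at h
      have hfd : FiniteDimensional F L := FiniteDimensional.of_finrank_pos (by omega)
      have h5 := congrArg (Algebra.trace F L) h
      rw [map_add, map_add, hx2, hy2, zero_add, zero_add, Algebra.trace_algebraMap,
        Algebra.trace_algebraMap, hL, nsmul_eq_mul, nsmul_eq_mul] at h5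
      have hn0 : (n : F) ≠ 0 := by exact_mod_cast (by omega : n ≠ 0)
      have h6 : (a : F) = a' := mul_left_cancel₀ hn0 h5
      have h7 : a = a' := RingOfIntegers.coe_injective h6
      subst h7
      have h8 : x = y := add_right_cancel h
      rw [h8]
  have h3 : (T.ncard : ℝ) * (c * R ^ finrank ℚ F) ≤ ((Sm L (2 * R)).ncard : ℝ) := by
    refine (mul_le_mul_of_nonneg_left (hc R hR0.le) (by positivity)).trans ?_
    exact_mod_cast h2
  have h4 : (T.ncard : ℝ) * (c * R ^ finrank ℚ F) * Real.sqrt ((|discr L| : ℤ) : ℝ) ≤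
      5 ^ N * (N.factorial * (2 * R) ^ N) :=
    (mul_le_mul_of_nonneg_right h3 (Real.sqrt_nonneg _)).trans h1
  have h5 : R ^ N = R ^ (finrank ℚ F * (n - 1)) * R ^ finrank ℚ F := by
    rw [← pow_add]
    congr 1
    obtain ⟨m, rfl⟩ : ∃ m, n = m + 1 := ⟨n - 1, by omega⟩
    rw [hN, Nat.add_sub_cancel]
    ring
  have hRp : 0 < R ^ finrank ℚ F := by positivity
  rw [div_mul_eq_mul_div, le_div_iff₀ hc0]
  refine le_of_mul_le_mul_right ?_ hRp
  calc (T.ncard : ℝ) * Real.sqrt ((|discr L| : ℤ) : ℝ) * c * R ^ finrank ℚ F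
      = (T.ncard : ℝ) * (c * R ^ finrank ℚ F) * Real.sqrt ((|discr L| : ℤ) : ℝ) := by ring
    _ ≤ 5 ^ N * (N.factorial * (2 * R) ^ N) := h4
    _ = 5 ^ N * (N.factorial * 2 ^ N) * (R ^ (finrank ℚ F * (n - 1)) * R ^ finrank ℚ F) := by
        rw [mul_pow, h5]; ring
    _ = _ := by ring

end Pool.Agent.H26.Mass
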