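import Pool.Agent.H26.Mass.Many
import Pool.Agent.H26.Mass.WCount

/-!
# The weighted number of the extensions
-/

set_option autoImplicit false

open Module NumberField Polynomial IntermediateField
open scoped Classical

namespace Pool.Agent.H26.Mass

open Pool.Agent.Helper313LB Pool.Agent.Helper313SN

section

variable {F Ω : Type} [Field F] [NumberField F] [Field Ω] [CharZero Ω] [Algebra F Ω]

theorem map_hp {n : ℕ} (hn : 1 ≤ n) (p : 𝓞 F × 𝓞 F × (Fin (n - 1) → 𝓞 F)) :
    (hp n (mk n p) p.2.1).map (algebraMap (𝓞 F) F) = P n fun j => ((hh n p j : 𝓞 F) : F) := by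
  rw [hp_mk hn, P_map]
  rfl

/-- the field generated by a root of the monic polynomial -/
theorem field_facts {F : Type} [Field F] [NumberField F] {Ω : Type} [Field Ω] [CharZero Ω]
    [Algebra F Ω] [IsAlgClosed Ω] {Q : IntermediateField F Ω → Prop} (hQ : ∀ L, Q L → Full L)
    {n : ℕ} (hn : 2 ≤ n) :
    ∃ K : ℝ, 0 < K ∧ ∀ H : ℝ, 1 ≤ H → ∀ L : IntermediateField F Ω, ∀ E : Finset Ω, E.Nonempty →
      (∀ η ∈ E, ∃ p, Ok Q n H p ∧ (minpoly F η = P n fun j => ((hh n p j : 𝓞 F) : F)) ∧ F⟮η⟯ = L) →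
      ∃ _ : NumberField L, finrank F L = n ∧ Q L ∧
        ((|discr L| : ℤ) : ℝ) ≤ K * H ^ (2 * (finrank ℚ F * (n - 1))) ∧
        (E.card : ℝ) * Real.sqrt ((|discr L| : ℤ) : ℝ) ≤ K * H ^ (finrank ℚ F * (n - 1)) := by
  obtain ⟨C₁, hC₁, hbasis⟩ := exists_small_basis.{0, 0} F (by omega : 1 ≤ n)
  obtain ⟨C₂, hC₂, hW⟩ := exists_W_le.{0, 0} F (by omega : 1 ≤ n)
  set d := finrank ℚ F with hd
  set C₃ : ℝ := max C₁ 4 with hC₃
  have hC₃1 : 1 ≤ C₃ := le_max_of_le_left hC₁
  refine ⟨max C₁ (C₂ * C₃ ^ (d * (n - 1))), lt_of_lt_of_le (by linarith) (le_max_left _ _), ?_⟩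
  intro H hH L E hE hEp
  have hH0 : 0 < H := by linarith
  -- one generator
  obtain ⟨η, hη⟩ := hE
  obtain ⟨p, hok, hmin, hL⟩ := hEp η hη
  have hmon : (P n fun j => ((hh n p j : 𝓞 F) : F)).Monic := P_monic _ (by omega)
  have hηF : IsIntegral F η := by
    by_contra hcon
    rw [minpoly.eq_zero hcon] at hmin
    exact hmon.ne_zero hmin.symm
  have hfin : finrank F L = n := by
    rw [← hL, adjoin.finrank hηF, hmin, P_natDegree _ (by omega)]
  have hfd : FiniteDimensional F L := FiniteDimensional.of_finrank_pos (by omega)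
  have hnf : NumberField L := nf_of_fd L
  have hQL : Q L := by
    rw [← hL]
    exact hok.full η hmin
  have hfull : Full L := hQ L hQL
  have hηL : η ∈ L := by
    rw [← hL]
    exact mem_adjoin_simple_self F η
  -- the root of the form
  let g : L := ⟨η, hηL⟩
  have hgmin : minpoly F g = P n fun j => ((hh n p j : 𝓞 F) : F) := by
    rw [← hmin]
    exact (minpoly.algebraMap_eq (algebraMap L Ω).injective g).symm
  have ha0 : (algebraMap (𝓞 F) L (mk n p 0)) ≠ 0 := by
    intro h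
    have h1 : (mk n p 0 : 𝓞 F) = 0 := by
      apply RingOfIntegers.coe_injective (K := F)
      apply (algebraMap F L).injective
      rw [map_zero, map_zero]
      exact h
    obtain ⟨σ⟩ : Nonempty (F →+* ℂ) := inferInstance
    have h2 := hok.lead σ
    rw [mk_zero] at h1
    rw [h1] at h2
    simp at h2
    linarith
  set θ : L := (g - algebraMap (𝓞 F) L p.2.1) / algebraMap (𝓞 F) L (mk n p 0) with hθ
  have hgθ : algebraMap (𝓞 F) L (mk n p 0) * θ + algebraMap (𝓞 F) L p.2.1 = g := by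
    rw [hθ, mul_div_cancel₀ _ ha0]
    ring
  have hroot : aeval g (hp n (mk n p) p.2.1) = 0 := by
    have h1 : aeval g ((hp n (mk n p) p.2.1).map (algebraMap (𝓞 F) F)) = 0 := by
      rw [map_hp (by omega), ← hgmin]
      exact minpoly.aeval F g
    rwa [aeval_map_algebraMap] at h1
  have hform : ∑ j ∈ Finset.range (n + 1), algebraMap (𝓞 F) L (mk n p j) * θ ^ (n - j) = 0 := by
    have h1 := aeval_hp (by omega : 1 ≤ n) (mk n p) p.2.1 θ
    rw [hgθ, hroot] at h1
    exact (mul_eq_zero.1 h1.symm).resolve_left (pow_ne_zero _ ha0)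
  have hgen : Algebra.adjoin F {θ} = ⊤ := by
    have hθF : IsIntegral F θ := Algebra.IsIntegral.isIntegral θ
    rw [← adjoin_simple_toSubalgebra_of_isAlgebraic hθF.isAlgebraic, ← top_toSubalgebra]
    congr 1
    have h1 : F⟮g⟯ = (⊤ : IntermediateField F L) := by
      apply lift_injective L
      rw [lift_top, lift_adjoin_simple]
      exact hL
    rw [eq_top_iff, ← h1, adjoin_simple_le_iff, ← hgθ]
    refine add_mem (mul_mem ?_ (mem_adjoin_simple_self F θ)) ?_
    · exact (F⟮θ⟯).algebraMap_mem ((mk n p 0 : 𝓞 F) : F)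
    · exact (F⟮θ⟯).algebraMap_mem ((p.2.1 : 𝓞 F) : F)
  have hlead : ∀ σ : F →+* ℂ, H / 2 ≤ ‖σ ((mk n p 0 : 𝓞 F) : F)‖ := fun σ => by
    rw [mk_zero]; exact hok.lead σ
  have hrootC : ∀ (q : 𝓞 F × 𝓞 F × (Fin (n - 1) → 𝓞 F)), ∀ x : L,
      minpoly F x = (P n fun j => ((hh n q j : 𝓞 F) : F)) → ∀ φ : L →+* ℂ,
      ((hp n (mk n q) q.2.1).map ((φ.comp (algebraMap F L)).comp (algebraMap (𝓞 F) F))).eval (φ x) = 0 := by
    intro q x hx φ
    rw [eval_map]
    have h1 : aeval x (hp n (mk n q) q.2.1) = 0 := by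
      have h1 : aeval x ((hp n (mk n q) q.2.1).map (algebraMap (𝓞 F) F)) = 0 := by
        rw [map_hp (by omega), ← hx]
        exact minpoly.aeval F x
      rwa [aeval_map_algebraMap] at h1
    have h2 := congrArg φ h1
    rw [aeval_def, hom_eval₂, map_zero] at h2
    exact h2
  have hθ3 : ∀ φ : L →+* ℂ, ‖φ θ‖ ≤ 3 := by
    intro φ
    have h1 := (root_hp_le (by omega : 1 ≤ n) (mk n p) p.2.1 hH0 hok.size hlead hok.shift
      (φ.comp (algebraMap F L)) (hrootC p g hgmin φ)).1
    have h2 : φ θ = (φ g - (φ.comp (algebraMap F L)) (p.2.1 : F)) /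
        (φ.comp (algebraMap F L)) ((mk n p 0 : 𝓞 F) : F) := by
      rw [hθ, map_div₀, map_sub]
      rfl
    rw [h2]
    exact h1
  obtain ⟨⟨b, hb⟩, hdisc⟩ := hbasis L hfin θ hgen (mk n p) (by
    intro h
    apply ha0
    rw [h, map_zero]) hform H hH hok.size hθ3
  refine ⟨hnf, hfin, hQL, ?_, ?_⟩
  · exact hdisc.trans (mul_le_mul_of_nonneg_right (le_max_left _ _) (by positivity))
  · have hR : 1 ≤ C₃ * H := one_le_mul_of_one_le_of_one_le hC₃1 hH
    have hb' : ∀ i, b i ∈ Sm L (C₃ * H) := fun i =>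
      ⟨(hb i).1, (hb i).2.trans (mul_le_mul_of_nonneg_right (le_max_left _ _) hH0.le)⟩
    have h1 := hW L hfin (C₃ * H) hR ⟨b, hb'⟩
    have h2 : E.card ≤ {x : L | x ∈ W F L ∧ house x ≤ C₃ * H}.ncard := by
      have hEL : ∀ η ∈ E, η ∈ L := by
        intro η' hη'
        obtain ⟨_, -, -, h3⟩ := hEp η' hη'
        rw [← h3]
        exact mem_adjoin_simple_self F η'
      have h3 : (E.attach.image fun x => (⟨x.1, hEL x.1 x.2⟩ : L)).card = E.card := by
        rw [Finset.card_image_of_injective _ ?_, Finset.card_attach]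
        intro x y h
        exact Subtype.ext (congrArg (fun z : L => (z : Ω)) h)
      rw [← h3, ← Set.ncard_coe_finset]
      refine Set.ncard_le_ncard ?_ (finite_W F L _)
      intro x hx
      rw [Finset.mem_coe, Finset.mem_image] at hx
      obtain ⟨⟨y, hy⟩, -, rfl⟩ := hx
      obtain ⟨q, hokq, hminq, hLq⟩ := hEp y hy
      have hxmin : minpoly F (⟨y, hEL y hy⟩ : L) = P n fun j => ((hh n q j : 𝓞 F) : F) := by
        rw [← hminq]
        exact (minpoly.algebraMap_eq (algebraMap L Ω).injective (⟨y, hEL y hy⟩ : L)).symm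
      have hxtop : F⟮(⟨y, hEL y hy⟩ : L)⟯ = (⊤ : IntermediateField F L) := by
        apply lift_injective L
        rw [lift_top, lift_adjoin_simple]
        exact hLq
      refine ⟨⟨?_, ?_⟩, ?_⟩
      · have h4 : IsIntegral (𝓞 F) (⟨y, hEL y hy⟩ : L) := by
          refine ⟨hp n (mk n q) q.2.1, hp_monic (by omega) _ _, ?_⟩
          have h1 : aeval (⟨y, hEL y hy⟩ : L) ((hp n (mk n q) q.2.1).map (algebraMap (𝓞 F) F)) = 0 := by
            rw [map_hp (by omega), ← hxmin]
            exact minpoly.aeval F _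
          rwa [aeval_map_algebraMap] at h1
        have hsc : IsScalarTower ℤ (𝓞 F) L :=
          IsScalarTower.of_algebraMap_eq' (Subsingleton.elim _ _)
        exact isIntegral_trans _ h4
      · rw [trace_nextCoeff hn L hfin hfull hxtop, hxmin, P_nextCoeff _ (by omega), neg_zero]
      · rw [house_le (by positivity)]
        intro φ
        have h4 := (root_hp_le (by omega : 1 ≤ n) (mk n q) q.2.1 hH0 hokq.size
          (fun σ => by rw [mk_zero]; exact hokq.lead σ) hokq.shift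
          (φ.comp (algebraMap F L)) (hrootC q _ hxmin φ)).2
        exact h4.trans (mul_le_mul_of_nonneg_right (le_max_right _ _) hH0.le)
    have h3 : (E.card : ℝ) ≤ ({x : L | x ∈ W F L ∧ house x ≤ C₃ * H}.ncard : ℝ) := by
      exact_mod_cast h2
    calc (E.card : ℝ) * Real.sqrt ((|discr L| : ℤ) : ℝ)
        ≤ ({x : L | x ∈ W F L ∧ house x ≤ C₃ * H}.ncard : ℝ) * Real.sqrt ((|discr L| : ℤ) : ℝ) :=
          mul_le_mul_of_nonneg_right h3 (Real.sqrt_nonneg _)
      _ ≤ C₂ * (C₃ * H) ^ (d * (n - 1)) := h1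
      _ = C₂ * C₃ ^ (d * (n - 1)) * H ^ (d * (n - 1)) := by rw [mul_pow]; ring
      _ ≤ _ := mul_le_mul_of_nonneg_right (le_max_right _ _) (by positivity)

end

end Pool.Agent.H26.Mass
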