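import Pool.Agent.H26.Mass.Summ
import Pool.Graph.R_pool_sql_team_seeded_620a6dc7.Helper313LB.Box

/-!
# Many square-free integers in a residue class with all conjugates of the same size
-/

set_option autoImplicit false

open Module NumberField

namespace Pool.Agent.H26.Mass

open Pool.Agent.Helper313LB

section

variable {F : Type*} [Field F] [NumberField F]

theorem absNorm_span_le {w : 𝓞 F} {B : ℝ} (hB : ∀ σ : F →+* ℂ, ‖σ (w : F)‖ ≤ B) :
    (Ideal.absNorm (Ideal.span {w}) : ℝ) ≤ B ^ finrank ℚ F := by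
  have h1 : (Ideal.absNorm (Ideal.span {w}) : ℝ) = ‖∏ φ : F →ₐ[ℚ] ℂ, φ (w : F)‖ := by
    rw [← Algebra.norm_eq_prod_embeddings ℚ ℂ (w : F), Ideal.absNorm_span_singleton,
      ← Algebra.coe_norm_int w]
    rw [Nat.cast_natAbs]
    simp
  rw [h1, norm_prod]
  calc ∏ φ : F →ₐ[ℚ] ℂ, ‖φ (w : F)‖ ≤ ∏ _φ : F →ₐ[ℚ] ℂ, B :=
        Finset.prod_le_prod (fun φ _ => norm_nonneg _) fun φ _ => hB (φ : F →+* ℂ)
    _ = B ^ finrank ℚ F := by rw [Finset.prod_const, Finset.card_univ, AlgHom.card]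

/-- a nonzero element of an ideal has a large conjugate -/
theorem exists_large_conj {w : 𝓞 F} (hw : w ≠ 0) {I : Ideal (𝓞 F)} (hI : w ∈ I) {ρ : ℝ}
    (hρ : 0 ≤ ρ) (hN : ρ ^ finrank ℚ F ≤ (Ideal.absNorm I : ℝ)) :
    ρ ≤ ‖canonicalEmbedding F (w : F)‖ := by
  by_contra hcon
  push Not at hcon
  have hd : finrank ℚ F ≠ 0 := (finrank_pos (R := ℚ) (M := F)).ne'
  have h1 : ∀ σ : F →+* ℂ, ‖σ (w : F)‖ ≤ ‖canonicalEmbedding F (w : F)‖ := fun σ =>
    norm_le_pi_norm (canonicalEmbedding F (w : F)) σ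
  have h2 := absNorm_span_le h1
  have h3 : Ideal.absNorm I ∣ Ideal.absNorm (Ideal.span {w}) :=
    map_dvd Ideal.absNorm (Ideal.dvd_span_singleton.2 hI)
  have h4 : Ideal.absNorm (Ideal.span {w}) ≠ 0 := by
    intro h
    exact hw (Ideal.span_singleton_eq_bot.1 (Ideal.absNorm_eq_zero_iff.1 h))
  have h5 : (Ideal.absNorm I : ℝ) ≤ (Ideal.absNorm (Ideal.span {w}) : ℝ) := by
    exact_mod_cast Nat.le_of_dvd (Nat.pos_of_ne_zero h4) h3
  have h6 : ‖canonicalEmbedding F (w : F)‖ ^ finrank ℚ F < ρ ^ finrank ℚ F :=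
    pow_lt_pow_left₀ hcon (norm_nonneg _) hd
  linarith

/-- the number of points in a box which are congruent modulo an ideal -/
theorem card_congr_le {I : Ideal (𝓞 F)} {R ρ : ℝ} (hR : 0 ≤ R) (hρ : 0 < ρ)
    (hN : ρ ^ finrank ℚ F ≤ (Ideal.absNorm I : ℝ)) (Z : Finset (𝓞 F))
    (hZ : ∀ v ∈ Z, v ∈ Box F R) (hcong : ∀ v ∈ Z, ∀ v' ∈ Z, v - v' ∈ I) :
    (Z.card : ℝ) ≤ (1 + 2 * R / ρ) ^ finrank ℚ F := by
  classical
  let f : F →ₗ[ℚ] ((F →+* ℂ) → ℂ) := (canonicalEmbedding F).toRatAlgHom.toLinearMap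
  obtain ⟨hfd, hle⟩ := finrank_span_le f (⊤ : Submodule ℚ F)
  set V := Submodule.span ℝ (f '' ((⊤ : Submodule ℚ F) : Set F)) with hV
  rw [finrank_top] at hle
  have hinj : Function.Injective (fun a : 𝓞 F => canonicalEmbedding F (a : F)) :=
    (canonicalEmbedding_injective F).comp RingOfIntegers.coe_injective
  have h := card_pack' V (Z.image fun a : 𝓞 F => canonicalEmbedding F (a : F)) (R := R) (ρ := ρ)
    ?_ hρ hR ?_ ?_
  · rw [Finset.card_image_of_injective _ hinj] at h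
    refine h.trans (pow_le_pow_right₀ ?_ hle)
    have : 0 ≤ 2 * R / ρ := by positivity
    linarith
  · intro c hc
    obtain ⟨a, -, rfl⟩ := Finset.mem_image.1 hc
    exact Submodule.subset_span ⟨(a : F), trivial, rfl⟩
  · intro c hc
    obtain ⟨a, ha, rfl⟩ := Finset.mem_image.1 hc
    exact (pi_norm_le_iff_of_nonneg hR).2 (hZ a ha)
  · intro c hc d hd hcd
    obtain ⟨a, ha, rfl⟩ := Finset.mem_image.1 hc
    obtain ⟨a', ha', rfl⟩ := Finset.mem_image.1 hd
    have hne : a - a' ≠ 0 := fun h => hcd (by rw [sub_eq_zero.1 h])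
    have h1 := exists_large_conj hne (hcong a ha a' ha') hρ.le hN
    have h2 : canonicalEmbedding F ((a - a' : 𝓞 F) : F) =
        canonicalEmbedding F (a : F) - canonicalEmbedding F (a' : F) := by
      rw [← map_sub]
      congr 1
    rw [h2] at h1
    exact h1

/-- the numbers in the residue class of one -/
def aff (M m : ℕ) (v : 𝓞 F) : 𝓞 F := 1 + M * (m + v)

theorem card_bad_le (M m : ℕ) {t : Ideal (𝓞 F)} (ht : t ≠ 0) {R : ℝ} (hR : 0 ≤ R) (Z : Finset (𝓞 F))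
    (hZ : ∀ v ∈ Z, v ∈ Box F R) (hsq : ∀ v ∈ Z, t * t ∣ Ideal.span {aff M m v}) :
    (Z.card : ℝ) ≤ 2 ^ finrank ℚ F + (4 * R) ^ finrank ℚ F * (Ideal.absNorm t : ℝ) ^ (-(3 / 2) : ℝ) := by
  have hd0 : 0 < finrank ℚ F := finrank_pos
  have hd : (0 : ℝ) < finrank ℚ F := by exact_mod_cast hd0
  have hN0 : Ideal.absNorm t ≠ 0 := fun h => ht (Ideal.absNorm_eq_zero_iff.1 h)
  have hN1 : (1 : ℝ) ≤ Ideal.absNorm t := by exact_mod_cast Nat.one_le_iff_ne_zero.2 hN0
  have hNpos : (0 : ℝ) < Ideal.absNorm t := by linarith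
  set ρ : ℝ := (Ideal.absNorm t : ℝ) ^ (2 / (finrank ℚ F : ℝ)) with hρ
  have hρ0 : 0 < ρ := by positivity
  have hρd : ρ ^ finrank ℚ F = (Ideal.absNorm t : ℝ) ^ (2 : ℝ) := by
    rw [hρ, ← Real.rpow_natCast, ← Real.rpow_mul hNpos.le, div_mul_cancel₀ _ hd.ne']
  have hN : ρ ^ finrank ℚ F ≤ (Ideal.absNorm (t * t) : ℝ) := by
    rw [hρd, map_mul, Nat.cast_mul]
    norm_num
    rw [sq]
  have hcong : ∀ v ∈ Z, ∀ v' ∈ Z, v - v' ∈ t * t := by
    intro v hv v' hv'
    have h1 : aff M m v ∈ t * t := Ideal.dvd_span_singleton.1 (hsq v hv)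
    have h2 : aff M m v' ∈ t * t := Ideal.dvd_span_singleton.1 (hsq v' hv')
    have h3 : (M : 𝓞 F) * (v - v') ∈ t * t := by
      have h4 := (t * t).sub_mem h1 h2
      have h5 : aff M m v - aff M m v' = (M : 𝓞 F) * (v - v') := by
        simp only [aff]
        ring
      rwa [h5] at h4
    have h6 : v - v' = (v - v') * aff M m v - (m + v) * ((M : 𝓞 F) * (v - v')) := by
      simp only [aff]
      ring
    rw [h6]
    exact (t * t).sub_mem ((t * t).mul_mem_left _ h1) ((t * t).mul_mem_left _ h3)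
  have h1 := card_congr_le hR hρ0 hN Z hZ hcong
  refine h1.trans ?_
  have h2 : (1 + 2 * R / ρ) ^ finrank ℚ F ≤ 2 ^ finrank ℚ F + (2 * (2 * R / ρ)) ^ finrank ℚ F := by
    have hx : 0 ≤ 2 * R / ρ := by positivity
    rcases le_total (2 * R / ρ) 1 with h | h
    · have : (1 + 2 * R / ρ) ^ finrank ℚ F ≤ 2 ^ finrank ℚ F :=
        pow_le_pow_left₀ (by linarith) (by linarith) _
      have : 0 ≤ (2 * (2 * R / ρ)) ^ finrank ℚ F := by positivity
      linarith
    · have : (1 + 2 * R / ρ) ^ finrank ℚ F ≤ (2 * (2 * R / ρ)) ^ finrank ℚ F :=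
        pow_le_pow_left₀ (by linarith) (by linarith) _
      have : (0 : ℝ) ≤ 2 ^ finrank ℚ F := by positivity
      linarith
  refine h2.trans ?_
  have h3 : (2 * (2 * R / ρ)) ^ finrank ℚ F = (4 * R) ^ finrank ℚ F * (Ideal.absNorm t : ℝ) ^ (-2 : ℝ) := by
    have : 2 * (2 * R / ρ) = 4 * R / ρ := by ring
    rw [this, div_pow, hρd, Real.rpow_neg hNpos.le]
    rfl
  rw [h3]
  have h4 : (Ideal.absNorm t : ℝ) ^ (-2 : ℝ) ≤ (Ideal.absNorm t : ℝ) ^ (-(3 / 2) : ℝ) :=
    Real.rpow_le_rpow_of_exponent_le hN1 (by norm_num)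
  have h5 : 0 ≤ (4 * R) ^ finrank ℚ F := by positivity
  nlinarith [mul_le_mul_of_nonneg_left h4 h5]

end

/-- The family of the leading coefficients. -/
theorem exists_family (F : Type*) [Field F] [NumberField F] (M₀ : ℕ) (hM₀ : 1 ≤ M₀) :
    ∃ M : ℕ, M₀ ∣ M ∧ 1 ≤ M ∧ ∃ c H₀ : ℝ, 0 < c ∧ 1 ≤ H₀ ∧ ∀ H : ℝ, H₀ ≤ H →
      ∃ A : Finset (𝓞 F), c * H ^ finrank ℚ F ≤ (A.card : ℝ) ∧
        ∀ a ∈ A, (∃ u : 𝓞 F, a = 1 + M * u) ∧ Squarefree (Ideal.span {a}) ∧
          ∀ σ : F →+* ℂ, H / 2 ≤ ‖σ (a : F)‖ ∧ ‖σ (a : F)‖ ≤ H := by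
  classical
  obtain ⟨cB, hcB, hBox⟩ := exists_le_ncard_Box F
  set d := finrank ℚ F with hd
  have hd0 : 0 < d := finrank_pos
  have hdR : (0 : ℝ) < d := by exact_mod_cast hd0
  have hsum := summable_norm F
  set ε₀ : ℝ := cB / (4 * 4 ^ d) with hε₀
  have hε₀pos : 0 < ε₀ := by positivity
  obtain ⟨s₀, hs₀⟩ := summable_iff_vanishing_norm.1 hsum ε₀ hε₀pos
  -- the bound for the norms of the members of `s₀`
  obtain ⟨Q, hQ⟩ : ∃ Q : ℕ, ∀ J ∈ s₀, Ideal.absNorm J ≤ Q :=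
    ⟨s₀.sup Ideal.absNorm, fun J hJ => Finset.le_sup (f := Ideal.absNorm) hJ⟩
  set M : ℕ := M₀ * Q.factorial with hM
  have hM1 : 1 ≤ M := Nat.mul_pos hM₀ (Nat.factorial_pos Q)
  have hMR : (1 : ℝ) ≤ M := by exact_mod_cast hM1
  set Sg : ℝ := ∑' J : Ideal (𝓞 F), (Ideal.absNorm J : ℝ) ^ (-(3 / 2) : ℝ) with hSg
  have hSg0 : 0 ≤ Sg := tsum_nonneg fun J => by positivity
  set K₁ : ℝ := 2 ^ d * Sg * (4 * (8 * M) ^ d / cB) with hK₁
  refine ⟨M, dvd_mul_right _ _, hM1, cB / (2 * (8 * M) ^ d), max (8 * M) ((max 1 K₁) ^ (4 : ℝ)), by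
    positivity, ?_, ?_⟩
  · refine le_max_of_le_left ?_
    linarith
  intro H hH
  have hH8 : 8 * (M : ℝ) ≤ H := (le_max_left _ _).trans hH
  have hHK : (max 1 K₁) ^ (4 : ℝ) ≤ H := (le_max_right _ _).trans hH
  have hH1 : 1 ≤ H := by linarith
  have hH0 : 0 < H := by linarith
  set R : ℝ := H / (8 * M) with hR
  have hR0 : 0 ≤ R := by positivity
  set m : ℕ := ⌊3 * H / (4 * M)⌋₊ with hm
  have hm1 : (M : ℝ) * m ≤ 3 * H / 4 := by
    have h1 : (m : ℝ) ≤ 3 * H / (4 * M) := Nat.floor_le (by positivity)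
    calc (M : ℝ) * m ≤ M * (3 * H / (4 * M)) := mul_le_mul_of_nonneg_left h1 (by positivity)
      _ = 3 * H / 4 := by field_simp
  have hm2 : 3 * H / 4 - M ≤ (M : ℝ) * m := by
    have h1 : 3 * H / (4 * M) < m + 1 := Nat.lt_floor_add_one _
    have h2 : (M : ℝ) * (3 * H / (4 * M)) ≤ M * (m + 1) :=
      mul_le_mul_of_nonneg_left h1.le (by positivity)
    have h3 : (M : ℝ) * (3 * H / (4 * M)) = 3 * H / 4 := by field_simp
    rw [h3] at h2
    linarith
  have hMR' : (M : ℝ) * R = H / 8 := by rw [hR]; field_simp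
  -- the size of the conjugates
  have hsize : ∀ v ∈ Box F R, ∀ σ : F →+* ℂ, H / 2 ≤ ‖σ (aff M m v : F)‖ ∧
      ‖σ (aff M m v : F)‖ ≤ H := by
    intro v hv σ
    have h1 : σ (aff M m v : F) = ((1 + (M : ℝ) * m : ℝ) : ℂ) + (M : ℂ) * σ (v : F) := by
      simp only [aff]
      push_cast
      simp
      ring
    have h2 : ‖(M : ℂ) * σ (v : F)‖ ≤ H / 8 := by
      rw [norm_mul, Complex.norm_natCast, ← hMR']
      exact mul_le_mul_of_nonneg_left (hv σ) (by positivity)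
    have h3 : ‖((1 + (M : ℝ) * m : ℝ) : ℂ)‖ = 1 + (M : ℝ) * m := by
      rw [Complex.norm_real, Real.norm_of_nonneg (by positivity)]
    rw [h1]
    constructor
    · have h4 := norm_sub_norm_le (((1 + (M : ℝ) * m : ℝ) : ℂ)) (-((M : ℂ) * σ (v : F)))
      rw [norm_neg, sub_neg_eq_add, h3] at h4
      linarith
    · refine (norm_add_le _ _).trans ?_
      rw [h3]
      linarith
  let B : Finset (𝓞 F) := (finite_Box F R).toFinset
  have hBmem : ∀ v, v ∈ B ↔ v ∈ Box F R := fun v => Set.Finite.mem_toFinset _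
  have hBcard : cB * R ^ d ≤ (B.card : ℝ) := by
    have := hBox R hR0
    rwa [Set.ncard_eq_toFinset_card _ (finite_Box F R)] at this
  let G : Finset (𝓞 F) := B.filter fun v => Squarefree (Ideal.span {aff M m v})
  let Bad : Finset (𝓞 F) := B.filter fun v => ¬ Squarefree (Ideal.span {aff M m v})
  have hsplit : G.card + Bad.card = B.card := Finset.card_filter_add_card_filter_not _
  -- the ideals whose square can divide
  have hne0 : ∀ v ∈ Box F R, aff M m v ≠ 0 := by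
    intro v hv h0
    obtain ⟨σ⟩ : Nonempty (F →+* ℂ) := inferInstance
    have := (hsize v hv σ).1
    rw [h0] at this
    simp at this
    linarith
  set Y : ℝ := H ^ ((d : ℝ) / 2) with hY
  have hYpos : 0 < Y := by positivity
  let T : Finset (Ideal (𝓞 F)) := ((Ideal.finite_setOfPred_absNorm_le (S := 𝓞 F) ⌊Y⌋₊).toFinset).filter
    fun t => t ≠ 0 ∧ Q < Ideal.absNorm t
  have hbad : ∀ v ∈ Bad, ∃ t ∈ T, t * t ∣ Ideal.span {aff M m v} := by
    intro v hv
    rw [Finset.mem_filter] at hv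
    have hvB := (hBmem v).1 hv.1
    have h1 := hv.2
    unfold Squarefree at h1
    push Not at h1
    obtain ⟨t, ht, htu⟩ := h1
    have hspan0 : Ideal.span {aff M m v} ≠ 0 := fun h =>
      hne0 v hvB (Ideal.span_singleton_eq_bot.1 h)
    have ht0 : t ≠ 0 := by
      rintro rfl
      rw [zero_mul, zero_dvd_iff] at ht
      exact hspan0 ht
    refine ⟨t, ?_, ht⟩
    rw [Finset.mem_filter, Set.Finite.mem_toFinset, Set.mem_ofPred_eq]
    refine ⟨?_, ht0, ?_⟩
    · apply Nat.le_floor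
      have h2 : Ideal.absNorm (t * t) ∣ Ideal.absNorm (Ideal.span {aff M m v}) :=
        map_dvd Ideal.absNorm ht
      have h3 : Ideal.absNorm (Ideal.span {aff M m v}) ≠ 0 := fun h =>
        hspan0 (Ideal.absNorm_eq_zero_iff.1 h)
      have h4 : (Ideal.absNorm (t * t) : ℝ) ≤ (Ideal.absNorm (Ideal.span {aff M m v}) : ℝ) := by
        exact_mod_cast Nat.le_of_dvd (Nat.pos_of_ne_zero h3) h2
      have h5 := absNorm_span_le (fun σ => (hsize v hvB σ).2)
      rw [map_mul, Nat.cast_mul, ← sq] at h4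
      have h6 : (Ideal.absNorm t : ℝ) ^ 2 ≤ Y ^ 2 := by
        refine h4.trans (h5.trans (le_of_eq ?_))
        rw [hY, ← Real.rpow_natCast (H ^ ((d : ℝ) / 2)) 2, ← Real.rpow_mul hH0.le]
        rw [← Real.rpow_natCast]
        congr 1
        push_cast
        ring
      exact (pow_le_pow_iff_left₀ (by positivity) hYpos.le two_ne_zero).1 h6
    · by_contra hcon
      push Not at hcon
      apply htu
      rw [Ideal.isUnit_iff, Ideal.eq_top_iff_one]
      have hN0 : 0 < Ideal.absNorm t := Nat.pos_of_ne_zero fun h =>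
        ht0 (Ideal.absNorm_eq_zero_iff.1 h)
      have h2 : Ideal.absNorm t ∣ M := (Nat.dvd_factorial hN0 hcon).trans (dvd_mul_left _ _)
      have h3 : (M : 𝓞 F) ∈ t := by
        obtain ⟨k, hk⟩ := h2
        rw [hk]
        push_cast
        exact t.mul_mem_right _ (Ideal.absNorm_mem t)
      have h4 : aff M m v ∈ t :=
        Ideal.dvd_span_singleton.1 ((dvd_mul_right t t).trans ht)
      have h5 : (1 : 𝓞 F) = aff M m v - (m + v) * M := by
        simp only [aff]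
        ring
      rw [h5]
      exact t.sub_mem h4 (t.mul_mem_left _ h3)
  have hBadle : (Bad.card : ℝ) ≤ ∑ t ∈ T, (2 ^ d + (4 * R) ^ d * (Ideal.absNorm t : ℝ) ^ (-(3 / 2) : ℝ)) := by
    have h1 : Bad ⊆ T.biUnion fun t => Bad.filter fun v => t * t ∣ Ideal.span {aff M m v} := by
      intro v hv
      obtain ⟨t, ht, htd⟩ := hbad v hv
      rw [Finset.mem_biUnion]
      exact ⟨t, ht, Finset.mem_filter.2 ⟨hv, htd⟩⟩
    have h2 : Bad.card ≤ ∑ t ∈ T, (Bad.filter fun v => t * t ∣ Ideal.span {aff M m v}).card :=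
      (Finset.card_le_card h1).trans Finset.card_biUnion_le
    have h3 : (Bad.card : ℝ) ≤ ∑ t ∈ T, ((Bad.filter fun v => t * t ∣ Ideal.span {aff M m v}).card : ℝ) := by
      exact_mod_cast h2
    refine h3.trans (Finset.sum_le_sum fun t ht => ?_)
    rw [Finset.mem_filter] at ht
    refine card_bad_le M m ht.2.1 hR0 _ ?_ ?_
    · intro v hv
      rw [Finset.mem_filter, Finset.mem_filter] at hv
      exact (hBmem v).1 hv.1.1
    · intro v hv
      exact (Finset.mem_filter.1 hv).2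
  have hTsum : ∑ t ∈ T, (Ideal.absNorm t : ℝ) ^ (-(3 / 2) : ℝ) ≤ ε₀ := by
    have hdis : Disjoint T s₀ := by
      rw [Finset.disjoint_left]
      intro t ht ht'
      rw [Finset.mem_filter] at ht
      have := hQ t ht'
      omega
    have := hs₀ T hdis
    rw [Real.norm_of_nonneg (Finset.sum_nonneg fun t _ => by positivity)] at this
    exact this.le
  have hTcard : (T.card : ℝ) ≤ Y ^ (3 / 2 : ℝ) * Sg := by
    have h1 : ∀ t ∈ T, (1 : ℝ) ≤ Y ^ (3 / 2 : ℝ) * (Ideal.absNorm t : ℝ) ^ (-(3 / 2) : ℝ) := by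
      intro t ht
      rw [Finset.mem_filter, Set.Finite.mem_toFinset, Set.mem_ofPred_eq] at ht
      have hN0 : (0 : ℝ) < Ideal.absNorm t := by
        have : 0 < Ideal.absNorm t := by omega
        exact_mod_cast this
      have h2 : (Ideal.absNorm t : ℝ) ≤ Y :=
        le_trans (by exact_mod_cast ht.1) (Nat.floor_le hYpos.le)
      rw [Real.rpow_neg hN0.le, ← div_eq_mul_inv, le_div_iff₀ (by positivity), one_mul]
      exact Real.rpow_le_rpow hN0.le h2 (by norm_num)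
    calc (T.card : ℝ) = ∑ _t ∈ T, (1 : ℝ) := by rw [Finset.sum_const, nsmul_eq_mul, mul_one]
      _ ≤ ∑ t ∈ T, Y ^ (3 / 2 : ℝ) * (Ideal.absNorm t : ℝ) ^ (-(3 / 2) : ℝ) := Finset.sum_le_sum h1
      _ = Y ^ (3 / 2 : ℝ) * ∑ t ∈ T, (Ideal.absNorm t : ℝ) ^ (-(3 / 2) : ℝ) := by
          rw [Finset.mul_sum]
      _ ≤ _ := mul_le_mul_of_nonneg_left (hsum.sum_le_tsum _ fun t _ => by positivity)
          (by positivity)
  have hbad2 : (Bad.card : ℝ) ≤ cB / 2 * R ^ d := by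
    have h1 : (Bad.card : ℝ) ≤ 2 ^ d * (T.card : ℝ) + (4 * R) ^ d * ε₀ := by
      refine hBadle.trans ?_
      rw [Finset.sum_add_distrib, Finset.sum_const, nsmul_eq_mul, ← Finset.mul_sum, mul_comm]
      exact add_le_add le_rfl (mul_le_mul_of_nonneg_left hTsum (by positivity))
    have h2 : (4 * R) ^ d * ε₀ = cB / 4 * R ^ d := by
      rw [hε₀, mul_pow]
      field_simp
    have h3 : 2 ^ d * (T.card : ℝ) ≤ cB / 4 * R ^ d := by
      have hRd : R ^ d = H ^ d / (8 * M) ^ d := by rw [hR, div_pow]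
      have hYH : Y ^ (3 / 2 : ℝ) = H ^ d * H ^ (-((d : ℝ) / 4)) := by
        rw [hY, ← Real.rpow_mul hH0.le, ← Real.rpow_natCast, ← Real.rpow_add hH0]
        congr 1
        ring
      have hK : K₁ ≤ H ^ ((d : ℝ) / 4) := by
        have h4 : (max 1 K₁) ≤ H ^ (1 / 4 : ℝ) := by
          have h5 : ((max 1 K₁) ^ (4 : ℝ)) ^ (1 / 4 : ℝ) ≤ H ^ (1 / 4 : ℝ) :=
            Real.rpow_le_rpow (by positivity) hHK (by norm_num)
          rw [← Real.rpow_mul (by positivity)] at h5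
          norm_num at h5
          norm_num
          exact h5
        have h6 : H ^ (1 / 4 : ℝ) ≤ H ^ ((d : ℝ) / 4) := by
          refine Real.rpow_le_rpow_of_exponent_le hH1 ?_
          have : (1 : ℝ) ≤ d := by exact_mod_cast hd0
          linarith
        exact (le_max_right _ _).trans (h4.trans h6)
      have hK' : K₁ * H ^ (-((d : ℝ) / 4)) ≤ 1 := by
        rw [Real.rpow_neg hH0.le, ← div_eq_mul_inv, div_le_one (by positivity)]
        exact hK
      calc 2 ^ d * (T.card : ℝ) ≤ 2 ^ d * (Y ^ (3 / 2 : ℝ) * Sg) :=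
            mul_le_mul_of_nonneg_left hTcard (by positivity)
        _ = (K₁ * H ^ (-((d : ℝ) / 4))) * (cB / 4 * R ^ d) := by
            rw [hYH, hRd, hK₁]
            field_simp
        _ ≤ 1 * (cB / 4 * R ^ d) := mul_le_mul_of_nonneg_right hK' (by positivity)
        _ = _ := one_mul _
    rw [h2] at h1
    linarith
  have hG : cB / 2 * R ^ d ≤ (G.card : ℝ) := by
    have h1 : (G.card : ℝ) + Bad.card = B.card := by exact_mod_cast hsplit
    linarith
  refine ⟨G.image (aff M m), ?_, ?_⟩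
  · have hinj : Function.Injective (aff (F := F) M m) := by
      intro v v' h
      simp only [aff] at h
      have hM0 : (M : 𝓞 F) ≠ 0 := by exact_mod_cast (by omega : M ≠ 0)
      exact add_left_cancel (mul_left_cancel₀ hM0 (add_left_cancel h))
    rw [Finset.card_image_of_injective _ hinj]
    refine le_trans (le_of_eq ?_) hG
    rw [hR, div_pow]
    field_simp
  · intro a ha
    obtain ⟨v, hv, rfl⟩ := Finset.mem_image.1 ha
    rw [Finset.mem_filter] at hv
    exact ⟨⟨m + v, rfl⟩, hv.2, hsize v ((hBmem v).1 hv.1)⟩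

end Pool.Agent.H26.Mass
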