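import Pool.Graph.R_pool_sql_team_seeded_620a6dc7.Helper313SN.Lower

/-!
# The number of the integers of a number field with bounded conjugates, when there is a small basis

If `L` has degree `N` and a `ℚ`-basis of integers all of whose conjugates are at most `R` in absolute
value, then the number of the integers of `L` all of whose conjugates are at most `R` in absolute
value is at most `5 ^ N * N! * R ^ N / √|d_L|`.
-/

set_option autoImplicit false

open Module NumberField
open scoped Matrix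

namespace Pool.Agent.H26.Mass

/-- the integers of `L` with all conjugates at most `R` in absolute value -/
def Sm (L : Type*) [Field L] [NumberField L] (R : ℝ) : Set L := {x | IsIntegral ℤ x ∧ house x ≤ R}

section

variable {L : Type*} [Field L] [NumberField L]

theorem house_le {x : L} {R : ℝ} (hR : 0 ≤ R) : house x ≤ R ↔ ∀ φ : L →+* ℂ, ‖φ x‖ ≤ R := by
  rw [house, pi_norm_le_iff_of_nonneg hR]
  rfl

theorem norm_le_house (x : L) (φ : L →+* ℂ) : ‖φ x‖ ≤ house x := by
  rw [house]
  exact norm_le_pi_norm (canonicalEmbedding L x) φ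

theorem finite_Sm (R : ℝ) : (Sm L R).Finite := by
  refine (Embeddings.finite_of_norm_le L ℂ R).subset ?_
  rintro x ⟨h1, h2⟩
  exact ⟨h1, fun φ => (norm_le_house x φ).trans h2⟩

theorem discr_update {κ : Type*} [Fintype κ] [DecidableEq κ] (b : Basis κ ℚ L) (i : κ) (x : L) :
    Algebra.discr ℚ (Function.update b i x) = (b.repr x i) ^ 2 * Algebra.discr ℚ b := by
  have h := Algebra.discr_of_matrix_vecMul (A := ℚ) (B := L) b
    ((1 : Matrix κ κ ℚ).updateCol i (b.repr x))
  have h2 : ((1 : Matrix κ κ ℚ).updateCol i (b.repr x)).det = b.repr x i := by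
    rw [← Matrix.cramer_apply, Matrix.cramer_one]
    rfl
  rw [h2] at h
  rw [← h]
  congr 1
  funext j
  rw [Matrix.vecMul, dotProduct]
  by_cases hj : j = i
  · subst hj
    rw [Function.update_self]
    conv_lhs => rw [← b.sum_repr x]
    refine Finset.sum_congr rfl fun k _ => ?_
    rw [Matrix.map_apply, Matrix.updateCol_self, Algebra.smul_def, mul_comm]
  · rw [Function.update_of_ne hj]
    rw [Finset.sum_eq_single j]
    · rw [Matrix.map_apply, Matrix.updateCol_ne hj, Matrix.one_apply_eq, map_one, mul_one]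
    · intro k _ hk
      rw [Matrix.map_apply, Matrix.updateCol_ne hj, Matrix.one_apply_ne hk, map_zero, mul_zero]
    · intro h
      exact absurd (Finset.mem_univ _) h

theorem int_coord {κ : Type*} [Fintype κ] [DecidableEq κ] (b : Basis κ ℚ L) {z : L}
    (hz : z ∈ AddSubgroup.closure (Set.range b)) (i : κ) : ∃ k : ℤ, b.repr z i = k := by
  induction hz using AddSubgroup.closure_induction with
  | mem x hx =>
    obtain ⟨j, rfl⟩ := hx
    rw [b.repr_self, Finsupp.single_apply]
    split_ifs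
    · exact ⟨1, by simp⟩
    · exact ⟨0, by simp⟩
  | zero => exact ⟨0, by simp⟩
  | add x y _ _ hx hy =>
    obtain ⟨k, hk⟩ := hx
    obtain ⟨l, hl⟩ := hy
    exact ⟨k + l, by rw [map_add, Finsupp.add_apply, hk, hl]; push_cast; rfl⟩
  | neg x _ hx =>
    obtain ⟨k, hk⟩ := hx
    exact ⟨-k, by rw [map_neg, Finsupp.neg_apply, hk]; push_cast; rfl⟩

/-- a basis with all coordinates of the small integers at most one -/
theorem exists_good_basis {κ : Type*} [Fintype κ] [DecidableEq κ] (b : Basis κ ℚ L)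
    {R : ℝ} (hb : ∀ i, b i ∈ Sm L R) :
    ∃ b' : Basis κ ℚ L, (∀ i, b' i ∈ Sm L R) ∧ ∀ x ∈ Sm L R, ∀ i, |b'.repr x i| ≤ 1 := by
  classical
  haveI : Finite (Sm L R) := finite_Sm R
  haveI : Nonempty (κ → Sm L R) := ⟨fun i => ⟨b i, hb i⟩⟩
  obtain ⟨v, hv⟩ := Finite.exists_max (fun v : κ → Sm L R =>
    |Algebra.discr ℚ (fun i => ((v i : L)))|)
  have h0 : Algebra.discr ℚ (fun i => ((v i : L))) ≠ 0 := by
    intro h
    have h1 := hv fun i => ⟨b i, hb i⟩
    rw [h, abs_zero] at h1
    have h2 : Algebra.discr ℚ b ≠ 0 := Algebra.discr_not_zero_of_basis ℚ b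
    exact h2 (abs_eq_zero.1 (le_antisymm h1 (abs_nonneg _)))
  have hli : LinearIndependent ℚ (fun i => ((v i : L))) := by
    by_contra hcon
    exact h0 (Algebra.discr_zero_of_not_linearIndependent ℚ hcon)
  have hcard : Fintype.card κ = finrank ℚ L := (finrank_eq_card_basis b).symm
  rcases isEmpty_or_nonempty κ with hκ | hκ
  · exact ⟨b, hb, fun x _ i => (IsEmpty.false i).elim⟩
  let b' : Basis κ ℚ L := basisOfLinearIndependentOfCardEqFinrank hli hcard
  have hb' : ⇑b' = fun i => ((v i : L)) := coe_basisOfLinearIndependentOfCardEqFinrank hli hcard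
  refine ⟨b', fun i => by rw [hb']; exact (v i).2, fun x hx i => ?_⟩
  have h1 := hv (Function.update v i ⟨x, hx⟩)
  have h2 : (fun j => ((Function.update v i ⟨x, hx⟩ j : Sm L R) : L)) =
      Function.update b' i x := by
    rw [hb']
    funext j
    by_cases hj : j = i
    · subst hj
      simp
    · simp [Function.update_of_ne hj]
  simp only [h2] at h1
  rw [discr_update, abs_mul, hb', abs_pow] at h1
  have h3 : 0 < |Algebra.discr ℚ (fun i => ((v i : L)))| := abs_pos.2 h0
  have h4 : |b'.repr x i| ^ 2 ≤ 1 := by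
    by_contra hcon
    push Not at hcon
    have : 1 * |Algebra.discr ℚ (fun i => ((v i : L)))| <
        |b'.repr x i| ^ 2 * |Algebra.discr ℚ (fun i => ((v i : L)))| :=
      mul_lt_mul_of_pos_right hcon h3
    linarith
  exact (sq_le_one_iff₀ (abs_nonneg _)).1 h4

theorem card_le_index {κ : Type*} [Fintype κ] [DecidableEq κ] (b : Basis κ ℚ L) {R : ℝ}
    (h1 : ∀ x ∈ Sm L R, ∀ i, |b.repr x i| ≤ 1)
    (hle : AddSubgroup.closure (Set.range b) ≤ Pool.Agent.TH263.DQ.IG L)
    (hne : (AddSubgroup.closure (Set.range b)).relIndex (Pool.Agent.TH263.DQ.IG L) ≠ 0) :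
    (Sm L R).ncard ≤ 5 ^ Fintype.card κ *
      (AddSubgroup.closure (Set.range b)).relIndex (Pool.Agent.TH263.DQ.IG L) := by
  classical
  set Λ := AddSubgroup.closure (Set.range b) with hΛ
  set G := Pool.Agent.TH263.DQ.IG L with hG
  let Q := G ⧸ (Λ.addSubgroupOf G)
  have hQ : Nat.card Q = Λ.relIndex G := rfl
  haveI : Finite Q := Nat.finite_of_card_ne_zero (by rw [hQ]; exact hne)
  haveI : Fintype Q := Fintype.ofFinite Q
  let T : Finset L := (finite_Sm (L := L) R).toFinset
  have hT : ∀ x, x ∈ T ↔ x ∈ Sm L R := fun x => Set.Finite.mem_toFinset _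
  let T' : Finset G := T.attach.image fun x => ⟨x.1, ((hT x.1).1 x.2).1⟩
  have hT'card : T'.card = T.card := by
    rw [Finset.card_image_of_injective _ ?_, Finset.card_attach]
    intro x y h
    exact Subtype.ext (congrArg (fun z : G => (z : L)) h)
  have hT' : ∀ y ∈ T', (y : L) ∈ Sm L R := by
    intro y hy
    obtain ⟨x, -, rfl⟩ := Finset.mem_image.1 hy
    exact (hT x.1).1 x.2
  rw [Set.ncard_eq_toFinset_card _ (finite_Sm (L := L) R)]
  change T.card ≤ _
  rw [← hT'card]
  have h2 := Finset.card_le_mul_card_image (f := fun y : G => (QuotientAddGroup.mk y : Q)) T'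
    (5 ^ Fintype.card κ) ?_
  · refine h2.trans (Nat.mul_le_mul_left _ ?_)
    refine (Finset.card_le_univ _).trans ?_
    rw [← Nat.card_eq_fintype_card, hQ]
  · intro q hq
    obtain ⟨y₀, hy₀, rfl⟩ := Finset.mem_image.1 hq
    -- coordinates
    let I : Finset (κ → ℤ) := Fintype.piFinset fun _ => Finset.Icc (-2 : ℤ) 2
    have hI : I.card = 5 ^ Fintype.card κ := by
      simp [I]
    rw [← hI]
    have hcoord : ∀ y : G, (QuotientAddGroup.mk y : Q) = QuotientAddGroup.mk y₀ →
        ∀ i, ∃ k : ℤ, b.repr ((y : L) - (y₀ : L)) i = k := by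
      intro y hy i
      have h3 : -y₀ + y ∈ Λ.addSubgroupOf G := QuotientAddGroup.eq.1 hy.symm
      rw [AddSubgroup.mem_addSubgroupOf] at h3
      have h4 : ((-y₀ + y : G) : L) = (y : L) - (y₀ : L) := by
        push_cast
        ring
      rw [h4] at h3
      exact int_coord b h3 i
    refine Finset.card_le_card_of_injOn
      (fun y : G => fun i => ⌊b.repr ((y : L) - (y₀ : L)) i⌋) ?_ ?_
    · intro y hy
      rw [Finset.mem_coe, Finset.mem_filter] at hy
      rw [Finset.mem_coe, Fintype.mem_piFinset]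
      intro i
      obtain ⟨k, hk⟩ := hcoord y hy.2 i
      have h5 := h1 _ (hT' y hy.1) i
      have h6 := h1 _ (hT' y₀ hy₀) i
      have h7 : |(k : ℚ)| ≤ 2 := by
        rw [← hk, map_sub, Finsupp.sub_apply]
        exact (abs_sub _ _).trans (by linarith)
      simp only [hk, Int.floor_intCast, Finset.mem_Icc]
      rw [abs_le] at h7
      constructor
      · exact_mod_cast h7.1
      · exact_mod_cast h7.2
    · intro y hy y' hy' h
      rw [Finset.mem_coe, Finset.mem_filter] at hy hy'
      have h8 : (y : L) - (y₀ : L) = (y' : L) - (y₀ : L) := by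
        apply b.repr.injective
        ext i
        obtain ⟨k, hk⟩ := hcoord y hy.2 i
        obtain ⟨k', hk'⟩ := hcoord y' hy'.2 i
        have h9 := congrFun h i
        simp only [hk, hk', Int.floor_intCast] at h9
        rw [hk, hk', h9]
      exact Subtype.ext (sub_left_injective h8)

theorem discr_le {κ : Type*} [Fintype κ] [DecidableEq κ] (b : Basis κ ℚ L)
    {R : ℝ} (hR : 0 < R) (hb : ∀ i, b i ∈ Sm L R) :
    ((|Algebra.discr ℚ b| : ℚ) : ℝ) ≤
      ((Fintype.card κ).factorial * R ^ Fintype.card κ) ^ 2 := by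
  have hcardE : Fintype.card κ = Fintype.card (L →ₐ[ℚ] ℂ) := by
    rw [AlgHom.card, finrank_eq_card_basis b]
  let e := Fintype.equivOfCardEq hcardE
  have h2 := Algebra.discr_eq_det_embeddingsMatrixReindex_pow_two ℚ ℂ b e
  have h3 := Pool.Agent.Helper313LB.det_scaled (Algebra.embeddingsMatrixReindex ℚ ℂ b e)
    (fun _ => 1) (fun _ => one_pos) (C := R) (fun i j => by
      rw [mul_one]
      have : Algebra.embeddingsMatrixReindex ℚ ℂ b e i j = (e j) (b i) := rfl
      rw [this]
      exact (norm_le_house (b i) ((e j : L →ₐ[ℚ] ℂ) : L →+* ℂ)).trans (hb i).2)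
  rw [Finset.prod_const_one, mul_one] at h3
  have h4 : ((|Algebra.discr ℚ b| : ℚ) : ℝ) =
      ‖(Algebra.embeddingsMatrixReindex ℚ ℂ b e).det‖ ^ 2 := by
    rw [← norm_pow, ← h2, eq_ratCast, ← Complex.ofReal_ratCast, Complex.norm_real,
      Real.norm_eq_abs]
    push_cast
    rfl
  rw [h4]
  exact pow_le_pow_left₀ (norm_nonneg _) h3 2

/-- The number of the small integers. -/
theorem card_Sm_le {κ : Type*} [Fintype κ] [DecidableEq κ] (b : Basis κ ℚ L)
    {R : ℝ} (hR : 0 < R) (hb : ∀ i, b i ∈ Sm L R) :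
    ((Sm L R).ncard : ℝ) * Real.sqrt ((|discr L| : ℤ) : ℝ) ≤
      5 ^ Fintype.card κ * ((Fintype.card κ).factorial * R ^ Fintype.card κ) := by
  obtain ⟨b', hb', h1⟩ := exists_good_basis b hb
  have hle : AddSubgroup.closure (Set.range b') ≤ Pool.Agent.TH263.DQ.IG L := by
    rw [AddSubgroup.closure_le]
    rintro _ ⟨i, rfl⟩
    exact (hb' i).1
  have h := Pool.Agent.TH263.DQ.discr_index b' hle
  have h0 : Algebra.discr ℚ b' ≠ 0 := Algebra.discr_not_zero_of_basis ℚ b'
  set m := (AddSubgroup.closure (Set.range b')).relIndex (Pool.Agent.TH263.DQ.IG L) with hm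
  have hm0 : m ≠ 0 := by
    intro h2
    rw [h2] at h
    simp at h
    exact h0 h
  have h2 := card_le_index b' h1 hle hm0
  have h3 := discr_le b' hR hb'
  have h4 : ((m : ℝ) * Real.sqrt ((|discr L| : ℤ) : ℝ)) ^ 2 ≤
      ((Fintype.card κ).factorial * R ^ Fintype.card κ) ^ 2 := by
    refine le_trans (le_of_eq ?_) h3
    rw [h, mul_pow, Real.sq_sqrt (by positivity)]
    push_cast
    rfl
  have h5 : (m : ℝ) * Real.sqrt ((|discr L| : ℤ) : ℝ) ≤
      (Fintype.card κ).factorial * R ^ Fintype.card κ :=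
    (pow_le_pow_iff_left₀ (by positivity) (by positivity) two_ne_zero).1 h4
  have h6 : ((Sm L R).ncard : ℝ) ≤ 5 ^ Fintype.card κ * m := by exact_mod_cast h2
  calc ((Sm L R).ncard : ℝ) * Real.sqrt ((|discr L| : ℤ) : ℝ)
      ≤ (5 ^ Fintype.card κ * m) * Real.sqrt ((|discr L| : ℤ) : ℝ) :=
        mul_le_mul_of_nonneg_right h6 (Real.sqrt_nonneg _)
    _ = 5 ^ Fintype.card κ * (m * Real.sqrt ((|discr L| : ℤ) : ℝ)) := by ring
    _ ≤ _ := mul_le_mul_of_nonneg_left h5 (by positivity)

end

end Pool.Agent.H26.Mass
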