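import Pool.Agent.H26.Mass.Form
import Pool.Agent.H26.Mass.Sieve

/-!
# The number of the forms with the same monic polynomial
-/

set_option autoImplicit false

open Module NumberField Polynomial

namespace Pool.Agent.H26.Mass

open Pool.Agent.Helper313LB

section

variable {R : Type*} [CommRing R]

/-- the coefficients of the form with the parameters `(a_0, t, c)` -/
def mk (n : ℕ) (p : R × R × (Fin (n - 1) → R)) : ℕ → R := fun j =>
  if j = 0 then p.1 else if j = 1 then n * p.2.1 else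
    if h : n - j < n - 1 then p.2.2 ⟨n - j, h⟩ else 0

theorem mk_zero (n : ℕ) (p : R × R × (Fin (n - 1) → R)) : mk n p 0 = p.1 := by
  simp [mk]

theorem mk_one (n : ℕ) (p : R × R × (Fin (n - 1) → R)) : mk n p 1 = n * p.2.1 := by
  simp [mk]

theorem mk_sub (n : ℕ) (p : R × R × (Fin (n - 1) → R)) (j : Fin (n - 1)) :
    mk n p (n - j) = p.2.2 j := by
  have hj := j.2
  rw [mk, if_neg (by omega), if_neg (by omega), dif_pos (by omega)]
  have e : (⟨n - (n - (j : ℕ)), by omega⟩ : Fin (n - 1)) = j := Fin.ext (by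
    change n - (n - (j : ℕ)) = j
    omega)
  rw [e]

/-- the coefficients of the monic polynomial of trace zero -/
noncomputable def hh (n : ℕ) (p : R × R × (Fin (n - 1) → R)) : Fin (n - 1) → R :=
  fun j => (hp n (mk n p) p.2.1).coeff j

theorem hp_mk [Nontrivial R] {n : ℕ} (hn : 1 ≤ n) (p : R × R × (Fin (n - 1) → R)) :
    hp n (mk n p) p.2.1 = P n (hh n p) :=
  hp_eq_P hn _ _ (mk_one n p)

theorem hh_eq {n : ℕ} (hn : 1 ≤ n) (p : R × R × (Fin (n - 1) → R)) (M : R) (h0 : M ∣ p.1 - 1)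
    (ht : M ∣ p.2.1) (j : Fin (n - 1)) : M ∣ hh n p j - p.2.2 j := by
  have h := hp_coeff_mod hn (mk n p) p.2.1 M (by rwa [mk_zero]) ht
    (k := (j : ℕ)) (by have := j.2; omega)
  rwa [mk_sub] at h

theorem hh_inj [IsDomain R] {n : ℕ} (hn : 1 ≤ n) (p p' : R × R × (Fin (n - 1) → R))
    (h1 : p.1 = p'.1) (h2 : p.2.1 = p'.2.1) (hne : p.1 ≠ 0) (h : hh n p = hh n p') : p = p' := by
  have h3 : hp n (mk n p) p.2.1 = hp n (mk n p') p.2.1 := by
    rw [hp_mk hn, h, ← hp_mk hn, h2]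
  refine Prod.ext h1 (Prod.ext h2 (funext fun j => ?_))
  have h4 := hp_inj (mk n p) (mk n p') p.2.1 (by rw [mk_zero, mk_zero, h1]) (by rwa [mk_zero]) h3
    (j := n - 1 - j) (by have := j.2; omega)
  have e : n - 1 - (j : ℕ) + 1 = n - j := by have := j.2; omega
  rwa [e, mk_sub, mk_sub] at h4

end

section

variable {F : Type*} [Field F] [NumberField F]

theorem dvd_of_squarefree {a : 𝓞 F} (ha : a ≠ 0) (hsq : Squarefree (Ideal.span {a})) (x : 𝓞 F)
    (hx : a ∣ x ^ 3) : a ∣ x := by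
  have h0 : Ideal.span {a} ≠ 0 := fun h => ha (Ideal.span_singleton_eq_bot.1 h)
  have hrad := (isRadical_iff_squarefree_of_ne_zero h0).2 hsq
  have h1 : Ideal.span {a} ∣ Ideal.span {x} ^ 3 := by
    rw [Ideal.span_singleton_pow, Ideal.dvd_span_singleton, Ideal.mem_span_singleton]
    exact hx
  have h2 := hrad 3 _ h1
  rwa [Ideal.dvd_span_singleton, Ideal.mem_span_singleton] at h2

theorem coe_ne_zero {a : 𝓞 F} (ha : a ≠ 0) : (a : F) ≠ 0 := fun h =>
  ha (RingOfIntegers.coe_injective h)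

/-- the quotient of two numbers of bounded size -/
theorem quot_mem_Box {a b x : 𝓞 F} (hx : b = a * x) {A B : ℝ} (hA : 0 < A)
    (ha : ∀ σ : F →+* ℂ, A ≤ ‖σ (a : F)‖) (hb : ∀ σ : F →+* ℂ, ‖σ (b : F)‖ ≤ B) :
    x ∈ Box F (B / A) := by
  intro σ
  have h1 : σ (b : F) = σ (a : F) * σ (x : F) := by
    rw [hx]
    simp
  have h2 := ha σ
  have h3 := hb σ
  rw [h1, norm_mul] at h3
  rw [le_div_iff₀ hA]
  nlinarith [norm_nonneg (σ (x : F))]

/-- the number of the leading coefficients -/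
theorem card_lead_le {D : 𝓞 F} (hD : D ≠ 0) (A : Finset (𝓞 F)) {H : ℝ} (hH : 0 < H)
    (hA : ∀ a ∈ A, a ∣ D ∧ ∀ σ : F →+* ℂ, H / 2 ≤ ‖σ (a : F)‖ ∧ ‖σ (a : F)‖ ≤ H) :
    A.card ≤ (Box F 2).ncard * {J | J ∣ Ideal.span {D}}.ncard := by
  classical
  have hD0 : Ideal.span {D} ≠ 0 := fun h => hD (Ideal.span_singleton_eq_bot.1 h)
  have h1 := Finset.card_le_mul_card_image (f := fun a : 𝓞 F => Ideal.span {a}) A
    ((Box F 2).ncard) ?_
  · refine h1.trans (Nat.mul_le_mul_left _ ?_)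
    have h2 : ((A.image fun a : 𝓞 F => Ideal.span {a} : Finset (Ideal (𝓞 F))) :
        Set (Ideal (𝓞 F))) ⊆ {J | J ∣ Ideal.span {D}} := by
      intro J hJ
      rw [Finset.mem_coe, Finset.mem_image] at hJ
      obtain ⟨a, ha, rfl⟩ := hJ
      rw [Set.mem_ofPred_eq, Ideal.dvd_span_singleton, Ideal.mem_span_singleton]
      exact (hA a ha).1
    have h3 := Set.ncard_le_ncard h2 (finite_dvd hD0)
    rwa [Set.ncard_coe_finset] at h3
  · intro J hJ
    obtain ⟨a₀, ha₀, rfl⟩ := Finset.mem_image.1 hJ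
    have hex : ∀ a ∈ A.filter (fun a => Ideal.span {a} = Ideal.span {a₀}), ∃ x : 𝓞 F,
        a = a₀ * x := by
      intro a ha
      have h4 := (Finset.mem_filter.1 ha).2
      have h5 : a ∈ Ideal.span {a₀} := by
        rw [← h4]
        exact Ideal.mem_span_singleton_self a
      obtain ⟨x, hx⟩ := Ideal.mem_span_singleton.1 h5
      exact ⟨x, hx⟩
    choose! f hf using hex
    rw [Set.ncard_eq_toFinset_card _ (finite_Box F 2)]
    refine Finset.card_le_card_of_injOn f ?_ ?_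
    · intro a ha
      rw [Finset.mem_coe] at ha
      rw [Finset.mem_coe, Set.Finite.mem_toFinset]
      have h6 := quot_mem_Box (hf a ha) (by positivity : 0 < H / 2)
        (fun σ => ((hA a₀ ha₀).2 σ).1) (fun σ => ((hA a (Finset.mem_filter.1 ha).1).2 σ).2)
      have e : H / (H / 2) = 2 := by field_simp
      rwa [e] at h6
    · intro a ha a' ha' h
      rw [hf a ha, hf a' ha', h]

/-- The fibre. -/
theorem card_fiber_le {n : ℕ} (hn : 3 ≤ n) {M : ℕ} (hM : 2 * (n * (n - 1) * (n - 2)) ∣ M)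
    {H : ℝ} (hH : 0 < H) (h₀ : Fin (n - 1) → 𝓞 F)
    (hD : inv n (h₀ ⟨n - 2, by omega⟩) (h₀ ⟨n - 3, by omega⟩) ≠ 0)
    (Q : Finset (𝓞 F × 𝓞 F × (Fin (n - 1) → 𝓞 F)))
    (hQ : ∀ p ∈ Q, hh n p = h₀ ∧ (∃ u : 𝓞 F, p.1 = 1 + M * u) ∧ Squarefree (Ideal.span {p.1}) ∧
      (∀ σ : F →+* ℂ, H / 2 ≤ ‖σ (p.1 : F)‖ ∧ ‖σ (p.1 : F)‖ ≤ H) ∧
      ∀ σ : F →+* ℂ, ‖σ (p.2.1 : F)‖ ≤ H) :
    Q.card ≤ (Box F 4).ncard * ((Box F 2).ncard *
      {J | J ∣ Ideal.span {inv n (h₀ ⟨n - 2, by omega⟩) (h₀ ⟨n - 3, by omega⟩)}}.ncard) := by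
  classical
  have hne : ∀ p ∈ Q, p.1 ≠ 0 := by
    intro p hp h0
    obtain ⟨σ⟩ : Nonempty (F →+* ℂ) := inferInstance
    have := ((hQ p hp).2.2.2.1 σ).1
    rw [h0] at this
    simp at this
    linarith
  have h1 := Finset.card_le_mul_card_image (f := fun p : 𝓞 F × 𝓞 F × (Fin (n - 1) → 𝓞 F) => p.1) Q
    ((Box F 4).ncard) ?_
  · refine h1.trans (Nat.mul_le_mul_left _ ?_)
    refine card_lead_le hD _ hH fun a ha => ?_
    obtain ⟨p, hp, rfl⟩ := Finset.mem_image.1 ha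
    refine ⟨?_, (hQ p hp).2.2.2.1⟩
    have h2 := lead_dvd_inv hn (mk n p) p.2.1 (mk_one n p)
    rw [mk_zero] at h2
    rw [← (hQ p hp).1]
    exact h2
  · intro a ha
    obtain ⟨p₀, hp₀, rfl⟩ := Finset.mem_image.1 ha
    obtain ⟨hh₀, ⟨u₀, hu₀⟩, hsq₀, hs₀, ht₀⟩ := hQ p₀ hp₀
    have hex : ∀ p ∈ Q.filter (fun p => p.1 = p₀.1), ∃ x : 𝓞 F, p.2.1 - p₀.2.1 = p₀.1 * x := by
      intro p hp
      obtain ⟨hp1, hp2⟩ := Finset.mem_filter.1 hp
      obtain ⟨hhp, ⟨u, hu⟩, hsq, hs, ht⟩ := hQ p hp1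
      have h3 : mk n p 0 ∣ p.2.1 - p₀.2.1 := by
        refine shift_congr hn (mk n p) (mk n p₀) p.2.1 p₀.2.1 (mk_one n p) (mk_one n p₀)
          (by rw [mk_zero, mk_zero, hp2]) ?_ ?_ ?_
        · rw [hp_mk (by omega), hp_mk (by omega), hhp, hh₀]
        · obtain ⟨k, hk⟩ := hM
          have hk' : (M : 𝓞 F) = 2 * (n * (n - 1) * (n - 2)) * k := by
            rw [hk]
            push_cast [Nat.cast_sub (by omega : 1 ≤ n), Nat.cast_sub (by omega : 2 ≤ n)]
            ring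
          refine ⟨-(k * u), 1, ?_⟩
          rw [mk_zero, hu, hk']
          ring
        · intro x hx
          rw [mk_zero] at hx ⊢
          exact dvd_of_squarefree (hne p hp1) hsq x hx
      rw [mk_zero, hp2] at h3
      obtain ⟨x, hx⟩ := h3
      exact ⟨x, hx⟩
    choose! f hf using hex
    rw [Set.ncard_eq_toFinset_card _ (finite_Box F 4)]
    refine Finset.card_le_card_of_injOn f ?_ ?_
    · intro p hp
      rw [Finset.mem_coe] at hp
      rw [Finset.mem_coe, Set.Finite.mem_toFinset]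
      obtain ⟨hp1, hp2⟩ := Finset.mem_filter.1 hp
      have hb : ∀ σ : F →+* ℂ, ‖σ ((p.2.1 - p₀.2.1 : 𝓞 F) : F)‖ ≤ 2 * H := by
        intro σ
        have e : σ ((p.2.1 - p₀.2.1 : 𝓞 F) : F) = σ (p.2.1 : F) - σ (p₀.2.1 : F) := by
          simp
        rw [e]
        refine (norm_sub_le _ _).trans ?_
        have h5 := (hQ p hp1).2.2.2.2 σ
        have h6 := ht₀ σ
        linarith
      have h6 := quot_mem_Box (hf p hp) (by positivity : 0 < H / 2) (fun σ => (hs₀ σ).1) hb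
      have e : 2 * H / (H / 2) = 4 := by field_simp; norm_num
      rwa [e] at h6
    · intro p hp p' hp' h
      rw [Finset.mem_coe] at hp hp'
      obtain ⟨hp1, hp2⟩ := Finset.mem_filter.1 hp
      obtain ⟨hp1', hp2'⟩ := Finset.mem_filter.1 hp'
      have h7 : p.2.1 - p₀.2.1 = p'.2.1 - p₀.2.1 := by rw [hf p hp, hf p' hp', h]
      refine hh_inj (by omega) p p' (by rw [hp2, hp2']) (sub_left_injective h7) (hne p hp1) ?_
      rw [(hQ p hp1).1, (hQ p' hp1').1]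

end

end Pool.Agent.H26.Mass
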