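import Pool.Agent.H26.Mass.Main

/-!
# The sum over the fields
-/

set_option autoImplicit false

open Module NumberField Polynomial IntermediateField Filter
open scoped Classical

namespace Pool.Agent.H26.Mass

open Pool.Agent.Helper313LB Pool.Agent.Helper313SN Pool.Agent.Helper313WR

/-- the absolute value of the discriminant, `0` if `L` is not a number field -/
noncomputable def dsc {F Ω : Type} [Field F] [Field Ω] [Algebra F Ω] (L : IntermediateField F Ω) : ℝ :=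
  if h : NumberField L then ((|@NumberField.discr L _ h| : ℤ) : ℝ) else 0

theorem dsc_eq {F Ω : Type} [Field F] [Field Ω] [Algebra F Ω] (L : IntermediateField F Ω)
    [h : NumberField L] : dsc L = ((|NumberField.discr L| : ℤ) : ℝ) := by
  rw [dsc, dif_pos h]

theorem one_le_dsc {F Ω : Type} [Field F] [Field Ω] [Algebra F Ω] (L : IntermediateField F Ω)
    [h : NumberField L] : 1 ≤ dsc L := by
  rw [dsc_eq]
  have h1 : (1 : ℤ) ≤ |NumberField.discr L| := Int.one_le_abs (NumberField.discr_ne_zero L)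
  exact_mod_cast h1

theorem mem_QFld {F : Type} [Field F] [NumberField F] {Ω : Type} [Field Ω] [CharZero Ω] [Algebra F Ω]
    {Q : IntermediateField F Ω → Prop} {n : ℕ} {X : ℝ} {L : IntermediateField F Ω} :
    L ∈ QFld Q n X ↔ (finrank F L = n ∧ Q L ∧ NumberField L ∧ dsc L ≤ X) := by
  constructor
  · rintro ⟨h1, h2, h3, h4⟩
    refine ⟨h1, h2, h3, ?_⟩
    rw [dsc_eq]
    exact h4
  · rintro ⟨h1, h2, h3, h4⟩
    rw [dsc_eq] at h4
    exact ⟨h1, h2, h3, h4⟩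

theorem finite_QFld' {F : Type} [Field F] [NumberField F] {Ω : Type} [Field Ω] [CharZero Ω]
    [Algebra F Ω] (Q : IntermediateField F Ω → Prop) (n : ℕ) (X : ℝ) : (QFld Q n X).Finite :=
  (finite_Fld F Ω X (n := n)).subset fun _ h => ⟨h.1, h.2.2⟩

/-- The sum of `|d_L|^(-1/2)` over the extensions with property `Q₁`. -/
theorem sum_lower {F : Type} [Field F] [NumberField F] {Ω : Type} [Field Ω] [CharZero Ω]
    [Algebra F Ω] [IsAlgClosed Ω] {Q₁ : IntermediateField F Ω → Prop} (hQ₁ : ∀ L, Q₁ L → Full L)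
    {n : ℕ} (hn : 3 ≤ n) (hB : Base Q₁ n) {ε : ℝ} (hε : 0 < ε) :
    ∃ c : ℝ, 0 < c ∧ ∀ᶠ X : ℝ in atTop, c * X ^ (1 / ((n : ℝ) - 1) - ε) ≤
      ∑ L ∈ (finite_QFld' Q₁ n X).toFinset, (Real.sqrt (dsc L))⁻¹ := by
  set d := finrank ℚ F with hd
  have hd0 : 0 < d := finrank_pos
  have hdR : (0 : ℝ) < d := by exact_mod_cast hd0
  have hnR : (3 : ℝ) ≤ n := by exact_mod_cast hn
  have hn1R : (0 : ℝ) < (n : ℝ) - 1 := by linarith
  set ε' : ℝ := 2 * d * ((n : ℝ) - 1) * ε with hε'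
  have hε'0 : 0 < ε' := by positivity
  obtain ⟨c₁, H₁, hc₁, hH₁, hmany⟩ := exists_many hn hB hε'0
  obtain ⟨K, hK, hfield⟩ := field_facts (Ω := Ω) hQ₁ (by omega : 2 ≤ n)
  set m : ℕ := 2 * (d * (n - 1)) with hm
  have hm0 : m ≠ 0 := by
    have : 0 < d * (n - 1) := Nat.mul_pos hd0 (by omega)
    omega
  have hmR : (0 : ℝ) < m := by exact_mod_cast Nat.pos_of_ne_zero hm0
  have hmval : (m : ℝ) = 2 * d * ((n : ℝ) - 1) := by
    rw [hm]
    push_cast [Nat.cast_sub (by omega : 1 ≤ n)]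
    ring
  refine ⟨c₁ / K * (1 / K) ^ (1 / ((n : ℝ) - 1) - ε), by positivity, ?_⟩
  filter_upwards [eventually_ge_atTop (K * H₁ ^ m)] with X hX
  have hX0 : 0 < X := lt_of_lt_of_le (by positivity) hX
  set H : ℝ := (X / K) ^ (1 / (m : ℝ)) with hH
  have hHm : H ^ m = X / K := by
    rw [hH, ← Real.rpow_natCast, ← Real.rpow_mul (by positivity), one_div_mul_cancel hmR.ne',
      Real.rpow_one]
  have hHH₁ : H₁ ≤ H := by
    have h3 : H₁ ^ m ≤ H ^ m := by
      rw [hHm, le_div_iff₀ hK]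
      linarith
    exact le_of_pow_le_pow_left₀ hm0 (by positivity) h3
  have hH1 : 1 ≤ H := hH₁.trans hHH₁
  have hH0 : 0 < H := by linarith
  obtain ⟨Q, hQok, hQcard⟩ := hmany H hHH₁
  -- the roots
  have hex : ∀ h₀ ∈ Q.image (hh n), ∃ η : Ω, minpoly F η = P n fun j => ((h₀ j : 𝓞 F) : F) := by
    intro h₀ hh₀
    obtain ⟨p, hp, rfl⟩ := Finset.mem_image.1 hh₀
    have hok := hQok p hp
    have hmon : (P n fun j => ((hh n p j : 𝓞 F) : F)).Monic := P_monic _ (by omega)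
    obtain ⟨η, hη⟩ := IsAlgClosed.exists_aeval_eq_zero Ω (P n fun j => ((hh n p j : 𝓞 F) : F)) (by
      rw [degree_eq_natDegree hmon.ne_zero, P_natDegree _ (by omega)]
      exact_mod_cast (by omega : n ≠ 0))
    exact ⟨η, (minpoly.eq_of_irreducible_of_monic hok.irr hη hmon).symm⟩
  choose! r hr using hex
  have hrinj : Set.InjOn r (Q.image (hh n) : Finset (Fin (n - 1) → 𝓞 F)) := by
    intro h₀ hh₀ h₁ hh₁ h
    have h2 : (P n fun j => ((h₀ j : 𝓞 F) : F)) = P n fun j => ((h₁ j : 𝓞 F) : F) := by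
      rw [← hr h₀ hh₀, ← hr h₁ hh₁, h]
    funext j
    have h3 := congrArg (fun f => f.coeff (j : ℕ)) h2
    simp only [P_coeff] at h3
    exact RingOfIntegers.coe_injective h3
  let E : Finset Ω := (Q.image (hh n)).image r
  have hEcard : E.card = (Q.image (hh n)).card := Finset.card_image_of_injOn hrinj
  have hEp : ∀ η ∈ E, ∃ p, Ok Q₁ n H p ∧ (minpoly F η = P n fun j => ((hh n p j : 𝓞 F) : F)) := by
    intro η hη
    obtain ⟨h₀, hh₀, rfl⟩ := Finset.mem_image.1 hη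
    have h1 := hr h₀ hh₀
    obtain ⟨p, hp, rfl⟩ := Finset.mem_image.1 hh₀
    exact ⟨p, hQok p hp, h1⟩
  let g : Ω → IntermediateField F Ω := fun η => F⟮η⟯
  have hfacts : ∀ L ∈ E.image g, ∃ _ : NumberField L, finrank F L = n ∧ Q₁ L ∧
      ((|discr L| : ℤ) : ℝ) ≤ K * H ^ (2 * (d * (n - 1))) ∧
      ((E.filter fun η => g η = L).card : ℝ) * Real.sqrt ((|discr L| : ℤ) : ℝ) ≤
        K * H ^ (d * (n - 1)) := by
    intro L hL
    obtain ⟨η, hη, hηL⟩ := Finset.mem_image.1 hL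
    refine hfield H hH1 L (E.filter fun η => g η = L) ⟨η, Finset.mem_filter.2 ⟨hη, hηL⟩⟩ ?_
    intro η' hη'
    obtain ⟨h1, h2⟩ := Finset.mem_filter.1 hη'
    obtain ⟨p, h3, h4⟩ := hEp η' h1
    exact ⟨p, h3, h4, h2⟩
  have hsub : E.image g ⊆ (finite_QFld' Q₁ n X).toFinset := by
    intro L hL
    obtain ⟨hnf, h1, h2, h3, -⟩ := hfacts L hL
    rw [Set.Finite.mem_toFinset]
    refine ⟨h1, h2, hnf, h3.trans (le_of_eq ?_)⟩
    rw [← hm, hHm]
    field_simp
  have hterm : ∀ L ∈ E.image g, ((E.filter fun η => g η = L).card : ℝ) ≤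
      K * H ^ (d * (n - 1)) * (Real.sqrt (dsc L))⁻¹ := by
    intro L hL
    obtain ⟨hnf, -, -, -, h4⟩ := hfacts L hL
    have h5 : 0 < Real.sqrt (dsc L) := Real.sqrt_pos.2 (by linarith [one_le_dsc L])
    rw [← div_eq_mul_inv, le_div_iff₀ h5, dsc_eq]
    exact h4
  have hsum : (E.card : ℝ) ≤ K * H ^ (d * (n - 1)) *
      ∑ L ∈ (finite_QFld' Q₁ n X).toFinset, (Real.sqrt (dsc L))⁻¹ := by
    have h1 : E.card = ∑ L ∈ E.image g, (E.filter fun η => g η = L).card :=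
      Finset.card_eq_sum_card_fiberwise (fun p hp => Finset.mem_image_of_mem _ hp)
    have h2 : (E.card : ℝ) = ∑ L ∈ E.image g, ((E.filter fun η => g η = L).card : ℝ) := by
      exact_mod_cast h1
    rw [h2]
    refine (Finset.sum_le_sum hterm).trans ?_
    rw [← Finset.mul_sum]
    refine mul_le_mul_of_nonneg_left ?_ (by positivity)
    exact Finset.sum_le_sum_of_subset_of_nonneg hsub fun L _ _ => by positivity
  set Sg := ∑ L ∈ (finite_QFld' Q₁ n X).toFinset, (Real.sqrt (dsc L))⁻¹ with hSg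
  have h6 : c₁ * H ^ ((d * (n + 1) : ℕ) - ε' : ℝ) ≤ K * H ^ (d * (n - 1)) * Sg := by
    refine hQcard.trans (le_trans (le_of_eq ?_) hsum)
    rw [hEcard]
  have h7 : H ^ ((d * (n + 1) : ℕ) - ε' : ℝ) = H ^ (d * (n - 1)) * H ^ (2 * d - ε' : ℝ) := by
    rw [← Real.rpow_natCast H (d * (n - 1)), ← Real.rpow_add hH0]
    congr 1
    push_cast [Nat.cast_sub (by omega : 1 ≤ n)]
    ring
  have h8 : c₁ * H ^ (2 * d - ε' : ℝ) ≤ K * Sg := by
    rw [h7] at h6
    have h9 : 0 < H ^ (d * (n - 1)) := by positivity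
    refine le_of_mul_le_mul_left ?_ h9
    calc H ^ (d * (n - 1)) * (c₁ * H ^ (2 * d - ε' : ℝ)) =
        c₁ * (H ^ (d * (n - 1)) * H ^ (2 * d - ε' : ℝ)) := by ring
      _ ≤ K * H ^ (d * (n - 1)) * Sg := h6
      _ = _ := by ring
  have h9 : H ^ (2 * d - ε' : ℝ) = (1 / K) ^ (1 / ((n : ℝ) - 1) - ε) * X ^ (1 / ((n : ℝ) - 1) - ε) := by
    rw [← Real.mul_rpow (by positivity) hX0.le, hH, ← Real.rpow_mul (by positivity)]
    have e1 : 1 / K * X = X / K := by ring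
    rw [e1]
    congr 1
    rw [hmval, hε']
    field_simp
  rw [h9] at h8
  calc c₁ / K * (1 / K) ^ (1 / ((n : ℝ) - 1) - ε) * X ^ (1 / ((n : ℝ) - 1) - ε)
      = (c₁ * ((1 / K) ^ (1 / ((n : ℝ) - 1) - ε) * X ^ (1 / ((n : ℝ) - 1) - ε))) / K := by ring
    _ ≤ Sg := by
        rw [div_le_iff₀ hK]
        linarith

end Pool.Agent.H26.Mass
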