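import Pool.Agent.H26.Mass.Latt

/-!
# The small basis of the ring attached to a binary form
-/

set_option autoImplicit false

open Module NumberField

namespace Pool.Agent.H26.Mass

section omega

variable {R A : Type*} [CommRing R] [CommRing A] [IsDomain A] [Algebra R A]

/-- the numbers `a_0 θ^i + ... + a_{i-1} θ` -/
def om (a : ℕ → R) (θ : A) (i : ℕ) : A := ∑ j ∈ Finset.range i, algebraMap R A (a j) * θ ^ (i - j)

/-- the span of the powers -/
def pw (R : Type*) {A : Type*} [CommRing R] [CommRing A] [Algebra R A] (θ : A) (n : ℕ) :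
    Submodule R A :=
  Submodule.span R (Set.range fun k : Fin n => θ ^ (k : ℕ))

theorem pow_mem_pw (θ : A) {n k : ℕ} (hk : k < n) : θ ^ k ∈ pw R θ n :=
  Submodule.subset_span ⟨⟨k, hk⟩, rfl⟩

theorem om_mul_mem (a : ℕ → R) (θ : A) {n : ℕ}
    (hf : ∑ j ∈ Finset.range (n + 1), algebraMap R A (a j) * θ ^ (n - j) = 0) {i k : ℕ}
    (hi : i ≤ n) (hk : k < n) : om a θ i * θ ^ k ∈ pw R θ n := by
  rcases Nat.lt_or_ge (i + k) n with h | h
  · rw [om, Finset.sum_mul]
    refine Submodule.sum_mem _ fun j hj => ?_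
    rw [mul_assoc, ← pow_add, ← Algebra.smul_def]
    exact Submodule.smul_mem _ _ (pow_mem_pw θ (by omega))
  · have h1 : ∑ j ∈ Finset.range (n + 1), algebraMap R A (a j) * θ ^ (i + k - j) = 0 := by
      have h2 : ∑ j ∈ Finset.range (n + 1), algebraMap R A (a j) * θ ^ (i + k - j) =
          (∑ j ∈ Finset.range (n + 1), algebraMap R A (a j) * θ ^ (n - j)) * θ ^ (i + k - n) := by
        rw [Finset.sum_mul]
        refine Finset.sum_congr rfl fun j hj => ?_
        rw [Finset.mem_range] at hj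
        rw [mul_assoc, ← pow_add]
        congr 2
        omega
      rw [h2, hf, zero_mul]
    have h3 : om a θ i * θ ^ k = -∑ j ∈ Finset.Ico i (n + 1),
        algebraMap R A (a j) * θ ^ (i + k - j) := by
      rw [eq_neg_iff_add_eq_zero, ← h1, ← Finset.sum_range_add_sum_Ico _ (by omega : i ≤ n + 1)]
      congr 1
      rw [om, Finset.sum_mul]
      refine Finset.sum_congr rfl fun j hj => ?_
      rw [Finset.mem_range] at hj
      rw [mul_assoc, ← pow_add]
      congr 2
      omega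
    rw [h3]
    refine Submodule.neg_mem _ (Submodule.sum_mem _ fun j hj => ?_)
    rw [Finset.mem_Ico] at hj
    rw [← Algebra.smul_def]
    exact Submodule.smul_mem _ _ (pow_mem_pw θ (by omega))

theorem om_isIntegral (a : ℕ → R) (θ : A) {n : ℕ} (hn : 1 ≤ n)
    (hf : ∑ j ∈ Finset.range (n + 1), algebraMap R A (a j) * θ ^ (n - j) = 0) {i : ℕ}
    (hi : i ≤ n) : IsIntegral R (om a θ i) := by
  refine isIntegral_of_smul_mem_submodule (M := A) (pw R θ n) ?_ ?_ _ ?_
  · intro h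
    have h1 : (1 : A) ∈ pw R θ n := by
      have := pow_mem_pw (R := R) θ (by omega : 0 < n)
      rwa [pow_zero] at this
    rw [h, Submodule.mem_bot] at h1
    exact one_ne_zero h1
  · exact Submodule.fg_span (Set.finite_range _)
  · intro x hx
    induction hx using Submodule.span_induction with
    | mem x hx =>
      obtain ⟨k, rfl⟩ := hx
      exact om_mul_mem a θ hf hi k.2
    | zero => rw [smul_zero]; exact Submodule.zero_mem _
    | add x y _ _ hx hy => rw [smul_add]; exact Submodule.add_mem _ hx hy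
    | smul r x _ hx =>
      rw [smul_comm]
      exact Submodule.smul_mem _ _ hx

end omega

section basis

variable {F L : Type*} [Field F] [NumberField F] [Field L] [NumberField L] [Algebra F L]

/-- the vectors `1, ω_1, ..., ω_{n-1}` -/
noncomputable def vv (a : ℕ → 𝓞 F) (θ : L) (n : ℕ) (i : Fin n) : L :=
  if (i : ℕ) = 0 then 1 else om a θ i

theorem vv_span (a : ℕ → 𝓞 F) (θ : L) {n : ℕ} (h0 : a 0 ≠ 0) {k : ℕ} (hk : k < n) :
    θ ^ k ∈ Submodule.span F (Set.range (vv a θ n)) := by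
  induction k using Nat.strong_induction_on with
  | _ k ih =>
    rcases Nat.eq_zero_or_pos k with rfl | hpos
    · refine Submodule.subset_span ⟨⟨0, hk⟩, ?_⟩
      simp [vv]
    · have h1 : om a θ k ∈ Submodule.span F (Set.range (vv a θ n)) := by
        refine Submodule.subset_span ⟨⟨k, hk⟩, ?_⟩
        simp [vv, hpos.ne']
      have h2 : om a θ k = ((a 0 : 𝓞 F) : F) • θ ^ k +
          ∑ j ∈ Finset.range (k - 1), ((a (j + 1) : 𝓞 F) : F) • θ ^ (k - (j + 1)) := by
        obtain ⟨m, rfl⟩ : ∃ m, k = m + 1 := ⟨k - 1, by omega⟩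
        rw [om, Finset.sum_range_succ', Nat.add_sub_cancel, add_comm]
        congr 1
        · rw [Nat.sub_zero, Algebra.smul_def]
          rfl
        · refine Finset.sum_congr rfl fun j _ => ?_
          rw [Algebra.smul_def]
          rfl
      have h3 : θ ^ k = ((a 0 : 𝓞 F) : F)⁻¹ • (om a θ k -
          ∑ j ∈ Finset.range (k - 1), ((a (j + 1) : 𝓞 F) : F) • θ ^ (k - (j + 1))) := by
        rw [h2, add_sub_cancel_right, smul_smul, inv_mul_cancel₀, one_smul]
        exact fun h => h0 (RingOfIntegers.coe_injective h)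
      rw [h3]
      refine Submodule.smul_mem _ _ (Submodule.sub_mem _ h1 (Submodule.sum_mem _ fun j hj => ?_))
      rw [Finset.mem_range] at hj
      exact Submodule.smul_mem _ _ (ih _ (by omega) (by omega))

theorem norm_om_le (a : ℕ → 𝓞 F) (θ : L) {n i : ℕ} (hi : i ≤ n) {H : ℝ} (hH : 0 ≤ H)
    (ha : ∀ j, ∀ σ : F →+* ℂ, ‖σ (a j : F)‖ ≤ H) (φ : L →+* ℂ) (hθ : ‖φ θ‖ ≤ 3) :
    ‖φ (om a θ i)‖ ≤ n * 3 ^ n * H := by
  rw [om, map_sum]
  refine (norm_sum_le _ _).trans ?_
  have h1 : ∀ j ∈ Finset.range i, ‖φ (algebraMap (𝓞 F) L (a j) * θ ^ (i - j))‖ ≤ 3 ^ n * H := by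
    intro j _
    rw [map_mul, map_pow, norm_mul, norm_pow, mul_comm]
    have h2 : ‖φ (algebraMap (𝓞 F) L (a j))‖ ≤ H := ha j (φ.comp (algebraMap F L))
    have h3 : ‖φ θ‖ ^ (i - j) ≤ 3 ^ n := by
      calc ‖φ θ‖ ^ (i - j) ≤ 3 ^ (i - j) := pow_le_pow_left₀ (norm_nonneg _) hθ _
        _ ≤ 3 ^ n := pow_le_pow_right₀ (by norm_num) (by omega)
    exact mul_le_mul h3 h2 (norm_nonneg _) (by positivity)
  refine (Finset.sum_le_sum h1).trans ?_
  rw [Finset.sum_const, Finset.card_range, nsmul_eq_mul]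
  have h4 : (i : ℝ) ≤ n := by exact_mod_cast hi
  calc (i : ℝ) * (3 ^ n * H) ≤ n * (3 ^ n * H) := mul_le_mul_of_nonneg_right h4 (by positivity)
    _ = _ := by ring

end basis

theorem exists_small_basis (F : Type*) [Field F] [NumberField F] {n : ℕ} (hn : 1 ≤ n) :
    ∃ C : ℝ, 1 ≤ C ∧ ∀ (L : Type*) [Field L] [NumberField L] [Algebra F L], finrank F L = n →
      ∀ θ : L, Algebra.adjoin F {θ} = ⊤ → ∀ a : ℕ → 𝓞 F, a 0 ≠ 0 →
      ∑ j ∈ Finset.range (n + 1), algebraMap (𝓞 F) L (a j) * θ ^ (n - j) = 0 →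
      ∀ H : ℝ, 1 ≤ H → (∀ j, ∀ σ : F →+* ℂ, ‖σ (a j : F)‖ ≤ H) → (∀ φ : L →+* ℂ, ‖φ θ‖ ≤ 3) →
      (∃ b : Basis (Free.ChooseBasisIndex ℤ (𝓞 F) × Fin n) ℚ L, ∀ i, b i ∈ Sm L (C * H)) ∧
      ((|discr L| : ℤ) : ℝ) ≤ C * H ^ (2 * (finrank ℚ F * (n - 1))) := by
  classical
  obtain ⟨C, hC1, hC⟩ := Pool.Agent.Helper313LB.exists_basis_bound F
  have hcardF : Fintype.card (Free.ChooseBasisIndex ℤ (𝓞 F)) = finrank ℚ F :=
    (finrank_eq_card_basis (integralBasis F)).symm
  set N := finrank ℚ F * n with hN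
  set D : ℝ := C * (n * 3 ^ n) with hD
  have hn1 : (1 : ℝ) ≤ n := by exact_mod_cast hn
  have hD1 : 1 ≤ D := by
    have h3 : (1 : ℝ) ≤ 3 ^ n := one_le_pow₀ (by norm_num)
    have : (1 : ℝ) ≤ n * 3 ^ n := one_le_mul_of_one_le_of_one_le hn1 h3
    exact one_le_mul_of_one_le_of_one_le hC1 this
  refine ⟨max D ((N.factorial * D ^ N) ^ 2), le_max_of_le_left hD1, ?_⟩
  intro L _ _ _ hL θ hgen a h0 hf H hH ha hθ
  have : IsScalarTower ℚ F L := IsScalarTower.of_algebraMap_eq' (Subsingleton.elim _ _)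
  have hfd : FiniteDimensional F L := Module.Finite.of_restrictScalars_finite ℚ F L
  have hθF : IsIntegral F θ := Algebra.IsIntegral.isIntegral θ
  have hH0 : 0 ≤ H := by linarith
  -- the basis over F
  let pb : PowerBasis F L := PowerBasis.ofAdjoinEqTop hθF hgen
  have hpbg : pb.gen = θ := PowerBasis.ofAdjoinEqTop_gen hθF hgen
  have hdim : pb.dim = n := by rw [← hL, pb.finrank]
  have hspan : ⊤ ≤ Submodule.span F (Set.range (vv a θ n)) := by
    rw [← pb.basis.span_eq, Submodule.span_le]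
    rintro _ ⟨i, rfl⟩
    rw [pb.basis_eq_pow, hpbg]
    exact vv_span a θ h0 (by rw [← hdim]; exact i.2)
  let bF : Basis (Fin n) F L := basisOfTopLeSpanOfCardEqFinrank (vv a θ n) hspan
    (by rw [Fintype.card_fin, hL])
  have hbF : ⇑bF = vv a θ n := coe_basisOfTopLeSpanOfCardEqFinrank _ _ _
  let b : Basis (Free.ChooseBasisIndex ℤ (𝓞 F) × Fin n) ℚ L := (integralBasis F).smulTower bF
  have hb : ∀ x, b x = algebraMap F L (integralBasis F x.1) * vv a θ n x.2 := by
    intro x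
    rw [Basis.smulTower_apply, hbF, Algebra.smul_def]
  have hcard : Fintype.card (Free.ChooseBasisIndex ℤ (𝓞 F) × Fin n) = N := by
    rw [Fintype.card_prod, hcardF, Fintype.card_fin]
  have hvint : ∀ i, IsIntegral ℤ (vv a θ n i) := by
    intro i
    rw [vv]
    split_ifs
    · exact isIntegral_one
    · have h1 : IsIntegral (𝓞 F) (om a θ i) := om_isIntegral a θ hn hf i.2.le
      exact isIntegral_trans _ h1
  have hint : ∀ x, IsIntegral ℤ (b x) := by
    intro x
    rw [hb]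
    refine IsIntegral.mul ?_ (hvint _)
    have h1 : IsIntegral ℤ (integralBasis F x.1) := by
      rw [integralBasis_apply]
      exact RingOfIntegers.isIntegral_coe _
    exact h1.map (IsScalarTower.toAlgHom ℤ F L)
  let w : Free.ChooseBasisIndex ℤ (𝓞 F) × Fin n → ℝ := fun x => if (x.2 : ℕ) = 0 then 1 else H
  have hw0 : ∀ x, 0 < w x := by
    intro x
    simp only [w]
    split_ifs <;> linarith
  have hwH : ∀ x, w x ≤ H := by
    intro x
    simp only [w]
    split_ifs <;> linarith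
  have hsize : ∀ x, ∀ φ : L →+* ℂ, ‖φ (b x)‖ ≤ D * w x := by
    intro x φ
    rw [hb, map_mul, norm_mul]
    have h4 : ‖φ (algebraMap F L (integralBasis F x.1))‖ ≤ C := hC x.1 (φ.comp (algebraMap F L))
    have h5 : ‖φ (vv a θ n x.2)‖ ≤ n * 3 ^ n * w x := by
      simp only [vv, w]
      split_ifs with h
      · rw [map_one, norm_one, mul_one]
        have h3 : (1 : ℝ) ≤ 3 ^ n := one_le_pow₀ (by norm_num)
        exact one_le_mul_of_one_le_of_one_le hn1 h3
      · exact norm_om_le a θ x.2.2.le hH0 ha φ (hθ φ)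
    calc ‖φ (algebraMap F L (integralBasis F x.1))‖ * ‖φ (vv a θ n x.2)‖
        ≤ C * (n * 3 ^ n * w x) := mul_le_mul h4 h5 (norm_nonneg _) (by linarith)
      _ = D * w x := by rw [hD]; ring
  refine ⟨⟨b, fun x => ⟨hint x, ?_⟩⟩, ?_⟩
  · rw [house_le (by positivity)]
    intro φ
    refine (hsize x φ).trans ?_
    exact mul_le_mul (le_max_left _ _) (hwH x) (hw0 x).le (by positivity)
  · have h1 := Pool.Agent.Helper313LB.discr_le_basis b hint
    have hcardE : Fintype.card (Free.ChooseBasisIndex ℤ (𝓞 F) × Fin n) =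
        Fintype.card (L →ₐ[ℚ] ℂ) := by
      rw [AlgHom.card, finrank_eq_card_basis b]
    let e := Fintype.equivOfCardEq hcardE
    have h2 := Algebra.discr_eq_det_embeddingsMatrixReindex_pow_two ℚ ℂ b e
    have h3 : ‖(Algebra.embeddingsMatrixReindex ℚ ℂ b e).det‖ ≤
        N.factorial * D ^ N * ∏ x, w x := by
      rw [← hcard]
      refine Pool.Agent.Helper313LB.det_scaled _ _ hw0 ?_
      intro i j
      exact hsize i ((e j : L →ₐ[ℚ] ℂ) : L →+* ℂ)
    have hin : ∏ y : Fin n, (if (y : ℕ) = 0 then (1 : ℝ) else H) = H ^ (n - 1) := by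
      obtain ⟨m, rfl⟩ : ∃ m, n = m + 1 := ⟨n - 1, by omega⟩
      rw [Fin.prod_univ_succ]
      simp
    have h6 : ∏ x, w x = H ^ (finrank ℚ F * (n - 1)) := by
      rw [Fintype.prod_prod_type]
      simp only [w]
      rw [Finset.prod_congr rfl fun _ _ => hin, Finset.prod_const, Finset.card_univ, hcardF,
        ← pow_mul, mul_comm]
    have h7 : ((|discr L| : ℤ) : ℝ) ≤ ‖(Algebra.embeddingsMatrixReindex ℚ ℂ b e).det‖ ^ 2 := by
      rw [← norm_pow, ← h2]
      have h8 : ‖(algebraMap ℚ ℂ) (Algebra.discr ℚ b)‖ = ((|Algebra.discr ℚ b| : ℚ) : ℝ) := by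
        rw [eq_ratCast, ← Complex.ofReal_ratCast, Complex.norm_real, Real.norm_eq_abs]
        push_cast
        rfl
      rw [h8]
      have h9 : (((|(discr L : ℚ)| : ℚ)) : ℝ) ≤ ((|Algebra.discr ℚ b| : ℚ) : ℝ) := by
        exact_mod_cast h1
      refine le_trans (le_of_eq ?_) h9
      push_cast
      rfl
    calc ((|discr L| : ℤ) : ℝ) ≤ ‖(Algebra.embeddingsMatrixReindex ℚ ℂ b e).det‖ ^ 2 := h7
      _ ≤ (N.factorial * D ^ N * ∏ x, w x) ^ 2 := pow_le_pow_left₀ (norm_nonneg _) h3 2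
      _ = (N.factorial * D ^ N) ^ 2 * H ^ (2 * (finrank ℚ F * (n - 1))) := by
        rw [h6, mul_pow, ← pow_mul H, mul_comm 2 (finrank ℚ F * (n - 1))]
      _ ≤ _ := mul_le_mul_of_nonneg_right (le_max_right _ _) (by positivity)

end Pool.Agent.H26.Mass
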