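import Mathlib

/-!
# The divisor bound for the ideals of a number field
-/

set_option autoImplicit false

open Module NumberField

namespace Pool.Agent.H26.Mass

section

variable (F : Type*) [Field F] [NumberField F]

theorem two_le_absNorm {p : Ideal (𝓞 F)} (hp : Prime p) : 2 ≤ Ideal.absNorm p := by
  have h0 : Ideal.absNorm p ≠ 0 := fun h => hp.ne_zero (Ideal.absNorm_eq_zero_iff.1 h)
  have h1 : Ideal.absNorm p ≠ 1 := fun h => hp.not_isUnit (by
    rw [Ideal.isUnit_iff]
    exact Ideal.absNorm_eq_one_iff.1 h)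
  omega

variable {F}

theorem finite_dvd {I : Ideal (𝓞 F)} (hI : I ≠ 0) : {J | J ∣ I}.Finite := by
  refine (Ideal.finite_setOfPred_absNorm_le (Ideal.absNorm I)).subset ?_
  intro J hJ
  have h1 : Ideal.absNorm J ∣ Ideal.absNorm I := map_dvd Ideal.absNorm hJ
  have h0 : Ideal.absNorm I ≠ 0 := fun h => hI (Ideal.absNorm_eq_zero_iff.1 h)
  exact Nat.le_of_dvd (Nat.pos_of_ne_zero h0) h1

theorem ncard_dvd_mul_le {I J : Ideal (𝓞 F)} (hI : I ≠ 0) (hJ : J ≠ 0) :
    {K | K ∣ I * J}.ncard ≤ {K | K ∣ I}.ncard * {K | K ∣ J}.ncard := by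
  rw [← Set.ncard_prod]
  have h : {K | K ∣ I * J} ⊆ (fun z : Ideal (𝓞 F) × Ideal (𝓞 F) => z.1 * z.2) ''
      ({K | K ∣ I} ×ˢ {K | K ∣ J}) := by
    intro K hK
    obtain ⟨a, b, ha, hb, rfl⟩ := exists_dvd_and_dvd_of_dvd_mul hK
    exact ⟨(a, b), ⟨ha, hb⟩, rfl⟩
  have hf : ({K | K ∣ I} ×ˢ {K | K ∣ J}).Finite := (finite_dvd hI).prod (finite_dvd hJ)
  exact (Set.ncard_le_ncard h (hf.image _)).trans (Set.ncard_image_le hf)

theorem ncard_dvd_prime_pow {p : Ideal (𝓞 F)} (hp : Prime p) (i : ℕ) :
    {K | K ∣ p ^ i}.ncard ≤ i + 1 := by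
  have h : {K | K ∣ p ^ i} ⊆ ((Finset.range (i + 1)).image fun j => p ^ j : Finset (Ideal (𝓞 F))) := by
    intro K hK
    obtain ⟨j, hj, hK⟩ := (dvd_prime_pow hp i).1 hK
    rw [associated_iff_eq] at hK
    rw [Finset.mem_coe, Finset.mem_image]
    exact ⟨j, Finset.mem_range.2 (by omega), hK.symm⟩
  refine (Set.ncard_le_ncard h (Finset.finite_toSet _)).trans ?_
  rw [Set.ncard_coe_finset]
  exact Finset.card_image_le.trans (by rw [Finset.card_range])

end

/-- an elementary inequality -/
theorem exists_linear_le {ε : ℝ} (hε : 0 < ε) : ∃ C : ℝ, 1 ≤ C ∧ ∀ i : ℕ,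
    ((i : ℝ) + 1) ≤ C * (2 : ℝ) ^ (ε * i) := by
  refine ⟨1 + 1 / (ε * Real.log 2), ?_, fun i => ?_⟩
  · have : 0 < Real.log 2 := Real.log_pos (by norm_num)
    have : 0 ≤ 1 / (ε * Real.log 2) := by positivity
    linarith
  · have hl : 0 < Real.log 2 := Real.log_pos (by norm_num)
    set u := ε * Real.log 2 with hu
    have hu0 : 0 < u := by positivity
    have h1 : (2 : ℝ) ^ (ε * i) = Real.exp (u * i) := by
      rw [Real.rpow_def_of_pos (by norm_num)]
      congr 1
      rw [hu]; ring
    rw [h1]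
    have h2 := Real.add_one_le_exp (u * i)
    have h3 : 0 ≤ u * i := by positivity
    calc (i : ℝ) + 1 ≤ (1 + 1 / u) * (u * i + 1) := by
          have : (1 + 1 / u) * (u * i + 1) = u * i + 1 + i + 1 / u := by field_simp; ring
          rw [this]
          have : 0 < 1 / u := by positivity
          linarith
      _ ≤ _ := mul_le_mul_of_nonneg_left h2 (by positivity)

/-- The divisor bound. -/
theorem exists_ncard_dvd_le (F : Type*) [Field F] [NumberField F] {ε : ℝ} (hε : 0 < ε) :
    ∃ C : ℝ, 1 ≤ C ∧ ∀ I : Ideal (𝓞 F), I ≠ 0 →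
      ({J | J ∣ I}.ncard : ℝ) ≤ C * (Ideal.absNorm I : ℝ) ^ ε := by
  classical
  obtain ⟨C₀, hC₀, hlin⟩ := exists_linear_le hε
  obtain ⟨B, hB⟩ := exists_nat_gt ((2 : ℝ) ^ (1 / ε))
  let S : Finset (Ideal (𝓞 F)) := (Ideal.finite_setOfPred_absNorm_le (S := 𝓞 F) B).toFinset
  have hS : ∀ p : Ideal (𝓞 F), p ∉ S → (2 : ℝ) ≤ (Ideal.absNorm p : ℝ) ^ ε := by
    intro p hp
    have h1 : ¬ Ideal.absNorm p ≤ B := fun h => hp ((Set.Finite.mem_toFinset _).2 h)
    push Not at h1
    have h2 : (2 : ℝ) ^ (1 / ε) ≤ Ideal.absNorm p := hB.le.trans (by exact_mod_cast h1.le)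
    calc (2 : ℝ) = ((2 : ℝ) ^ (1 / ε)) ^ ε := by
          rw [← Real.rpow_mul (by norm_num), one_div_mul_cancel hε.ne', Real.rpow_one]
      _ ≤ _ := Real.rpow_le_rpow (by positivity) h2 hε.le
  let m : Ideal (𝓞 F) → ℕ := fun I => (S.filter fun p => Prime p ∧ p ∣ I).card
  have key : ∀ I : Ideal (𝓞 F), I ≠ 0 →
      ({J | J ∣ I}.ncard : ℝ) ≤ C₀ ^ m I * (Ideal.absNorm I : ℝ) ^ ε := by
    intro I
    induction I using UniqueFactorizationMonoid.induction_on_coprime with
    | h0 => exact fun h => absurd rfl h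
    | @h1 I hI =>
      intro _
      have hI1 : I = 1 := by
        rw [Ideal.isUnit_iff] at hI
        rw [hI, Ideal.one_eq_top]
      subst hI1
      have h2 : {J : Ideal (𝓞 F) | J ∣ 1} = {1} := by
        ext J
        rw [Set.mem_ofPred_eq, Set.mem_singleton_iff]
        constructor
        · intro h
          have := isUnit_of_dvd_one h
          rw [Ideal.isUnit_iff] at this
          rw [this, Ideal.one_eq_top]
        · rintro rfl
          exact dvd_rfl
      rw [h2, Set.ncard_singleton, map_one, Nat.cast_one, Real.one_rpow, mul_one]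
      exact one_le_pow₀ hC₀
    | @hpr p i hp =>
      intro _
      have h1 : ({J | J ∣ p ^ i}.ncard : ℝ) ≤ (i : ℝ) + 1 := by
        exact_mod_cast ncard_dvd_prime_pow hp i
      rcases Nat.eq_zero_or_pos i with rfl | hi
      · refine h1.trans ?_
        rw [pow_zero, map_one, Nat.cast_one, Real.one_rpow, mul_one, Nat.cast_zero, zero_add]
        exact one_le_pow₀ hC₀
      · have h0 : ((Ideal.absNorm (p ^ i) : ℕ) : ℝ) ^ ε =
            (Ideal.absNorm p : ℝ) ^ ((i : ℝ) * ε) := by
          rw [map_pow, Nat.cast_pow, ← Real.rpow_natCast (Ideal.absNorm p : ℝ) i,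
            ← Real.rpow_mul (by positivity)]
        rw [h0]
        refine h1.trans ?_
        by_cases hpS : p ∈ S
        · have h2 : m (p ^ i) = 1 := by
            have : (S.filter fun q => Prime q ∧ q ∣ p ^ i) = {p} := by
              ext q
              rw [Finset.mem_filter, Finset.mem_singleton]
              constructor
              · rintro ⟨-, hq, hqd⟩
                exact associated_iff_eq.1 ((hq.dvd_prime_iff_associated hp).1 (hq.dvd_of_dvd_pow hqd))
              · rintro rfl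
                exact ⟨hpS, hp, dvd_pow_self _ hi.ne'⟩
            simp only [m]
            rw [this, Finset.card_singleton]
          rw [h2, pow_one]
          refine (hlin i).trans ?_
          refine mul_le_mul_of_nonneg_left ?_ (by linarith)
          rw [mul_comm]
          refine Real.rpow_le_rpow (by norm_num) ?_ (by positivity)
          exact_mod_cast two_le_absNorm F hp
        · have h3 := hS p hpS
          have h4 : (1 : ℝ) ≤ C₀ ^ m (p ^ i) := one_le_pow₀ hC₀
          have h5 : (i : ℝ) + 1 ≤ (Ideal.absNorm p : ℝ) ^ ((i : ℝ) * ε) := by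
            have h6 : (i : ℝ) + 1 ≤ 2 ^ i := by exact_mod_cast Nat.lt_two_pow_self
            refine h6.trans ?_
            rw [mul_comm, Real.rpow_mul (by positivity), Real.rpow_natCast]
            exact pow_le_pow_left₀ (by norm_num) h3 i
          calc (i : ℝ) + 1 ≤ 1 * (Ideal.absNorm p : ℝ) ^ ((i : ℝ) * ε) := by rw [one_mul]; exact h5
            _ ≤ _ := mul_le_mul_of_nonneg_right h4 (by positivity)
    | @hcp x y hxy hx hy =>
      intro h0
      have hx0 : x ≠ 0 := left_ne_zero_of_mul h0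
      have hy0 : y ≠ 0 := right_ne_zero_of_mul h0
      have h1 := ncard_dvd_mul_le hx0 hy0
      have h2 : m (x * y) = m x + m y := by
        simp only [m]
        rw [← Finset.card_union_of_disjoint]
        · congr 1
          ext q
          simp only [Finset.mem_filter, Finset.mem_union]
          constructor
          · rintro ⟨h3, h4, h5⟩
            rcases h4.dvd_or_dvd h5 with h6 | h6
            · exact Or.inl ⟨h3, h4, h6⟩
            · exact Or.inr ⟨h3, h4, h6⟩
          · rintro (⟨h3, h4, h5⟩ | ⟨h3, h4, h5⟩)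
            · exact ⟨h3, h4, h5.mul_right _⟩
            · exact ⟨h3, h4, h5.mul_left _⟩
        · rw [Finset.disjoint_left]
          intro q hq hq'
          rw [Finset.mem_filter] at hq hq'
          exact hq.2.1.not_isUnit (hxy hq.2.2 hq'.2.2)
      rw [h2, pow_add, map_mul, Nat.cast_mul, Real.mul_rpow (by positivity) (by positivity)]
      calc ({J | J ∣ x * y}.ncard : ℝ) ≤ {J | J ∣ x}.ncard * {J | J ∣ y}.ncard := by
            exact_mod_cast h1
        _ ≤ (C₀ ^ m x * (Ideal.absNorm x : ℝ) ^ ε) * (C₀ ^ m y * (Ideal.absNorm y : ℝ) ^ ε) :=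
            mul_le_mul (hx hx0) (hy hy0) (by positivity) (by positivity)
        _ = _ := by ring
  refine ⟨C₀ ^ S.card, one_le_pow₀ hC₀, fun I hI => (key I hI).trans ?_⟩
  refine mul_le_mul_of_nonneg_right ?_ (by positivity)
  exact pow_le_pow_right₀ hC₀ (Finset.card_filter_le _ _)

end Pool.Agent.H26.Mass
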