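import Pool.Graph.R_pool_sql_team_seeded_620a6dc7.Helper313SN.Lower

/-!
# The monic polynomial of trace zero attached to a form
-/

set_option autoImplicit false

open Polynomial

namespace Pool.Agent.H26.Mass

open Pool.Agent.Helper313LB

section

variable {R : Type*} [CommRing R]

/-- `(X - t)^n + ∑ a_0^j a_{j+1} (X - t)^{n-1-j}` -/
noncomputable def hp (n : ℕ) (a : ℕ → R) (t : R) : R[X] :=
  (X + C (-t)) ^ n + ∑ j ∈ Finset.range n, C (a 0 ^ j * a (j + 1)) * (X + C (-t)) ^ (n - 1 - j)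

theorem hp_coeff (n : ℕ) (a : ℕ → R) (t : R) (k : ℕ) : (hp n a t).coeff k =
    (-t) ^ (n - k) * (n.choose k : R) + ∑ j ∈ Finset.range n, a 0 ^ j * a (j + 1) *
      ((-t) ^ (n - 1 - j - k) * ((n - 1 - j).choose k : R)) := by
  rw [hp, coeff_add, coeff_X_add_C_pow, finsetSum_coeff]
  congr 1
  refine Finset.sum_congr rfl fun j _ => ?_
  rw [coeff_C_mul, coeff_X_add_C_pow]

theorem hp_coeff_top {n : ℕ} (hn : 1 ≤ n) (a : ℕ → R) (t : R) : (hp n a t).coeff n = 1 := by
  rw [hp_coeff, Nat.sub_self, pow_zero, Nat.choose_self, Nat.cast_one, mul_one,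
    Finset.sum_eq_zero, add_zero]
  intro j _
  rw [Nat.choose_eq_zero_of_lt (by omega : n - 1 - j < n)]
  simp

theorem hp_natDegree_le {n : ℕ} (a : ℕ → R) (t : R) : (hp n a t).natDegree ≤ n := by
  rw [natDegree_le_iff_coeff_eq_zero]
  intro N hN
  rw [hp_coeff, Nat.choose_eq_zero_of_lt hN, Finset.sum_eq_zero]
  · simp
  · intro j _
    rw [Nat.choose_eq_zero_of_lt (by omega : n - 1 - j < N)]
    simp

theorem hp_monic {n : ℕ} (hn : 1 ≤ n) (a : ℕ → R) (t : R) : (hp n a t).Monic :=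
  monic_of_natDegree_le_of_coeff_eq_one n (hp_natDegree_le a t) (hp_coeff_top hn a t)

theorem hp_natDegree [Nontrivial R] {n : ℕ} (hn : 1 ≤ n) (a : ℕ → R) (t : R) :
    (hp n a t).natDegree = n :=
  natDegree_eq_of_le_of_coeff_ne_zero (hp_natDegree_le a t) (by
    rw [hp_coeff_top hn]; exact one_ne_zero)

theorem hp_nextCoeff [Nontrivial R] {n : ℕ} (hn : 1 ≤ n) (a : ℕ → R) (t : R) (h1 : a 1 = n * t) :
    (hp n a t).nextCoeff = 0 := by
  rw [nextCoeff_of_natDegree_pos (by rw [hp_natDegree hn]; exact hn), hp_natDegree hn, hp_coeff,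
    Finset.sum_eq_single 0]
  · have e1 : n - (n - 1) = 1 := by omega
    have e2 : n.choose (n - 1) = n := by
      rw [Nat.choose_symm hn, Nat.choose_one_right]
    rw [e1, e2, pow_one, pow_zero, zero_add, h1, Nat.sub_zero, Nat.sub_self, pow_zero,
      Nat.choose_self]
    push_cast
    ring
  · intro j hj hj0
    rw [Finset.mem_range] at hj
    rw [Nat.choose_eq_zero_of_lt (by omega : n - 1 - j < n - 1)]
    simp
  · intro h
    exact absurd (Finset.mem_range.2 (by omega)) h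

theorem hp_eq_P [Nontrivial R] {n : ℕ} (hn : 1 ≤ n) (a : ℕ → R) (t : R) (h1 : a 1 = n * t) :
    hp n a t = P n fun j => (hp n a t).coeff j :=
  eq_P hn (hp_monic hn a t) (hp_natDegree hn a t) (hp_nextCoeff hn a t h1)

/-- the coefficients modulo `M` -/
theorem hp_coeff_mod {n : ℕ} (hn : 1 ≤ n) (a : ℕ → R) (t : R) (M : R) (h0 : M ∣ a 0 - 1)
    (ht : M ∣ t) {k : ℕ} (hk : k < n) :
    M ∣ (hp n a t).coeff k - a (n - k) := by
  rw [hp_coeff, add_sub_assoc]
  refine dvd_add ?_ ?_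
  · refine Dvd.dvd.mul_right ?_ _
    exact (dvd_pow ((dvd_neg).2 ht) (by omega))
  · have hmem : n - 1 - k ∈ Finset.range n := Finset.mem_range.2 (by omega)
    rw [← Finset.add_sum_erase _ _ hmem, add_sub_right_comm]
    refine dvd_add ?_ (Finset.dvd_sum fun j hj => ?_)
    · have e1 : n - 1 - (n - 1 - k) = k := by omega
      have e2 : n - 1 - k + 1 = n - k := by omega
      rw [e1, e2, Nat.sub_self, pow_zero, Nat.choose_self, Nat.cast_one, mul_one, mul_one]
      have h3 : a 0 ^ (n - 1 - k) * a (n - k) - a (n - k) = (a 0 ^ (n - 1 - k) - 1) * a (n - k) := by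
        ring
      rw [h3]
      refine Dvd.dvd.mul_right (h0.trans ?_) _
      exact sub_one_dvd_pow_sub_one _ _
    · rw [Finset.mem_erase, Finset.mem_range] at hj
      rcases Nat.lt_or_ge (n - 1 - j) k with h | h
      · rw [Nat.choose_eq_zero_of_lt h]
        simp
      · refine Dvd.dvd.mul_left (Dvd.dvd.mul_right ?_ _) _
        exact dvd_pow ((dvd_neg).2 ht) (by omega)

/-- the coefficients modulo the leading coefficient -/
theorem hp_coeff_mod_lead {n : ℕ} (hn : 1 ≤ n) (a : ℕ → R) (t : R) (h1 : a 1 = n * t) (k : ℕ) :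
    a 0 ∣ (hp n a t).coeff k - ((-t) ^ (n - k) * (n.choose k : R) +
      n * t * ((-t) ^ (n - 1 - k) * ((n - 1).choose k : R))) := by
  rw [hp_coeff, add_sub_add_left_eq_sub]
  have hmem : 0 ∈ Finset.range n := Finset.mem_range.2 (by omega)
  rw [← Finset.add_sum_erase _ _ hmem, pow_zero, one_mul, zero_add, h1, Nat.sub_zero,
    add_sub_cancel_left]
  refine Finset.dvd_sum fun j hj => ?_
  rw [Finset.mem_erase] at hj
  refine Dvd.dvd.mul_right (Dvd.dvd.mul_right (dvd_pow_self _ hj.1) _) _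

/-- the second and third coefficients -/
theorem lead_dvd_two {n : ℕ} (hn : 2 ≤ n) (a : ℕ → R) (t : R) (h1 : a 1 = n * t) :
    a 0 ∣ 2 * (hp n a t).coeff (n - 2) + n * (n - 1) * t ^ 2 := by
  obtain ⟨m, rfl⟩ : ∃ m, n = m + 2 := ⟨n - 2, by omega⟩
  have h := hp_coeff_mod_lead (by omega) a t h1 (m + 2 - 2)
  have e1 : m + 2 - (m + 2 - 2) = 2 := by omega
  have e2 : m + 2 - 1 - (m + 2 - 2) = 1 := by omega
  have e3 : m + 2 - 2 = m := by omega
  have e4 : m + 2 - 1 = m + 1 := by omega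
  rw [e1, e2, e3, e4] at h
  have c1 : ((m + 2).choose m : R) * 2 = (m + 2) * (m + 1) := by
    have : (m + 2).choose m * 2 = (m + 2) * (m + 1) := by
      rw [Nat.choose_symm_of_eq_add (by omega : m + 2 = m + 2)]
      have := Nat.add_one_mul_choose_eq (m + 1) 1
      rw [Nat.choose_one_right] at this
      simpa using this.symm
    exact_mod_cast congrArg (Nat.cast (R := R)) this
  have c2 : ((m + 1).choose m : R) = m + 1 := by
    have : (m + 1).choose m = m + 1 := by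
      rw [Nat.choose_symm_of_eq_add (by omega : m + 1 = m + 1), Nat.choose_one_right]
    rw [this]
    push_cast
    ring
  have h2 := h.mul_left 2
  refine (dvd_iff_dvd_of_dvd_sub ?_).1 h2
  refine ⟨0, ?_⟩
  rw [e3, c2]
  push_cast
  linear_combination (-t ^ 2) * c1

theorem lead_dvd_three {n : ℕ} (hn : 3 ≤ n) (a : ℕ → R) (t : R) (h1 : a 1 = n * t) :
    a 0 ∣ 6 * (hp n a t).coeff (n - 3) - 2 * (n * (n - 1) * (n - 2)) * t ^ 3 := by
  obtain ⟨m, rfl⟩ : ∃ m, n = m + 3 := ⟨n - 3, by omega⟩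
  have h := hp_coeff_mod_lead (by omega) a t h1 (m + 3 - 3)
  have e1 : m + 3 - (m + 3 - 3) = 3 := by omega
  have e2 : m + 3 - 1 - (m + 3 - 3) = 2 := by omega
  have e3 : m + 3 - 3 = m := by omega
  have e4 : m + 3 - 1 = m + 2 := by omega
  rw [e1, e2, e3, e4] at h
  have c1 : ((m + 3).choose m : R) * 6 = (m + 3) * (m + 2) * (m + 1) := by
    have : (m + 3).choose m * 6 = (m + 3) * (m + 2) * (m + 1) := by
      rw [Nat.choose_symm_of_eq_add (by omega : m + 3 = m + 3)]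
      have h3 := Nat.add_one_mul_choose_eq (m + 2) 2
      have h4 := Nat.add_one_mul_choose_eq (m + 1) 1
      rw [Nat.choose_one_right] at h4
      norm_num at h3 h4
      nlinarith
    exact_mod_cast congrArg (Nat.cast (R := R)) this
  have c2 : ((m + 2).choose m : R) * 2 = (m + 2) * (m + 1) := by
    have : (m + 2).choose m * 2 = (m + 2) * (m + 1) := by
      rw [Nat.choose_symm_of_eq_add (by omega : m + 2 = m + 2)]
      have := Nat.add_one_mul_choose_eq (m + 1) 1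
      rw [Nat.choose_one_right] at this
      simpa using this.symm
    exact_mod_cast congrArg (Nat.cast (R := R)) this
  have h2 := h.mul_left 6
  refine (dvd_iff_dvd_of_dvd_sub ?_).1 h2
  refine ⟨0, ?_⟩
  rw [e3]
  push_cast
  linear_combination (t ^ 3) * c1 - 3 * (m + 3) * t ^ 3 * c2

/-- the invariant of a monic polynomial of trace zero -/
def inv (n : ℕ) (c₂ c₃ : R) : R := 4 * (n - 2) ^ 2 * (2 * c₂) ^ 3 + n * (n - 1) * (6 * c₃) ^ 2

theorem lead_dvd_inv {n : ℕ} (hn : 3 ≤ n) (a : ℕ → R) (t : R) (h1 : a 1 = n * t) :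
    a 0 ∣ inv n ((hp n a t).coeff (n - 2)) ((hp n a t).coeff (n - 3)) := by
  obtain ⟨x, hx⟩ := lead_dvd_two (by omega) a t h1
  obtain ⟨y, hy⟩ := lead_dvd_three hn a t h1
  have e1 : 2 * (hp n a t).coeff (n - 2) = a 0 * x - n * (n - 1) * t ^ 2 := by
    linear_combination hx
  have e2 : 6 * (hp n a t).coeff (n - 3) = a 0 * y + 2 * (n * (n - 1) * (n - 2)) * t ^ 3 := by
    linear_combination hy
  rw [inv, e1, e2]
  refine ⟨4 * ((n : R) - 2) ^ 2 * (a 0 ^ 2 * x ^ 3 - 3 * a 0 * x ^ 2 * (n * (n - 1) * t ^ 2) +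
    3 * x * (n * (n - 1) * t ^ 2) ^ 2) + n * (n - 1) * (a 0 * y ^ 2 +
      4 * y * (n * (n - 1) * (n - 2)) * t ^ 3), ?_⟩
  ring

/-- two shifts with the same polynomial are congruent modulo the leading coefficient -/
theorem shift_congr {n : ℕ} (hn : 3 ≤ n) (a a' : ℕ → R) (t t' : R) (h1 : a 1 = n * t)
    (h1' : a' 1 = n * t') (h0 : a 0 = a' 0) (h : hp n a t = hp n a' t')
    (hu : ∃ u v : R, u * (2 * (n * (n - 1) * (n - 2))) + v * a 0 = 1)
    (hrad : ∀ x : R, a 0 ∣ x ^ 3 → a 0 ∣ x) : a 0 ∣ t - t' := by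
  obtain ⟨u, v, huv⟩ := hu
  have a1 := lead_dvd_two (by omega) a t h1
  have a2 := lead_dvd_two (by omega) a' t' h1'
  have b1 := lead_dvd_three hn a t h1
  have b2 := lead_dvd_three hn a' t' h1'
  rw [← h0, ← h] at a2 b2
  obtain ⟨x, hx⟩ := a1
  obtain ⟨x', hx'⟩ := a2
  obtain ⟨y, hy⟩ := b1
  obtain ⟨y', hy'⟩ := b2
  have s1 : a 0 ∣ t ^ 2 - t' ^ 2 := by
    refine ⟨u * (2 * (n - 2)) * (x - x') + v * (t ^ 2 - t' ^ 2), ?_⟩
    linear_combination (-(t ^ 2 - t' ^ 2)) * huv + u * (2 * (n - 2)) * (hx - hx')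
  have s2 : a 0 ∣ t ^ 3 - t' ^ 3 := by
    refine ⟨-(u * (y - y')) + v * (t ^ 3 - t' ^ 3), ?_⟩
    linear_combination (-(t ^ 3 - t' ^ 3)) * huv - u * (hy - hy')
  apply hrad
  obtain ⟨z, hz⟩ := s1
  obtain ⟨w, hw⟩ := s2
  refine ⟨4 * w - 3 * t' * z - 3 * t * z, ?_⟩
  linear_combination 4 * hw - 3 * t' * hz - 3 * t * hz

/-- the coefficients are determined -/
theorem hp_inj [IsDomain R] {n : ℕ} (a a' : ℕ → R) (t : R) (h0 : a 0 = a' 0) (hne : a 0 ≠ 0)
    (h : hp n a t = hp n a' t) {j : ℕ} (hj : j < n) : a (j + 1) = a' (j + 1) := by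
  have key : ∀ b : ℕ → R, (hp n b t).comp (X + C t) =
      X ^ n + ∑ j ∈ Finset.range n, C (b 0 ^ j * b (j + 1)) * X ^ (n - 1 - j) := by
    intro b
    have e1 : (X + C (-t)).comp (X + C t) = (X : R[X]) := by
      rw [add_comp, X_comp, C_comp, C_neg]
      ring
    rw [hp, add_comp, pow_comp, e1, Polynomial.sum_comp]
    congr 1
    refine Finset.sum_congr rfl fun j _ => ?_
    rw [mul_comp, C_comp, pow_comp, e1]
  have h2 : X ^ n + ∑ j ∈ Finset.range n, C (a 0 ^ j * a (j + 1)) * X ^ (n - 1 - j) =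
      X ^ n + ∑ j ∈ Finset.range n, C (a' 0 ^ j * a' (j + 1)) * X ^ (n - 1 - j) := by
    rw [← key, ← key, h]
  have h3 := add_left_cancel h2
  have h4 : ∀ b : ℕ → R, (∑ j ∈ Finset.range n, C (b 0 ^ j * b (j + 1)) * X ^ (n - 1 - j)).coeff
      (n - 1 - j) = b 0 ^ j * b (j + 1) := by
    intro b
    rw [finsetSum_coeff, Finset.sum_eq_single j]
    · rw [coeff_C_mul, coeff_X_pow, if_pos rfl, mul_one]
    · intro i hi hij
      rw [Finset.mem_range] at hi
      rw [coeff_C_mul, coeff_X_pow, if_neg (by omega), mul_zero]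
    · intro h
      exact absurd (Finset.mem_range.2 hj) h
  have h5 := congrArg (fun f => f.coeff (n - 1 - j)) h3
  simp only [h4] at h5
  rw [← h0] at h5
  exact mul_left_cancel₀ (pow_ne_zero _ hne) h5

/-- the value of the polynomial -/
theorem aeval_hp {A : Type*} [CommRing A] [Algebra R A] {n : ℕ} (hn : 1 ≤ n) (a : ℕ → R) (t : R)
    (θ : A) : aeval (algebraMap R A (a 0) * θ + algebraMap R A t) (hp n a t) =
      algebraMap R A (a 0) ^ (n - 1) *
        ∑ j ∈ Finset.range (n + 1), algebraMap R A (a j) * θ ^ (n - j) := by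
  have e1 : aeval (algebraMap R A (a 0) * θ + algebraMap R A t) (X + C (-t) : R[X]) =
      algebraMap R A (a 0) * θ := by
    simp
  rw [hp, map_add, map_pow, e1, map_sum, Finset.sum_range_succ', mul_add, add_comm]
  congr 1
  · rw [Finset.mul_sum]
    refine Finset.sum_congr rfl fun j hj => ?_
    rw [Finset.mem_range] at hj
    rw [map_mul, map_pow, e1, aeval_C, map_mul, map_pow, mul_pow]
    have e2 : n - (j + 1) = n - 1 - j := by omega
    have e3 : algebraMap R A (a 0) ^ (n - 1) = algebraMap R A (a 0) ^ j *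
        algebraMap R A (a 0) ^ (n - 1 - j) := by
      rw [← pow_add]
      congr 1
      omega
    rw [e2, e3]
    ring
  · rw [Nat.sub_zero, mul_pow, ← mul_assoc, ← pow_succ]
    congr 2
    omega

end

/-- the roots of a form with small coefficients and large leading coefficient -/
theorem root_le_three {n : ℕ} (a : ℕ → ℂ) {H : ℝ} (hH : 0 < H) (h0 : H / 2 ≤ ‖a 0‖)
    (ha : ∀ j, ‖a j‖ ≤ H) {z : ℂ} (hz : ∑ j ∈ Finset.range (n + 1), a j * z ^ (n - j) = 0) :
    ‖z‖ ≤ 3 := by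
  by_contra hcon
  push Not at hcon
  rw [Finset.sum_range_succ', Nat.sub_zero] at hz
  have h1 : ‖a 0‖ * ‖z‖ ^ n ≤ ∑ j ∈ Finset.range n, H * ‖z‖ ^ (n - 1 - j) := by
    have h2 : a 0 * z ^ n = -∑ j ∈ Finset.range n, a (j + 1) * z ^ (n - (j + 1)) := by
      linear_combination hz
    rw [← norm_pow, ← norm_mul, h2, norm_neg]
    refine (norm_sum_le _ _).trans (Finset.sum_le_sum fun j _ => ?_)
    rw [norm_mul, norm_pow, Nat.sub_add_eq, Nat.sub_right_comm]
    exact mul_le_mul_of_nonneg_right (ha _) (by positivity)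
  rw [← Finset.mul_sum, Finset.sum_range_reflect (fun j => ‖z‖ ^ j) n, geom_sum_eq (by linarith)] at h1
  have hz0 : 0 < ‖z‖ ^ n := by positivity
  have h3 : (‖z‖ ^ n - 1) / (‖z‖ - 1) < ‖z‖ ^ n / 2 := by
    rw [div_lt_div_iff₀ (by linarith) (by norm_num)]
    nlinarith
  have h4 : H / 2 * ‖z‖ ^ n ≤ ‖a 0‖ * ‖z‖ ^ n := mul_le_mul_of_nonneg_right h0 hz0.le
  have h5 : H * ((‖z‖ ^ n - 1) / (‖z‖ - 1)) < H * (‖z‖ ^ n / 2) := mul_lt_mul_of_pos_left h3 hH
  linarith

end Pool.Agent.H26.Mass
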