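import Pool.Agent.H26.Mass.Params

/-!
# Many monic polynomials
-/

set_option autoImplicit false

open Module NumberField Polynomial IntermediateField
open scoped Classical

namespace Pool.Agent.H26.Mass

open Pool.Agent.Helper313LB Pool.Agent.Helper313SN

/-- the properties of the parameters -/
structure Ok {F : Type} [Field F] [NumberField F] {Ω : Type} [Field Ω] [Algebra F Ω]
    (Q : IntermediateField F Ω → Prop) (n : ℕ) (H : ℝ) (p : 𝓞 F × 𝓞 F × (Fin (n - 1) → 𝓞 F)) : Prop where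
  size : ∀ j, ∀ σ : F →+* ℂ, ‖σ ((mk n p j : 𝓞 F) : F)‖ ≤ H
  lead : ∀ σ : F →+* ℂ, H / 2 ≤ ‖σ (p.1 : F)‖
  shift : ∀ σ : F →+* ℂ, ‖σ (p.2.1 : F)‖ ≤ H
  irr : Irreducible (P n fun j => ((hh n p j : 𝓞 F) : F))
  full : ∀ α : Ω, (minpoly F α = P n fun j => ((hh n p j : 𝓞 F) : F)) → Q F⟮α⟯

theorem exists_many {F : Type} [Field F] [NumberField F] {Ω : Type} [Field Ω] [CharZero Ω]
    [Algebra F Ω] {Q₁ : IntermediateField F Ω → Prop} {n : ℕ} (hn : 3 ≤ n)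
    (hB : Pool.Agent.Helper313WR.Base Q₁ n) {ε : ℝ} (hε : 0 < ε) :
    ∃ c H₀ : ℝ, 0 < c ∧ 1 ≤ H₀ ∧ ∀ H : ℝ, H₀ ≤ H →
      ∃ Q : Finset (𝓞 F × 𝓞 F × (Fin (n - 1) → 𝓞 F)), (∀ p ∈ Q, Ok Q₁ n H p) ∧
        c * H ^ ((finrank ℚ F * (n + 1) : ℕ) - ε : ℝ) ≤ ((Q.image (hh n)).card : ℝ) := by
  classical
  obtain ⟨a, M₀, hM₀, hdvd, hbase⟩ := exists_base' hn hB
  obtain ⟨M, hMM₀, hM1, c₁, H₁, hc₁, hH₁, hfam⟩ := exists_family F M₀ hM₀
  obtain ⟨c₂, hc₂, hBox⟩ := exists_le_ncard_Box F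
  set d := finrank ℚ F with hd
  have hd0 : 0 < d := finrank_pos
  have hdR : (0 : ℝ) < d := by exact_mod_cast hd0
  obtain ⟨C₃, hC₃, hdiv⟩ := exists_ncard_dvd_le F (ε := ε / (6 * d)) (by positivity)
  have hMR : (1 : ℝ) ≤ M := by exact_mod_cast hM1
  have hnR : (3 : ℝ) ≤ n := by exact_mod_cast hn
  obtain ⟨D₁, hD₁⟩ : ∃ D : ℝ, ∀ (j : Fin (n - 1)) (σ : F →+* ℂ), ‖σ (a j : F)‖ ≤ D := by
    obtain ⟨D, hD⟩ := (Set.finite_range fun x : Fin (n - 1) × (F →+* ℂ) =>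
      ‖x.2 (a x.1 : F)‖).bddAbove
    exact ⟨D, fun j σ => hD ⟨(j, σ), rfl⟩⟩
  set K₁ : ℝ := 4 * ((n : ℝ) + 2) ^ 2 * (2 * (16 * 2 ^ n)) ^ 3 +
    n * ((n : ℝ) + 1) * (6 * (64 * 2 ^ n)) ^ 2 with hK₁
  have hK₁0 : 0 < K₁ := by positivity
  set K₂ : ℝ := ((Box F 4).ncard : ℝ) * (((Box F 2).ncard : ℝ) * (C₃ * (K₁ ^ d) ^ (ε / (6 * d)))) with hK₂
  have hbox : ∀ r : ℝ, 0 ≤ r → 0 < (Box F r).ncard := by
    intro r hr
    rw [Set.ncard_pos (finite_Box F r)]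
    exact ⟨0, fun σ => by simpa using hr⟩
  have hK₂0 : 0 < K₂ := by
    have h1 : (0 : ℝ) < (Box F 4).ncard := by exact_mod_cast hbox 4 (by norm_num)
    have h2 : (0 : ℝ) < (Box F 2).ncard := by exact_mod_cast hbox 2 (by norm_num)
    positivity
  refine ⟨c₁ * (c₂ / (n * M) ^ d) * (c₂ / (2 * M) ^ d) ^ (n - 1) / K₂, max H₁ (2 * D₁),
    by positivity, le_max_of_le_left hH₁, ?_⟩
  intro H hH
  have hHH₁ : H₁ ≤ H := (le_max_left _ _).trans hH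
  have hHD : 2 * D₁ ≤ H := (le_max_right _ _).trans hH
  have hH1 : 1 ≤ H := hH₁.trans hHH₁
  have hH0 : 0 < H := by linarith
  obtain ⟨A, hAcard, hA⟩ := hfam H hHH₁
  let T : Finset (𝓞 F) := (finite_Box F (H / (n * M))).toFinset
  let W : Finset (𝓞 F) := (finite_Box F (H / (2 * M))).toFinset
  have hT : ∀ x, x ∈ T ↔ x ∈ Box F (H / (n * M)) := fun x => Set.Finite.mem_toFinset _
  have hW : ∀ x, x ∈ W ↔ x ∈ Box F (H / (2 * M)) := fun x => Set.Finite.mem_toFinset _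
  let Q₀ : Finset (𝓞 F × 𝓞 F × (Fin (n - 1) → 𝓞 F)) :=
    A ×ˢ (T ×ˢ (Fintype.piFinset fun _ => W))
  let e : 𝓞 F × 𝓞 F × (Fin (n - 1) → 𝓞 F) → 𝓞 F × 𝓞 F × (Fin (n - 1) → 𝓞 F) := fun p =>
    (p.1, (M : 𝓞 F) * p.2.1, fun j => a j + (M : 𝓞 F) * p.2.2 j)
  have hM0 : (M : 𝓞 F) ≠ 0 := by exact_mod_cast (by omega : M ≠ 0)
  have he : Function.Injective e := by
    rintro ⟨x, y, z⟩ ⟨x', y', z'⟩ h
    simp only [e, Prod.mk.injEq] at h
    obtain ⟨h1, h2, h3⟩ := h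
    refine Prod.ext h1 (Prod.ext (mul_left_cancel₀ hM0 h2) (funext fun j => ?_))
    exact mul_left_cancel₀ hM0 (add_left_cancel (congrFun h3 j))
  let Q := Q₀.image e
  have hQcard : Q.card = A.card * (T.card * W.card ^ (n - 1)) := by
    rw [Finset.card_image_of_injective _ he, Finset.card_product, Finset.card_product,
      Fintype.card_piFinset_const]
  -- the elements of Q
  have hQ : ∀ p ∈ Q, p.1 ∈ A ∧ (∃ u, u ∈ Box F (H / (n * M)) ∧ p.2.1 = (M : 𝓞 F) * u) ∧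
      ∀ j, ∃ w, w ∈ Box F (H / (2 * M)) ∧ p.2.2 j = a j + (M : 𝓞 F) * w := by
    intro p hp
    obtain ⟨p₀, hp₀, rfl⟩ := Finset.mem_image.1 hp
    rw [Finset.mem_product, Finset.mem_product, Fintype.mem_piFinset] at hp₀
    exact ⟨hp₀.1, ⟨p₀.2.1, (hT _).1 hp₀.2.1, rfl⟩, fun j => ⟨p₀.2.2 j, (hW _).1 (hp₀.2.2 j), rfl⟩⟩
  have hshift : ∀ p ∈ Q, ∀ σ : F →+* ℂ, n * ‖σ (p.2.1 : F)‖ ≤ H := by
    intro p hp σ
    obtain ⟨-, ⟨u, hu, h2⟩, -⟩ := hQ p hp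
    rw [h2]
    have h3 : σ (((M : 𝓞 F) * u : 𝓞 F) : F) = (M : ℂ) * σ (u : F) := by simp
    rw [h3, norm_mul, Complex.norm_natCast]
    have h4 := hu σ
    rw [le_div_iff₀ (by positivity)] at h4
    calc n * ((M : ℝ) * ‖σ (u : F)‖) = ‖σ (u : F)‖ * (n * M) := by ring
      _ ≤ H := h4
  have hcong : ∀ p ∈ Q, ∀ j, (M : 𝓞 F) ∣ hh n p j - a j := by
    intro p hp j
    obtain ⟨h1, ⟨u, hu, h2⟩, h3⟩ := hQ p hp
    obtain ⟨⟨u', hu'⟩, -, -⟩ := hA _ h1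
    have h4 := hh_eq (by omega : 1 ≤ n) p (M : 𝓞 F) ⟨u', by rw [hu']; ring⟩ ⟨u, h2⟩ j
    obtain ⟨w, -, hw⟩ := h3 j
    have h5 : hh n p j - a j = (hh n p j - p.2.2 j) + (M : 𝓞 F) * w := by
      rw [hw]; ring
    rw [h5]
    exact dvd_add h4 (dvd_mul_right _ _)
  have hcong₀ : ∀ p ∈ Q, ∀ j, (M₀ : 𝓞 F) ∣ hh n p j - a j := fun p hp j =>
    (by exact_mod_cast (Nat.cast_dvd_cast hMM₀ : (M₀ : 𝓞 F) ∣ (M : 𝓞 F)) : (M₀ : 𝓞 F) ∣ (M : 𝓞 F)).trans
      (hcong p hp j)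
  have hok : ∀ p ∈ Q, Ok Q₁ n H p := by
    intro p hp
    obtain ⟨h1, ⟨u, hu, h2⟩, h3⟩ := hQ p hp
    obtain ⟨-, -, hsz⟩ := hA _ h1
    have hb := (hbase (hh n p) (hcong₀ p hp)).1
    refine ⟨?_, fun σ => (hsz σ).1, ?_, hb.1, hb.2⟩
    · intro j σ
      rw [mk]
      split_ifs with hj0 hj1 hj2
      · exact (hsz σ).2
      · have h4 : σ (((n : 𝓞 F) * p.2.1 : 𝓞 F) : F) = (n : ℂ) * σ (p.2.1 : F) := by simp
        rw [h4, norm_mul, Complex.norm_natCast]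
        exact hshift p hp σ
      · obtain ⟨w, hw, hw2⟩ := h3 ⟨n - j, hj2⟩
        rw [hw2]
        have h4 : σ ((a ⟨n - j, hj2⟩ + (M : 𝓞 F) * w : 𝓞 F) : F) =
            σ (a ⟨n - j, hj2⟩ : F) + (M : ℂ) * σ (w : F) := by simp
        rw [h4]
        refine (norm_add_le _ _).trans ?_
        rw [norm_mul, Complex.norm_natCast]
        have h5 := hw σ
        rw [le_div_iff₀ (by positivity)] at h5
        have h6 := hD₁ ⟨n - j, hj2⟩ σ
        linarith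
      · simp only [map_zero, norm_zero]
        exact hH0.le
    · intro σ
      have h4 := hshift p hp σ
      have h5 := norm_nonneg (σ (p.2.1 : F))
      nlinarith
  refine ⟨Q, hok, ?_⟩
  -- the fibres
  have hfib : ∀ h₀ ∈ Q.image (hh n), ((Q.filter fun p => hh n p = h₀).card : ℝ) ≤ K₂ * H ^ ε := by
    intro h₀ hh₀
    obtain ⟨p₀, hp₀, hp₀h⟩ := Finset.mem_image.1 hh₀
    have hD := (hbase h₀ (by rw [← hp₀h]; exact hcong₀ p₀ hp₀)).2
    set D : 𝓞 F := inv n (h₀ ⟨n - 2, by omega⟩) (h₀ ⟨n - 3, by omega⟩) with hDdef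
    have h1 := card_fiber_le hn (hdvd.trans hMM₀) hH0 h₀ hD (Q.filter fun p => hh n p = h₀) (by
      intro p hp
      obtain ⟨hp1, hp2⟩ := Finset.mem_filter.1 hp
      obtain ⟨h1, -, -⟩ := hQ p hp1
      obtain ⟨h2, h3, h4⟩ := hA _ h1
      exact ⟨hp2, h2, h3, h4, (hok p hp1).shift⟩)
    have hok₀ := hok p₀ hp₀
    have hcoef : ∀ (σ : F →+* ℂ) (k : ℕ), ‖σ ((hp n (mk n p₀) p₀.2.1).coeff k : F)‖ ≤
        (4 * H) ^ (n - k) * 2 ^ n := fun σ k =>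
      coeff_hp_le (by omega) _ _ hH0 hok₀.size (fun σ => by
        rw [mk_zero]; exact hok₀.lead σ) hok₀.shift σ k
    have hDsize : ∀ σ : F →+* ℂ, ‖σ (D : F)‖ ≤ K₁ * H ^ 6 := by
      intro σ
      refine inv_size hH1 σ ?_ ?_
      · have h2 := hcoef σ (n - 2)
        have e2 : n - (n - 2) = 2 := by omega
        rw [e2] at h2
        rw [← hp₀h]
        exact h2
      · have h2 := hcoef σ (n - 3)
        have e2 : n - (n - 3) = 3 := by omega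
        rw [e2] at h2
        rw [← hp₀h]
        exact h2
    have hD0 : Ideal.span {D} ≠ 0 := fun h => hD (Ideal.span_singleton_eq_bot.1 h)
    have h2 := hdiv _ hD0
    have h3 := absNorm_span_le hDsize
    have h4 : (Ideal.absNorm (Ideal.span {D}) : ℝ) ^ (ε / (6 * d)) ≤
        (K₁ ^ d) ^ (ε / (6 * d)) * H ^ ε := by
      refine (Real.rpow_le_rpow (by positivity) h3 (by positivity)).trans (le_of_eq ?_)
      rw [mul_pow, Real.mul_rpow (by positivity) (by positivity)]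
      congr 1
      rw [← pow_mul, ← Real.rpow_natCast, ← Real.rpow_mul hH0.le]
      congr 1
      rw [← hd]
      push_cast
      field_simp
    have h5 : ((Q.filter fun p => hh n p = h₀).card : ℝ) ≤ ((Box F 4).ncard : ℝ) *
        (((Box F 2).ncard : ℝ) * ({J | J ∣ Ideal.span {D}}.ncard : ℝ)) := by exact_mod_cast h1
    refine h5.trans ?_
    have h6 : ({J | J ∣ Ideal.span {D}}.ncard : ℝ) ≤ C₃ * ((K₁ ^ d) ^ (ε / (6 * d)) * H ^ ε) :=
      h2.trans (mul_le_mul_of_nonneg_left h4 (by linarith))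
    calc ((Box F 4).ncard : ℝ) * (((Box F 2).ncard : ℝ) * ({J | J ∣ Ideal.span {D}}.ncard : ℝ))
        ≤ ((Box F 4).ncard : ℝ) * (((Box F 2).ncard : ℝ) * (C₃ * ((K₁ ^ d) ^ (ε / (6 * d)) * H ^ ε))) :=
          mul_le_mul_of_nonneg_left (mul_le_mul_of_nonneg_left h6 (by positivity)) (by positivity)
      _ = K₂ * H ^ ε := by rw [hK₂]; ring
  have hsum : (Q.card : ℝ) ≤ K₂ * H ^ ε * ((Q.image (hh n)).card : ℝ) := by
    have h1 : Q.card = ∑ h₀ ∈ Q.image (hh n), (Q.filter fun p => hh n p = h₀).card :=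
      Finset.card_eq_sum_card_fiberwise (fun p hp => Finset.mem_image_of_mem _ hp)
    have h2 : (Q.card : ℝ) = ∑ h₀ ∈ Q.image (hh n), ((Q.filter fun p => hh n p = h₀).card : ℝ) := by
      exact_mod_cast h1
    rw [h2]
    refine (Finset.sum_le_sum hfib).trans ?_
    rw [Finset.sum_const, nsmul_eq_mul, mul_comm]
  have hTc : c₂ * (H / (n * M)) ^ d ≤ (T.card : ℝ) := by
    have := hBox (H / (n * M)) (by positivity)
    rwa [Set.ncard_eq_toFinset_card _ (finite_Box F _)] at this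
  have hWc : c₂ * (H / (2 * M)) ^ d ≤ (W.card : ℝ) := by
    have := hBox (H / (2 * M)) (by positivity)
    rwa [Set.ncard_eq_toFinset_card _ (finite_Box F _)] at this
  have hQlow : c₁ * (c₂ / (n * M) ^ d) * (c₂ / (2 * M) ^ d) ^ (n - 1) * H ^ (d * (n + 1)) ≤
      (Q.card : ℝ) := by
    rw [hQcard]
    push_cast
    calc c₁ * (c₂ / (n * M) ^ d) * (c₂ / (2 * M) ^ d) ^ (n - 1) * H ^ (d * (n + 1))
        = (c₁ * H ^ d) * ((c₂ * (H / (n * M)) ^ d) * (c₂ * (H / (2 * M)) ^ d) ^ (n - 1)) := by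
          obtain ⟨m, rfl⟩ : ∃ m, n = m + 1 := ⟨n - 1, by omega⟩
          have : H ^ (d * (m + 1 + 1)) = H ^ d * (H ^ d * (H ^ d) ^ m) := by
            rw [← pow_mul, ← pow_add, ← pow_add]
            congr 1
            ring
          have e1 : c₂ * (H / ((m + 1 : ℕ) * M)) ^ d = c₂ / ((m + 1 : ℕ) * M) ^ d * H ^ d := by
            rw [div_pow]; ring
          have e2 : c₂ * (H / (2 * M)) ^ d = c₂ / (2 * M) ^ d * H ^ d := by
            rw [div_pow]; ring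
          rw [this, e1, e2, Nat.add_sub_cancel, mul_pow]
          ring
      _ ≤ _ := by
          refine mul_le_mul hAcard ?_ (by positivity) (by positivity)
          refine mul_le_mul hTc ?_ (by positivity) (by positivity)
          exact pow_le_pow_left₀ (by positivity) hWc _
  have hHε : 0 < H ^ ε := by positivity
  have hsplit : H ^ ((d * (n + 1) : ℕ) - ε : ℝ) = H ^ (d * (n + 1)) / H ^ ε := by
    rw [Real.rpow_sub hH0, Real.rpow_natCast]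
  rw [hsplit, div_mul_div_comm, div_le_iff₀ (by positivity)]
  calc c₁ * (c₂ / (n * M) ^ d) * (c₂ / (2 * M) ^ d) ^ (n - 1) * H ^ (d * (n + 1))
      ≤ (Q.card : ℝ) := hQlow
    _ ≤ K₂ * H ^ ε * ((Q.image (hh n)).card : ℝ) := hsum
    _ = _ := by ring

end Pool.Agent.H26.Mass
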