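import Pool.Agent.H26.Mass.Fiber
import Pool.Graph.R_pool_sql_team_seeded_620a6dc7.Helper313WR.A9

/-!
# The family of the forms
-/

set_option autoImplicit false

open Module NumberField Polynomial IntermediateField

namespace Pool.Agent.H26.Mass

open Pool.Agent.Helper313LB Pool.Agent.Helper313SN

/-- the base polynomial -/
theorem exists_base' {F : Type} [Field F] [NumberField F] {Ω : Type} [Field Ω] [CharZero Ω]
    [Algebra F Ω] {Q : IntermediateField F Ω → Prop} {n : ℕ} (hn : 3 ≤ n)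
    (hB : Pool.Agent.Helper313WR.Base Q n) :
    ∃ (a : Fin (n - 1) → 𝓞 F) (M₀ : ℕ), 1 ≤ M₀ ∧ 2 * (n * (n - 1) * (n - 2)) ∣ M₀ ∧
      (∀ h : Fin (n - 1) → 𝓞 F, (∀ j, (M₀ : 𝓞 F) ∣ h j - a j) →
        (Irreducible (P n fun j => (h j : F)) ∧
          ∀ α : Ω, (minpoly F α = P n fun j => (h j : F)) → Q F⟮α⟯) ∧
        inv n (h ⟨n - 2, by omega⟩) (h ⟨n - 3, by omega⟩) ≠ 0) := by
  classical
  obtain ⟨a, q, hq1, hbase⟩ := hB
  let i₂ : Fin (n - 1) := ⟨n - 2, by omega⟩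
  let i₃ : Fin (n - 1) := ⟨n - 3, by omega⟩
  have hne23 : i₃ ≠ i₂ := fun h => by
    have := congrArg (fun x : Fin (n - 1) => (x : ℕ)) h
    simp only [i₂, i₃] at this
    omega
  have hnR : ((n : 𝓞 F) - 2) ≠ 0 := by
    have : ((n - 2 : ℕ) : 𝓞 F) ≠ 0 := by exact_mod_cast (by omega : n - 2 ≠ 0)
    rwa [Nat.cast_sub (by omega : 2 ≤ n), Nat.cast_ofNat] at this
  have hq0 : (q : 𝓞 F) ≠ 0 := by exact_mod_cast (by omega : q ≠ 0)
  -- the choice of the second coefficient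
  obtain ⟨k, hk⟩ : ∃ k : ℕ, inv n (a i₂ + q * k) (a i₃) ≠ 0 := by
    by_contra hcon
    push Not at hcon
    have h0 := hcon 0
    have h1 := hcon 1
    have h2 := hcon 2
    have h3 := hcon 3
    simp only [inv] at h0 h1 h2 h3
    have h4 : ((n : 𝓞 F) - 2) ^ 2 * (q : 𝓞 F) ^ 3 * 192 = 0 := by
      push_cast at h0 h1 h2 h3
      linear_combination h3 - 3 * h2 + 3 * h1 - h0
    have h5 : (192 : 𝓞 F) ≠ 0 := by norm_num
    rcases mul_eq_zero.1 h4 with h6 | h6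
    · rcases mul_eq_zero.1 h6 with h7 | h7
      · exact hnR (pow_eq_zero_iff (two_ne_zero) |>.1 h7)
      · exact hq0 (pow_eq_zero_iff (three_ne_zero) |>.1 h7)
    · exact h5 h6
  let a' : Fin (n - 1) → 𝓞 F := fun j => if j = i₂ then a i₂ + q * k else a j
  set D : 𝓞 F := inv n (a' i₂) (a' i₃) with hD
  have hD0 : D ≠ 0 := by
    rw [hD]
    simp only [a', if_true, if_neg hne23]
    exact hk
  set B : ℕ := Ideal.absNorm (Ideal.span {D}) + 1 with hB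
  have hBD : ¬ (B : 𝓞 F) ∣ D := by
    intro h
    have h1 : Ideal.span {(B : 𝓞 F)} ∣ Ideal.span {D} := by
      rw [Ideal.dvd_span_singleton, Ideal.mem_span_singleton]
      exact h
    have h2 := map_dvd Ideal.absNorm h1
    rw [Ideal.absNorm_span_natCast, RingOfIntegers.rank] at h2
    have h3 : Ideal.absNorm (Ideal.span {D}) ≠ 0 := fun h =>
      hD0 (Ideal.span_singleton_eq_bot.1 (Ideal.absNorm_eq_zero_iff.1 h))
    have h4 := Nat.le_of_dvd (Nat.pos_of_ne_zero h3) h2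
    have h5 : B ≤ B ^ finrank ℚ F :=
      Nat.le_self_pow (finrank_pos (R := ℚ) (M := F)).ne' B
    omega
  have hB1 : 1 ≤ B := by omega
  have hn' : 1 ≤ 2 * (n * (n - 1) * (n - 2)) := by
    have h1 : 1 ≤ n - 1 := by omega
    have h2 : 1 ≤ n - 2 := by omega
    have h3 : 1 ≤ n := by omega
    have := Nat.mul_pos (Nat.mul_pos h3 h1) h2
    omega
  refine ⟨a', q * (2 * (n * (n - 1) * (n - 2))) * B, ?_, ?_, ?_⟩
  · exact Nat.mul_pos (Nat.mul_pos hq1 hn') hB1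
  · exact (dvd_mul_left _ q).mul_right B
  · intro h hh
    have hqM : (q : 𝓞 F) ∣ ((q * (2 * (n * (n - 1) * (n - 2))) * B : ℕ) : 𝓞 F) := by
      refine ⟨((2 * (n * (n - 1) * (n - 2)) * B : ℕ) : 𝓞 F), ?_⟩
      rw [← Nat.cast_mul]
      congr 1
      ring
    have hBM : (B : 𝓞 F) ∣ ((q * (2 * (n * (n - 1) * (n - 2))) * B : ℕ) : 𝓞 F) := by
      refine ⟨((q * (2 * (n * (n - 1) * (n - 2))) : ℕ) : 𝓞 F), ?_⟩
      rw [← Nat.cast_mul]
      congr 1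
      ring
    constructor
    · have h1 : ∀ j, ∃ b : 𝓞 F, h j = a j + q * b := by
        intro j
        obtain ⟨x, hx⟩ := hqM.trans (hh j)
        by_cases hj : j = i₂
        · refine ⟨x + k, ?_⟩
          have : a' j = a j + q * k := by simp only [a', hj, if_true]
          rw [this] at hx
          linear_combination hx
        · refine ⟨x, ?_⟩
          have : a' j = a j := by simp only [a', hj, if_false]
          rw [this] at hx
          linear_combination hx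
      choose b hb using h1
      have h2 : (fun j => (h j : F)) = fun j => ((a j + (q : 𝓞 F) * b j : 𝓞 F) : F) := by
        funext j
        rw [hb]
      rw [h2]
      exact hbase b
    · intro h0
      apply hBD
      obtain ⟨x, hx⟩ := hBM.trans (hh i₂)
      obtain ⟨y, hy⟩ := hBM.trans (hh i₃)
      change inv n (h i₂) (h i₃) = 0 at h0
      have e1 : a' i₂ = h i₂ - B * x := by linear_combination -hx
      have e2 : a' i₃ = h i₃ - B * y := by linear_combination -hy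
      rw [hD, e1, e2]
      refine ⟨4 * ((n : 𝓞 F) - 2) ^ 2 * 8 * (-3 * (h i₂) ^ 2 * x + 3 * h i₂ * B * x ^ 2 -
        B ^ 2 * x ^ 3) + n * (n - 1) * 36 * (-2 * h i₃ * y + B * y ^ 2), ?_⟩
      simp only [inv] at h0 ⊢
      linear_combination h0

section size

variable {F : Type} [Field F] [NumberField F]

/-- the size of the roots of the monic polynomial -/
theorem root_hp_le {n : ℕ} (hn : 1 ≤ n) (a : ℕ → 𝓞 F) (t : 𝓞 F) {H : ℝ} (hH : 0 < H)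
    (ha : ∀ j, ∀ σ : F →+* ℂ, ‖σ (a j : F)‖ ≤ H) (h0 : ∀ σ : F →+* ℂ, H / 2 ≤ ‖σ (a 0 : F)‖)
    (ht : ∀ σ : F →+* ℂ, ‖σ (t : F)‖ ≤ H) (σ : F →+* ℂ) {z : ℂ}
    (hz : ((hp n a t).map (σ.comp (algebraMap (𝓞 F) F))).eval z = 0) :
    ‖(z - σ (t : F)) / σ (a 0 : F)‖ ≤ 3 ∧ ‖z‖ ≤ 4 * H := by
  let _ : Algebra (𝓞 F) ℂ := (σ.comp (algebraMap (𝓞 F) F)).toAlgebra
  have hmap : ∀ x : 𝓞 F, algebraMap (𝓞 F) ℂ x = σ (x : F) := fun x => rfl
  have ha0 : σ (a 0 : F) ≠ 0 := by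
    intro h
    have := h0 σ
    rw [h, norm_zero] at this
    linarith
  set θ : ℂ := (z - σ (t : F)) / σ (a 0 : F) with hθ
  have hz' : algebraMap (𝓞 F) ℂ (a 0) * θ + algebraMap (𝓞 F) ℂ t = z := by
    rw [hmap, hmap, hθ, mul_div_cancel₀ _ ha0]
    ring
  have h1 := aeval_hp hn a t θ
  rw [hz', aeval_def, ← eval_map] at h1
  change ((hp n a t).map (σ.comp (algebraMap (𝓞 F) F))).eval z = _ at h1
  rw [hz] at h1
  have h2 : ∑ j ∈ Finset.range (n + 1), (fun j => σ (a j : F)) j * θ ^ (n - j) = 0 := by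
    have h3 := mul_eq_zero.1 h1.symm
    rcases h3 with h3 | h3
    · exact absurd h3 (pow_ne_zero _ ha0)
    · exact h3
  have h4 : ‖θ‖ ≤ 3 := root_le_three (fun j => σ (a j : F)) hH (h0 σ) (fun j => ha j σ) h2
  refine ⟨h4, ?_⟩
  rw [← hz', hmap, hmap]
  refine (norm_add_le _ _).trans ?_
  rw [norm_mul]
  have h5 := ha 0 σ
  have h6 := ht σ
  nlinarith [norm_nonneg θ, norm_nonneg (σ (a 0 : F)), mul_le_mul h5 h4 (norm_nonneg _) hH.le]

theorem coeff_hp_le {n : ℕ} (hn : 1 ≤ n) (a : ℕ → 𝓞 F) (t : 𝓞 F) {H : ℝ} (hH : 0 < H)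
    (ha : ∀ j, ∀ σ : F →+* ℂ, ‖σ (a j : F)‖ ≤ H) (h0 : ∀ σ : F →+* ℂ, H / 2 ≤ ‖σ (a 0 : F)‖)
    (ht : ∀ σ : F →+* ℂ, ‖σ (t : F)‖ ≤ H) (σ : F →+* ℂ) (k : ℕ) :
    ‖σ ((hp n a t).coeff k : F)‖ ≤ (4 * H) ^ (n - k) * 2 ^ n := by
  have h1 := coeff_le_of_roots_le (p := hp n a t) (f := σ.comp (algebraMap (𝓞 F) F))
    (B := 4 * H) k (hp_monic hn a t) (IsAlgClosed.splits _) ?_
  · rw [coeff_map, hp_natDegree hn] at h1
    refine le_trans h1 ?_
    refine mul_le_mul_of_nonneg_left ?_ (by positivity)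
    exact_mod_cast Nat.choose_le_two_pow n k
  · intro z hz
    exact (root_hp_le hn a t hH ha h0 ht σ ((mem_roots'.1 hz).2)).2

theorem inv_size {n : ℕ} {c₂ c₃ : 𝓞 F} {H : ℝ} (hH : 1 ≤ H) (σ : F →+* ℂ)
    (h2 : ‖σ (c₂ : F)‖ ≤ (4 * H) ^ 2 * 2 ^ n) (h3 : ‖σ (c₃ : F)‖ ≤ (4 * H) ^ 3 * 2 ^ n) :
    ‖σ ((inv n c₂ c₃ : 𝓞 F) : F)‖ ≤
      (4 * ((n : ℝ) + 2) ^ 2 * (2 * (16 * 2 ^ n)) ^ 3 + n * ((n : ℝ) + 1) * (6 * (64 * 2 ^ n)) ^ 2) *
        H ^ 6 := by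
  have e : σ ((inv n c₂ c₃ : 𝓞 F) : F) = 4 * ((n : ℂ) - 2) ^ 2 * (2 * σ (c₂ : F)) ^ 3 +
      n * ((n : ℂ) - 1) * (6 * σ (c₃ : F)) ^ 2 := by
    let τ : 𝓞 F →+* ℂ := σ.comp (algebraMap (𝓞 F) F)
    change τ (inv n c₂ c₃) = 4 * ((n : ℂ) - 2) ^ 2 * (2 * τ c₂) ^ 3 +
      n * ((n : ℂ) - 1) * (6 * τ c₃) ^ 2
    simp only [inv, map_add, map_mul, map_pow, map_sub, map_natCast, map_ofNat, map_one]
  have hn0 : (0 : ℝ) ≤ n := by positivity
  rw [e]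
  refine (norm_add_le _ _).trans ?_
  rw [add_mul]
  refine add_le_add ?_ ?_
  · rw [norm_mul, norm_mul, norm_pow, norm_pow, norm_mul]
    have e1 : ‖(4 : ℂ)‖ = 4 := by norm_num
    have e2 : ‖(2 : ℂ)‖ = 2 := by norm_num
    rw [e1, e2]
    have h4 : ‖(n : ℂ) - 2‖ ≤ (n : ℝ) + 2 := by
      refine (norm_sub_le _ _).trans ?_
      rw [Complex.norm_natCast, e2]
    have h5 : 2 * ‖σ (c₂ : F)‖ ≤ 2 * (16 * 2 ^ n) * H ^ 2 := by
      calc 2 * ‖σ (c₂ : F)‖ ≤ 2 * ((4 * H) ^ 2 * 2 ^ n) := mul_le_mul_of_nonneg_left h2 (by norm_num)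
        _ = _ := by ring
    calc 4 * ‖(n : ℂ) - 2‖ ^ 2 * (2 * ‖σ (c₂ : F)‖) ^ 3
        ≤ 4 * ((n : ℝ) + 2) ^ 2 * (2 * (16 * 2 ^ n) * H ^ 2) ^ 3 := by
          refine mul_le_mul ?_ (pow_le_pow_left₀ (by positivity) h5 3) (by positivity) (by positivity)
          exact mul_le_mul_of_nonneg_left (pow_le_pow_left₀ (norm_nonneg _) h4 2) (by norm_num)
      _ = _ := by ring
  · rw [norm_mul, norm_mul, norm_pow, norm_mul, Complex.norm_natCast]
    have e1 : ‖(6 : ℂ)‖ = 6 := by norm_num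
    rw [e1]
    have h4 : ‖(n : ℂ) - 1‖ ≤ (n : ℝ) + 1 := by
      refine (norm_sub_le _ _).trans ?_
      rw [Complex.norm_natCast, norm_one]
    have h5 : 6 * ‖σ (c₃ : F)‖ ≤ 6 * (64 * 2 ^ n) * H ^ 3 := by
      calc 6 * ‖σ (c₃ : F)‖ ≤ 6 * ((4 * H) ^ 3 * 2 ^ n) := mul_le_mul_of_nonneg_left h3 (by norm_num)
        _ = _ := by ring
    calc (n : ℝ) * ‖(n : ℂ) - 1‖ * (6 * ‖σ (c₃ : F)‖) ^ 2
        ≤ n * ((n : ℝ) + 1) * (6 * (64 * 2 ^ n) * H ^ 3) ^ 2 := by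
          refine mul_le_mul ?_ (pow_le_pow_left₀ (by positivity) h5 2) (by positivity) (by positivity)
          exact mul_le_mul_of_nonneg_left h4 hn0
      _ = _ := by ring

end size

end Pool.Agent.H26.Mass
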