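import Pool.Agent.H26.Mass.Div

/-!
# Summability of the norms of the ideals
-/

set_option autoImplicit false

open Module NumberField

namespace Pool.Agent.H26.Mass

variable (F : Type*) [Field F] [NumberField F]

theorem exists_ncard_norm_eq_le {ε : ℝ} (hε : 0 < ε) : ∃ C : ℝ, 1 ≤ C ∧ ∀ k : ℕ, k ≠ 0 →
    {J : Ideal (𝓞 F) | Ideal.absNorm J = k}.Finite ∧
    ({J : Ideal (𝓞 F) | Ideal.absNorm J = k}.ncard : ℝ) ≤ C * (k : ℝ) ^ ε := by
  have hd : (0 : ℝ) < finrank ℚ F := by exact_mod_cast finrank_pos (R := ℚ) (M := F)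
  obtain ⟨C, hC, h⟩ := exists_ncard_dvd_le F (div_pos hε hd)
  refine ⟨C, hC, fun k hk => ?_⟩
  set I : Ideal (𝓞 F) := Ideal.span {(k : 𝓞 F)} with hI
  have hI0 : I ≠ 0 := by
    intro h0
    rw [hI, Submodule.zero_eq_bot, Ideal.span_singleton_eq_bot] at h0
    exact hk (by exact_mod_cast h0)
  have h1 : {J : Ideal (𝓞 F) | Ideal.absNorm J = k} ⊆ {J | J ∣ I} := by
    intro J hJ
    rw [Set.mem_ofPred_eq] at hJ
    rw [Set.mem_ofPred_eq, Ideal.dvd_span_singleton, ← hJ]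
    exact Ideal.absNorm_mem J
  have h2 : Ideal.absNorm I = k ^ finrank ℚ F := by
    rw [hI, Ideal.absNorm_span_natCast, RingOfIntegers.rank]
  refine ⟨(finite_dvd hI0).subset h1, ?_⟩
  have h3 : ({J : Ideal (𝓞 F) | Ideal.absNorm J = k}.ncard : ℝ) ≤ ({J | J ∣ I}.ncard : ℝ) := by
    exact_mod_cast Set.ncard_le_ncard h1 (finite_dvd hI0)
  refine h3.trans ((h I hI0).trans (le_of_eq ?_))
  rw [h2, Nat.cast_pow, ← Real.rpow_natCast, ← Real.rpow_mul (by positivity)]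
  congr 2
  field_simp

theorem summable_norm : Summable fun J : Ideal (𝓞 F) => (Ideal.absNorm J : ℝ) ^ (-(3 / 2) : ℝ) := by
  classical
  obtain ⟨C, hC, h⟩ := exists_ncard_norm_eq_le F (ε := 1 / 4) (by norm_num)
  have hs : Summable fun k : ℕ => (k : ℝ) ^ (-(5 / 4) : ℝ) :=
    Real.summable_nat_rpow.2 (by norm_num)
  refine summable_of_sum_le (c := C * ∑' k : ℕ, (k : ℝ) ^ (-(5 / 4) : ℝ))
    (fun J => by positivity) fun u => ?_
  have h1 : ∑ J ∈ u, (Ideal.absNorm J : ℝ) ^ (-(3 / 2) : ℝ) =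
      ∑ k ∈ u.image Ideal.absNorm, ∑ J ∈ u with Ideal.absNorm J = k,
        (Ideal.absNorm J : ℝ) ^ (-(3 / 2) : ℝ) :=
    (Finset.sum_fiberwise_of_maps_to (fun J hJ => Finset.mem_image_of_mem _ hJ) _).symm
  rw [h1]
  have h2 : ∀ k ∈ u.image Ideal.absNorm, ∑ J ∈ u with Ideal.absNorm J = k,
      (Ideal.absNorm J : ℝ) ^ (-(3 / 2) : ℝ) ≤ C * (k : ℝ) ^ (-(5 / 4) : ℝ) := by
    intro k _
    rcases Nat.eq_zero_or_pos k with rfl | hk
    · have : ∀ J ∈ u.filter (fun J => Ideal.absNorm J = 0),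
          (Ideal.absNorm J : ℝ) ^ (-(3 / 2) : ℝ) = 0 := by
        intro J hJ
        rw [(Finset.mem_filter.1 hJ).2, Nat.cast_zero, Real.zero_rpow (by norm_num)]
      rw [Finset.sum_eq_zero this]
      positivity
    · have hk' : (0 : ℝ) < k := by exact_mod_cast hk
      obtain ⟨hf, hle⟩ := h k hk.ne'
      have h3 : ∑ J ∈ u with Ideal.absNorm J = k, (Ideal.absNorm J : ℝ) ^ (-(3 / 2) : ℝ) =
          ((u.filter (fun J => Ideal.absNorm J = k)).card : ℝ) * (k : ℝ) ^ (-(3 / 2) : ℝ) := by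
        rw [← nsmul_eq_mul, ← Finset.sum_const]
        refine Finset.sum_congr rfl fun J hJ => ?_
        rw [(Finset.mem_filter.1 hJ).2]
      have h4 : ((u.filter (fun J => Ideal.absNorm J = k)).card : ℝ) ≤ C * (k : ℝ) ^ (1 / 4 : ℝ) := by
        refine le_trans ?_ hle
        have h5 : ((u.filter (fun J => Ideal.absNorm J = k) : Finset (Ideal (𝓞 F))) :
            Set (Ideal (𝓞 F))) ⊆ {J : Ideal (𝓞 F) | Ideal.absNorm J = k} := by
          intro J hJ
          exact (Finset.mem_filter.1 (Finset.mem_coe.1 hJ)).2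
        have h6 := Set.ncard_le_ncard h5 hf
        rw [Set.ncard_coe_finset] at h6
        exact_mod_cast h6
      rw [h3]
      calc ((u.filter (fun J => Ideal.absNorm J = k)).card : ℝ) * (k : ℝ) ^ (-(3 / 2) : ℝ)
          ≤ (C * (k : ℝ) ^ (1 / 4 : ℝ)) * (k : ℝ) ^ (-(3 / 2) : ℝ) :=
            mul_le_mul_of_nonneg_right h4 (by positivity)
        _ = _ := by
          rw [mul_assoc, ← Real.rpow_add hk']
          norm_num
  refine (Finset.sum_le_sum h2).trans ?_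
  rw [← Finset.mul_sum]
  refine mul_le_mul_of_nonneg_left ?_ (by linarith)
  exact hs.sum_le_tsum _ (fun k _ => by positivity)

end Pool.Agent.H26.Mass
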